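import Pool.Agent.Lib_helper40.UP10.Comb10
import Pool.Agent.Lib_helper76.UEN.Ex

/-!
# The combinatorial statement for the order 10
-/

set_option autoImplicit false

namespace Pool.Agent.UEN

open UP

lemma rh_card10 (D : ZMod 10 → ℤ) : ((Finset.univ.filter fun x => D x ≠ 0).card : ℤ) =
    ∑ x, (if D x ≠ 0 then 1 else 0) := by
  rw [Finset.card_filter]
  push_cast
  rfl

/-- **the combinatorial statement for the order 10** -/
theorem main10 : Main Ex10 := by
  intro D E G d h h1 h2 h3
  rcases Tr.main10 h (by rw [rh_card10, rh_card10, rh_card10]; exact h1) h2 h3 with h4 | ⟨t, h4⟩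
  · exact Or.inl h4
  · exact Or.inr ⟨t, h4⟩

end Pool.Agent.UEN
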