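import Pool.Agent.Lib_helper40.UP10.Red10

/-!
# The normal forms
-/

set_option autoImplicit false
set_option linter.unusedVariables false
set_option linter.unusedSimpArgs false

namespace Pool.Agent.UP10

open UP

variable {D E G : ZMod 10 → ℤ} {d : ℤ}

lemma hl10 {c : ℕ} (hl : ∀ i : ℕ, i < 10 → lab D E G (i : ZMod 10) = dg c i) :
    lab D E G 0 = dg c 0 ∧ lab D E G 1 = dg c 1 ∧ lab D E G 2 = dg c 2 ∧ lab D E G 3 = dg c 3 ∧ lab D E G 4 = dg c 4 ∧ lab D E G 5 = dg c 5 ∧ lab D E G 6 = dg c 6 ∧ lab D E G 7 = dg c 7 ∧ lab D E G 8 = dg c 8 ∧ lab D E G 9 = dg c 9 :=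
  ⟨by simpa using hl 0 (by norm_num), by simpa using hl 1 (by norm_num), by simpa using hl 2 (by norm_num), by simpa using hl 3 (by norm_num), by simpa using hl 4 (by norm_num), by simpa using hl 5 (by norm_num), by simpa using hl 6 (by norm_num), by simpa using hl 7 (by norm_num), by simpa using hl 8 (by norm_num), by simpa using hl 9 (by norm_num)⟩

lemma _root_.Pool.Agent.UP.Tr.s10 (h : Tr D E G d) : D 0 + D 1 + D 2 + D 3 + D 4 + D 5 + D 6 + D 7 + D 8 + D 9 = d := by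
  rw [← sum10]; exact h.sd

lemma nz10 {a : ℤ} (h : 1 ≤ a) : a ≠ 0 := by omega

lemma card10 (D : ZMod 10 → ℤ) :
    (Fintype.card {x // D x ≠ 0} : ℤ) = ∑ x, if D x ≠ 0 then 1 else 0 := by
  rw [Fintype.card_subtype, Finset.card_filter]
  push_cast
  rfl

/-- the number of nonzero digits -/
def nzd (n : ℕ) : ℕ := min 1 (dg n 0) + min 1 (dg n 1) + min 1 (dg n 2) + min 1 (dg n 3) + min 1 (dg n 4) + min 1 (dg n 5) + min 1 (dg n 6) + min 1 (dg n 7) + min 1 (dg n 8) + min 1 (dg n 9)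

lemma H10.rh10 (h : H10 D E G d) {c : ℕ}
    (hl : ∀ i : ℕ, i < 10 → lab D E G (i : ZMod 10) = dg c i) : d ≤ nzd c := by
  have h1 : ∀ x, ((if D x ≠ 0 then 1 else 0 : ℤ) + if E x ≠ 0 then 1 else 0) +
      (if G x ≠ 0 then 1 else 0) = ((min 1 (lab D E G x) : ℕ) : ℤ) := by
    intro x
    have h4 := lab_lt (D := D) (E := E) (G := G) x
    have : lab D E G x = 0 ∨ lab D E G x = 1 ∨ lab D E G x = 2 ∨ lab D E G x = 3 := by omega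
    rcases this with e | e | e | e
    · obtain ⟨a1, a2, a3⟩ := lab0 e
      rw [e, a1, a2, a3]
      simp
    · obtain ⟨a1, a2, a3⟩ := h.toTr.m10lab1 e
      rw [e, a2, a3, if_pos (by omega)]
      simp
    · obtain ⟨a1, a2, a3⟩ := h.toTr.m10lab2 e
      rw [e, a1, a3, if_pos (c := E x ≠ 0) (by omega)]
      simp
    · obtain ⟨a1, a2, a3⟩ := h.toTr.m10lab3 e
      rw [e, a1, a2, if_pos (c := G x ≠ 0) (by omega)]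
      simp
  have h2 := h.rh
  rw [card10, card10, card10, ← Finset.sum_add_distrib, ← Finset.sum_add_distrib,
    Finset.sum_congr rfl fun x _ => h1 x, sum10] at h2
  obtain ⟨a0, a1, a2, a3, a4, a5, a6, a7, a8, a9⟩ := hl10 hl
  rw [a0, a1, a2, a3, a4, a5, a6, a7, a8, a9] at h2
  unfold nzd
  push_cast at h2 ⊢
  exact h2

lemma dvd10 {D G : ZMod 10 → ℤ} (h : ∑ x : ZMod 10, (D x - G x) • x = 0) :
    (10 : ℤ) ∣ 1 * (D 1 - G 1) + 2 * (D 2 - G 2) + 3 * (D 3 - G 3) + 4 * (D 4 - G 4) + 5 * (D 5 - G 5) + 6 * (D 6 - G 6) + 7 * (D 7 - G 7) + 8 * (D 8 - G 8) + 9 * (D 9 - G 9) := by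
  have h1 := (ZMod.intCast_zmod_eq_zero_iff_dvd (1 * (D 1 - G 1) + 2 * (D 2 - G 2) + 3 * (D 3 - G 3) + 4 * (D 4 - G 4) + 5 * (D 5 - G 5) + 6 * (D 6 - G 6) + 7 * (D 7 - G 7) + 8 * (D 8 - G 8) + 9 * (D 9 - G 9)) 10).mp
  have h2 : ((10 : ℕ) : ℤ) = 10 := rfl
  rw [h2] at h1
  apply h1
  rw [sum10] at h
  simp only [zsmul_eq_mul] at h
  push_cast at h ⊢
  rw [← h]
  ring


lemma cas_4227 (h : H10 D E G d)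
    (hl : ∀ i : ℕ, i < 10 → lab D E G (i : ZMod 10) = dg 4227 i) : Con10 D E G := by
  have hk : d ≤ 3 := h.rh10 hl
  obtain ⟨a0, a1, a2, a3, a4, a5, a6, a7, a8, a9⟩ := hl10 hl
  obtain ⟨x0, y0, z0⟩ := h.toTr.m10lab3 (a0.trans rfl)
  obtain ⟨x1, y1, z1⟩ := lab0 (a1.trans rfl)
  obtain ⟨x2, y2, z2⟩ := lab0 (a2.trans rfl)
  obtain ⟨x3, y3, z3⟩ := h.toTr.m10lab2 (a3.trans rfl)
  obtain ⟨x4, y4, z4⟩ := lab0 (a4.trans rfl)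
  obtain ⟨x5, y5, z5⟩ := lab0 (a5.trans rfl)
  obtain ⟨x6, y6, z6⟩ := h.toTr.m10lab1 (a6.trans rfl)
  obtain ⟨x7, y7, z7⟩ := lab0 (a7.trans rfl)
  obtain ⟨x8, y8, z8⟩ := lab0 (a8.trans rfl)
  obtain ⟨x9, y9, z9⟩ := lab0 (a9.trans rfl)
  have sD := h.toTr.s10
  have sE := h.toTr.rot.s10
  have sG := h.toTr.rot.rot.s10
  have pd := h.pos
  have v1 := dvd10 h.s1
  have v2 := dvd10 h.s2
  simp only [x0, x1, x2, x3, x4, x5, x7, x8, x9, y0, y1, y2, y4, y5, y6, y7, y8, y9, z1, z2, z3, z4, z5, z6, z7, z8, z9, sub_zero, zero_sub, add_zero, zero_add, mul_zero, sub_self] at sD sE sG v1 v2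
  clear hl a0 a1 a2 a3 a4 a5 a6 a7 a8 a9
  clear x0 x1 x2 x3 x4 x5 x7 x8 x9 y0 y1 y2 y4 y5 y6 y7 y8 y9 z1 z2 z3 z4 z5 z6 z7 z8 z9
  exfalso
  omega

lemma cas_16419 (h : H10 D E G d)
    (hl : ∀ i : ℕ, i < 10 → lab D E G (i : ZMod 10) = dg 16419 i) : Con10 D E G := by
  have hk : d ≤ 3 := h.rh10 hl
  obtain ⟨a0, a1, a2, a3, a4, a5, a6, a7, a8, a9⟩ := hl10 hl
  obtain ⟨x0, y0, z0⟩ := h.toTr.m10lab3 (a0.trans rfl)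
  obtain ⟨x1, y1, z1⟩ := lab0 (a1.trans rfl)
  obtain ⟨x2, y2, z2⟩ := h.toTr.m10lab2 (a2.trans rfl)
  obtain ⟨x3, y3, z3⟩ := lab0 (a3.trans rfl)
  obtain ⟨x4, y4, z4⟩ := lab0 (a4.trans rfl)
  obtain ⟨x5, y5, z5⟩ := lab0 (a5.trans rfl)
  obtain ⟨x6, y6, z6⟩ := lab0 (a6.trans rfl)
  obtain ⟨x7, y7, z7⟩ := h.toTr.m10lab1 (a7.trans rfl)
  obtain ⟨x8, y8, z8⟩ := lab0 (a8.trans rfl)
  obtain ⟨x9, y9, z9⟩ := lab0 (a9.trans rfl)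
  have sD := h.toTr.s10
  have sE := h.toTr.rot.s10
  have sG := h.toTr.rot.rot.s10
  have pd := h.pos
  have v1 := dvd10 h.s1
  have v2 := dvd10 h.s2
  simp only [x0, x1, x2, x3, x4, x5, x6, x8, x9, y0, y1, y3, y4, y5, y6, y7, y8, y9, z1, z2, z3, z4, z5, z6, z7, z8, z9, sub_zero, zero_sub, add_zero, zero_add, mul_zero, sub_self] at sD sE sG v1 v2
  clear hl a0 a1 a2 a3 a4 a5 a6 a7 a8 a9
  clear x0 x1 x2 x3 x4 x5 x6 x8 x9 y0 y1 y3 y4 y5 y6 y7 y8 y9 z1 z2 z3 z4 z5 z6 z7 z8 z9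
  exfalso
  omega

lemma cas_4131 (h : H10 D E G d)
    (hl : ∀ i : ℕ, i < 10 → lab D E G (i : ZMod 10) = dg 4131 i) : Con10 D E G := by
  have hk : d ≤ 3 := h.rh10 hl
  obtain ⟨a0, a1, a2, a3, a4, a5, a6, a7, a8, a9⟩ := hl10 hl
  obtain ⟨x0, y0, z0⟩ := h.toTr.m10lab3 (a0.trans rfl)
  obtain ⟨x1, y1, z1⟩ := lab0 (a1.trans rfl)
  obtain ⟨x2, y2, z2⟩ := h.toTr.m10lab2 (a2.trans rfl)
  obtain ⟨x3, y3, z3⟩ := lab0 (a3.trans rfl)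
  obtain ⟨x4, y4, z4⟩ := lab0 (a4.trans rfl)
  obtain ⟨x5, y5, z5⟩ := lab0 (a5.trans rfl)
  obtain ⟨x6, y6, z6⟩ := h.toTr.m10lab1 (a6.trans rfl)
  obtain ⟨x7, y7, z7⟩ := lab0 (a7.trans rfl)
  obtain ⟨x8, y8, z8⟩ := lab0 (a8.trans rfl)
  obtain ⟨x9, y9, z9⟩ := lab0 (a9.trans rfl)
  have sD := h.toTr.s10
  have sE := h.toTr.rot.s10
  have sG := h.toTr.rot.rot.s10
  have pd := h.pos
  have v1 := dvd10 h.s1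
  have v2 := dvd10 h.s2
  simp only [x0, x1, x2, x3, x4, x5, x7, x8, x9, y0, y1, y3, y4, y5, y6, y7, y8, y9, z1, z2, z3, z4, z5, z6, z7, z8, z9, sub_zero, zero_sub, add_zero, zero_add, mul_zero, sub_self] at sD sE sG v1 v2
  clear hl a0 a1 a2 a3 a4 a5 a6 a7 a8 a9
  clear x0 x1 x2 x3 x4 x5 x7 x8 x9 y0 y1 y3 y4 y5 y6 y7 y8 y9 z1 z2 z3 z4 z5 z6 z7 z8 z9
  exfalso
  omega

lemma cas_1059 (h : H10 D E G d)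
    (hl : ∀ i : ℕ, i < 10 → lab D E G (i : ZMod 10) = dg 1059 i) : Con10 D E G := by
  have hk : d ≤ 3 := h.rh10 hl
  obtain ⟨a0, a1, a2, a3, a4, a5, a6, a7, a8, a9⟩ := hl10 hl
  obtain ⟨x0, y0, z0⟩ := h.toTr.m10lab3 (a0.trans rfl)
  obtain ⟨x1, y1, z1⟩ := lab0 (a1.trans rfl)
  obtain ⟨x2, y2, z2⟩ := h.toTr.m10lab2 (a2.trans rfl)
  obtain ⟨x3, y3, z3⟩ := lab0 (a3.trans rfl)
  obtain ⟨x4, y4, z4⟩ := lab0 (a4.trans rfl)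
  obtain ⟨x5, y5, z5⟩ := h.toTr.m10lab1 (a5.trans rfl)
  obtain ⟨x6, y6, z6⟩ := lab0 (a6.trans rfl)
  obtain ⟨x7, y7, z7⟩ := lab0 (a7.trans rfl)
  obtain ⟨x8, y8, z8⟩ := lab0 (a8.trans rfl)
  obtain ⟨x9, y9, z9⟩ := lab0 (a9.trans rfl)
  have sD := h.toTr.s10
  have sE := h.toTr.rot.s10
  have sG := h.toTr.rot.rot.s10
  have pd := h.pos
  have v1 := dvd10 h.s1
  have v2 := dvd10 h.s2
  simp only [x0, x1, x2, x3, x4, x6, x7, x8, x9, y0, y1, y3, y4, y5, y6, y7, y8, y9, z1, z2, z3, z4, z5, z6, z7, z8, z9, sub_zero, zero_sub, add_zero, zero_add, mul_zero, sub_self] at sD sE sG v1 v2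
  clear hl a0 a1 a2 a3 a4 a5 a6 a7 a8 a9
  clear x0 x1 x2 x3 x4 x6 x7 x8 x9 y0 y1 y3 y4 y5 y6 y7 y8 y9 z1 z2 z3 z4 z5 z6 z7 z8 z9
  exfalso
  omega

lemma cas_33827 (h : H10 D E G d)
    (hl : ∀ i : ℕ, i < 10 → lab D E G (i : ZMod 10) = dg 33827 i) : Con10 D E G := by
  have hk : d ≤ 4 := h.rh10 hl
  obtain ⟨a0, a1, a2, a3, a4, a5, a6, a7, a8, a9⟩ := hl10 hl
  obtain ⟨x0, y0, z0⟩ := h.toTr.m10lab3 (a0.trans rfl)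
  obtain ⟨x1, y1, z1⟩ := lab0 (a1.trans rfl)
  obtain ⟨x2, y2, z2⟩ := h.toTr.m10lab2 (a2.trans rfl)
  obtain ⟨x3, y3, z3⟩ := lab0 (a3.trans rfl)
  obtain ⟨x4, y4, z4⟩ := lab0 (a4.trans rfl)
  obtain ⟨x5, y5, z5⟩ := h.toTr.m10lab1 (a5.trans rfl)
  obtain ⟨x6, y6, z6⟩ := lab0 (a6.trans rfl)
  obtain ⟨x7, y7, z7⟩ := h.toTr.m10lab2 (a7.trans rfl)
  obtain ⟨x8, y8, z8⟩ := lab0 (a8.trans rfl)
  obtain ⟨x9, y9, z9⟩ := lab0 (a9.trans rfl)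
  have sD := h.toTr.s10
  have sE := h.toTr.rot.s10
  have sG := h.toTr.rot.rot.s10
  have pd := h.pos
  have v1 := dvd10 h.s1
  have v2 := dvd10 h.s2
  have r1 : (G 1 - D 1) + (G 3 - D 3) = (G 6 - D 6) + (G 8 - D 8) :=
    h.re 2 7 (nz10 y2) (nz10 y7) 1
  have r2 : (G 0 - D 0) + (G 4 - D 4) = (G 5 - D 5) + (G 9 - D 9) :=
    h.re 2 7 (nz10 y2) (nz10 y7) 2
  have r3 : (G 9 - D 9) + (G 5 - D 5) = (G 4 - D 4) + (G 0 - D 0) :=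
    h.re 2 7 (nz10 y2) (nz10 y7) 3
  have r4 : (G 8 - D 8) + (G 6 - D 6) = (G 3 - D 3) + (G 1 - D 1) :=
    h.re 2 7 (nz10 y2) (nz10 y7) 4
  have r5 : (G 7 - D 7) + (G 7 - D 7) = (G 2 - D 2) + (G 2 - D 2) :=
    h.re 2 7 (nz10 y2) (nz10 y7) 5
  simp only [x0, x1, x2, x3, x4, x6, x7, x8, x9, y0, y1, y3, y4, y5, y6, y8, y9, z1, z2, z3, z4, z5, z6, z7, z8, z9, sub_zero, zero_sub, add_zero, zero_add, mul_zero, sub_self] at sD sE sG v1 v2 r1 r2 r3 r4 r5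
  clear hl a0 a1 a2 a3 a4 a5 a6 a7 a8 a9
  clear x0 x1 x2 x3 x4 x6 x7 x8 x9 y0 y1 y3 y4 y5 y6 y8 y9 z1 z2 z3 z4 z5 z6 z7 z8 z9
  exfalso
  omega

lemma cas_19491 (h : H10 D E G d)
    (hl : ∀ i : ℕ, i < 10 → lab D E G (i : ZMod 10) = dg 19491 i) : Con10 D E G := by
  have hk : d ≤ 4 := h.rh10 hl
  obtain ⟨a0, a1, a2, a3, a4, a5, a6, a7, a8, a9⟩ := hl10 hl
  obtain ⟨x0, y0, z0⟩ := h.toTr.m10lab3 (a0.trans rfl)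
  obtain ⟨x1, y1, z1⟩ := lab0 (a1.trans rfl)
  obtain ⟨x2, y2, z2⟩ := h.toTr.m10lab2 (a2.trans rfl)
  obtain ⟨x3, y3, z3⟩ := lab0 (a3.trans rfl)
  obtain ⟨x4, y4, z4⟩ := lab0 (a4.trans rfl)
  obtain ⟨x5, y5, z5⟩ := h.toTr.m10lab3 (a5.trans rfl)
  obtain ⟨x6, y6, z6⟩ := lab0 (a6.trans rfl)
  obtain ⟨x7, y7, z7⟩ := h.toTr.m10lab1 (a7.trans rfl)
  obtain ⟨x8, y8, z8⟩ := lab0 (a8.trans rfl)
  obtain ⟨x9, y9, z9⟩ := lab0 (a9.trans rfl)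
  have sD := h.toTr.s10
  have sE := h.toTr.rot.s10
  have sG := h.toTr.rot.rot.s10
  have pd := h.pos
  have v1 := dvd10 h.s1
  have v2 := dvd10 h.s2
  have r1 : (D 9 - E 9) + (D 1 - E 1) = (D 4 - E 4) + (D 6 - E 6) :=
    h.rg 0 5 (nz10 z0) (nz10 z5) 1
  have r2 : (D 8 - E 8) + (D 2 - E 2) = (D 3 - E 3) + (D 7 - E 7) :=
    h.rg 0 5 (nz10 z0) (nz10 z5) 2
  have r3 : (D 7 - E 7) + (D 3 - E 3) = (D 2 - E 2) + (D 8 - E 8) :=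
    h.rg 0 5 (nz10 z0) (nz10 z5) 3
  have r4 : (D 6 - E 6) + (D 4 - E 4) = (D 1 - E 1) + (D 9 - E 9) :=
    h.rg 0 5 (nz10 z0) (nz10 z5) 4
  have r5 : (D 5 - E 5) + (D 5 - E 5) = (D 0 - E 0) + (D 0 - E 0) :=
    h.rg 0 5 (nz10 z0) (nz10 z5) 5
  simp only [x0, x1, x2, x3, x4, x5, x6, x8, x9, y0, y1, y3, y4, y5, y6, y7, y8, y9, z1, z2, z3, z4, z6, z7, z8, z9, sub_zero, zero_sub, add_zero, zero_add, mul_zero, sub_self] at sD sE sG v1 v2 r1 r2 r3 r4 r5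
  clear hl a0 a1 a2 a3 a4 a5 a6 a7 a8 a9
  clear x0 x1 x2 x3 x4 x5 x6 x8 x9 y0 y1 y3 y4 y5 y6 y7 y8 y9 z1 z2 z3 z4 z6 z7 z8 z9
  exfalso
  omega

lemma cas_291 (h : H10 D E G d)
    (hl : ∀ i : ℕ, i < 10 → lab D E G (i : ZMod 10) = dg 291 i) : Con10 D E G := by
  have hk : d ≤ 3 := h.rh10 hl
  obtain ⟨a0, a1, a2, a3, a4, a5, a6, a7, a8, a9⟩ := hl10 hl
  obtain ⟨x0, y0, z0⟩ := h.toTr.m10lab3 (a0.trans rfl)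
  obtain ⟨x1, y1, z1⟩ := lab0 (a1.trans rfl)
  obtain ⟨x2, y2, z2⟩ := h.toTr.m10lab2 (a2.trans rfl)
  obtain ⟨x3, y3, z3⟩ := lab0 (a3.trans rfl)
  obtain ⟨x4, y4, z4⟩ := h.toTr.m10lab1 (a4.trans rfl)
  obtain ⟨x5, y5, z5⟩ := lab0 (a5.trans rfl)
  obtain ⟨x6, y6, z6⟩ := lab0 (a6.trans rfl)
  obtain ⟨x7, y7, z7⟩ := lab0 (a7.trans rfl)
  obtain ⟨x8, y8, z8⟩ := lab0 (a8.trans rfl)
  obtain ⟨x9, y9, z9⟩ := lab0 (a9.trans rfl)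
  have sD := h.toTr.s10
  have sE := h.toTr.rot.s10
  have sG := h.toTr.rot.rot.s10
  have pd := h.pos
  have v1 := dvd10 h.s1
  have v2 := dvd10 h.s2
  simp only [x0, x1, x2, x3, x5, x6, x7, x8, x9, y0, y1, y3, y4, y5, y6, y7, y8, y9, z1, z2, z3, z4, z5, z6, z7, z8, z9, sub_zero, zero_sub, add_zero, zero_add, mul_zero, sub_self] at sD sE sG v1 v2
  clear hl a0 a1 a2 a3 a4 a5 a6 a7 a8 a9
  clear x0 x1 x2 x3 x5 x6 x7 x8 x9 y0 y1 y3 y4 y5 y6 y7 y8 y9 z1 z2 z3 z4 z5 z6 z7 z8 z9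
  exfalso
  omega

lemma cas_33059 (h : H10 D E G d)
    (hl : ∀ i : ℕ, i < 10 → lab D E G (i : ZMod 10) = dg 33059 i) : Con10 D E G := by
  have hk : d ≤ 4 := h.rh10 hl
  obtain ⟨a0, a1, a2, a3, a4, a5, a6, a7, a8, a9⟩ := hl10 hl
  obtain ⟨x0, y0, z0⟩ := h.toTr.m10lab3 (a0.trans rfl)
  obtain ⟨x1, y1, z1⟩ := lab0 (a1.trans rfl)
  obtain ⟨x2, y2, z2⟩ := h.toTr.m10lab2 (a2.trans rfl)
  obtain ⟨x3, y3, z3⟩ := lab0 (a3.trans rfl)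
  obtain ⟨x4, y4, z4⟩ := h.toTr.m10lab1 (a4.trans rfl)
  obtain ⟨x5, y5, z5⟩ := lab0 (a5.trans rfl)
  obtain ⟨x6, y6, z6⟩ := lab0 (a6.trans rfl)
  obtain ⟨x7, y7, z7⟩ := h.toTr.m10lab2 (a7.trans rfl)
  obtain ⟨x8, y8, z8⟩ := lab0 (a8.trans rfl)
  obtain ⟨x9, y9, z9⟩ := lab0 (a9.trans rfl)
  have sD := h.toTr.s10
  have sE := h.toTr.rot.s10
  have sG := h.toTr.rot.rot.s10
  have pd := h.pos
  have v1 := dvd10 h.s1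
  have v2 := dvd10 h.s2
  have r1 : (G 1 - D 1) + (G 3 - D 3) = (G 6 - D 6) + (G 8 - D 8) :=
    h.re 2 7 (nz10 y2) (nz10 y7) 1
  have r2 : (G 0 - D 0) + (G 4 - D 4) = (G 5 - D 5) + (G 9 - D 9) :=
    h.re 2 7 (nz10 y2) (nz10 y7) 2
  have r3 : (G 9 - D 9) + (G 5 - D 5) = (G 4 - D 4) + (G 0 - D 0) :=
    h.re 2 7 (nz10 y2) (nz10 y7) 3
  have r4 : (G 8 - D 8) + (G 6 - D 6) = (G 3 - D 3) + (G 1 - D 1) :=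
    h.re 2 7 (nz10 y2) (nz10 y7) 4
  have r5 : (G 7 - D 7) + (G 7 - D 7) = (G 2 - D 2) + (G 2 - D 2) :=
    h.re 2 7 (nz10 y2) (nz10 y7) 5
  simp only [x0, x1, x2, x3, x5, x6, x7, x8, x9, y0, y1, y3, y4, y5, y6, y8, y9, z1, z2, z3, z4, z5, z6, z7, z8, z9, sub_zero, zero_sub, add_zero, zero_add, mul_zero, sub_self] at sD sE sG v1 v2 r1 r2 r3 r4 r5
  clear hl a0 a1 a2 a3 a4 a5 a6 a7 a8 a9
  clear x0 x1 x2 x3 x5 x6 x7 x8 x9 y0 y1 y3 y4 y5 y6 y8 y9 z1 z2 z3 z4 z5 z6 z7 z8 z9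
  exfalso
  omega

lemma cas_17187 (h : H10 D E G d)
    (hl : ∀ i : ℕ, i < 10 → lab D E G (i : ZMod 10) = dg 17187 i) : Con10 D E G := by
  have hk : d ≤ 4 := h.rh10 hl
  obtain ⟨a0, a1, a2, a3, a4, a5, a6, a7, a8, a9⟩ := hl10 hl
  obtain ⟨x0, y0, z0⟩ := h.toTr.m10lab3 (a0.trans rfl)
  obtain ⟨x1, y1, z1⟩ := lab0 (a1.trans rfl)
  obtain ⟨x2, y2, z2⟩ := h.toTr.m10lab2 (a2.trans rfl)
  obtain ⟨x3, y3, z3⟩ := lab0 (a3.trans rfl)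
  obtain ⟨x4, y4, z4⟩ := h.toTr.m10lab3 (a4.trans rfl)
  obtain ⟨x5, y5, z5⟩ := lab0 (a5.trans rfl)
  obtain ⟨x6, y6, z6⟩ := lab0 (a6.trans rfl)
  obtain ⟨x7, y7, z7⟩ := h.toTr.m10lab1 (a7.trans rfl)
  obtain ⟨x8, y8, z8⟩ := lab0 (a8.trans rfl)
  obtain ⟨x9, y9, z9⟩ := lab0 (a9.trans rfl)
  have sD := h.toTr.s10
  have sE := h.toTr.rot.s10
  have sG := h.toTr.rot.rot.s10
  have pd := h.pos
  have v1 := dvd10 h.s1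
  have v2 := dvd10 h.s2
  have r1 : (D 9 - E 9) + (D 1 - E 1) = (D 3 - E 3) + (D 5 - E 5) :=
    h.rg 0 4 (nz10 z0) (nz10 z4) 1
  have r2 : (D 8 - E 8) + (D 2 - E 2) = (D 2 - E 2) + (D 6 - E 6) :=
    h.rg 0 4 (nz10 z0) (nz10 z4) 2
  have r3 : (D 7 - E 7) + (D 3 - E 3) = (D 1 - E 1) + (D 7 - E 7) :=
    h.rg 0 4 (nz10 z0) (nz10 z4) 3
  have r4 : (D 6 - E 6) + (D 4 - E 4) = (D 0 - E 0) + (D 8 - E 8) :=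
    h.rg 0 4 (nz10 z0) (nz10 z4) 4
  have r5 : (D 5 - E 5) + (D 5 - E 5) = (D 9 - E 9) + (D 9 - E 9) :=
    h.rg 0 4 (nz10 z0) (nz10 z4) 5
  simp only [x0, x1, x2, x3, x4, x5, x6, x8, x9, y0, y1, y3, y4, y5, y6, y7, y8, y9, z1, z2, z3, z5, z6, z7, z8, z9, sub_zero, zero_sub, add_zero, zero_add, mul_zero, sub_self] at sD sE sG v1 v2 r1 r2 r3 r4 r5
  clear hl a0 a1 a2 a3 a4 a5 a6 a7 a8 a9
  have kD7 : D 7 = (G 4) * 2 := by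
    clear x0 x1 x2 x3 x4 x5 x6 x8 x9 y0 y1 y3 y4 y5 y6 y7 y8 y9 z1 z2 z3 z5 z6 z7 z8 z9
    omega
  have kE2 : E 2 = (G 4) * 2 := by
    clear x0 x1 x2 x3 x4 x5 x6 x8 x9 y0 y1 y3 y4 y5 y6 y7 y8 y9 z1 z2 z3 z5 z6 z7 z8 z9
    omega
  have kG0 : G 0 = (G 4) * 1 := by
    clear x0 x1 x2 x3 x4 x5 x6 x8 x9 y0 y1 y3 y4 y5 y6 y7 y8 y9 z1 z2 z3 z5 z6 z7 z8 z9
    omega
  have kG4 : G 4 = (G 4) * 1 := by
    clear x0 x1 x2 x3 x4 x5 x6 x8 x9 y0 y1 y3 y4 y5 y6 y7 y8 y9 z1 z2 z3 z5 z6 z7 z8 z9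
    omega
  refine Or.inl ⟨4, 7, 4, 2, (G 4), by linarith, all10 ?_ ?_ ?_ ?_ ?_ ?_ ?_ ?_ ?_ ?_,
    all10 ?_ ?_ ?_ ?_ ?_ ?_ ?_ ?_ ?_ ?_, all10 ?_ ?_ ?_ ?_ ?_ ?_ ?_ ?_ ?_ ?_⟩
  · show D 0 = (G 4) * 0
    rw [mul_zero]; exact x0
  · show D 1 = (G 4) * 0
    rw [mul_zero]; exact x1
  · show D 2 = (G 4) * 0
    rw [mul_zero]; exact x2
  · show D 3 = (G 4) * 0
    rw [mul_zero]; exact x3
  · show D 4 = (G 4) * 0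
    rw [mul_zero]; exact x4
  · show D 5 = (G 4) * 0
    rw [mul_zero]; exact x5
  · show D 6 = (G 4) * 0
    rw [mul_zero]; exact x6
  · exact kD7
  · show D 8 = (G 4) * 0
    rw [mul_zero]; exact x8
  · show D 9 = (G 4) * 0
    rw [mul_zero]; exact x9
  · show E 0 = (G 4) * 0
    rw [mul_zero]; exact y0
  · show E 1 = (G 4) * 0
    rw [mul_zero]; exact y1
  · exact kE2
  · show E 3 = (G 4) * 0
    rw [mul_zero]; exact y3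
  · show E 4 = (G 4) * 0
    rw [mul_zero]; exact y4
  · show E 5 = (G 4) * 0
    rw [mul_zero]; exact y5
  · show E 6 = (G 4) * 0
    rw [mul_zero]; exact y6
  · show E 7 = (G 4) * 0
    rw [mul_zero]; exact y7
  · show E 8 = (G 4) * 0
    rw [mul_zero]; exact y8
  · show E 9 = (G 4) * 0
    rw [mul_zero]; exact y9
  · exact kG0
  · show G 1 = (G 4) * 0
    rw [mul_zero]; exact z1
  · show G 2 = (G 4) * 0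
    rw [mul_zero]; exact z2
  · show G 3 = (G 4) * 0
    rw [mul_zero]; exact z3
  · exact kG4
  · show G 5 = (G 4) * 0
    rw [mul_zero]; exact z5
  · show G 6 = (G 4) * 0
    rw [mul_zero]; exact z6
  · show G 7 = (G 4) * 0
    rw [mul_zero]; exact z7
  · show G 8 = (G 4) * 0
    rw [mul_zero]; exact z8
  · show G 9 = (G 4) * 0
    rw [mul_zero]; exact z9

lemma cas_135731 (h : H10 D E G d)
    (hl : ∀ i : ℕ, i < 10 → lab D E G (i : ZMod 10) = dg 135731 i) : Con10 D E G := by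
  have hk : d ≤ 5 := h.rh10 hl
  obtain ⟨a0, a1, a2, a3, a4, a5, a6, a7, a8, a9⟩ := hl10 hl
  obtain ⟨x0, y0, z0⟩ := h.toTr.m10lab3 (a0.trans rfl)
  obtain ⟨x1, y1, z1⟩ := lab0 (a1.trans rfl)
  obtain ⟨x2, y2, z2⟩ := h.toTr.m10lab3 (a2.trans rfl)
  obtain ⟨x3, y3, z3⟩ := lab0 (a3.trans rfl)
  obtain ⟨x4, y4, z4⟩ := h.toTr.m10lab2 (a4.trans rfl)
  obtain ⟨x5, y5, z5⟩ := lab0 (a5.trans rfl)
  obtain ⟨x6, y6, z6⟩ := h.toTr.m10lab1 (a6.trans rfl)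
  obtain ⟨x7, y7, z7⟩ := lab0 (a7.trans rfl)
  obtain ⟨x8, y8, z8⟩ := h.toTr.m10lab2 (a8.trans rfl)
  obtain ⟨x9, y9, z9⟩ := lab0 (a9.trans rfl)
  have sD := h.toTr.s10
  have sE := h.toTr.rot.s10
  have sG := h.toTr.rot.rot.s10
  have pd := h.pos
  have v1 := dvd10 h.s1
  have v2 := dvd10 h.s2
  have r1 : (G 3 - D 3) + (G 5 - D 5) = (G 7 - D 7) + (G 9 - D 9) :=
    h.re 4 8 (nz10 y4) (nz10 y8) 1
  have r2 : (G 2 - D 2) + (G 6 - D 6) = (G 6 - D 6) + (G 0 - D 0) :=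
    h.re 4 8 (nz10 y4) (nz10 y8) 2
  have r3 : (G 1 - D 1) + (G 7 - D 7) = (G 5 - D 5) + (G 1 - D 1) :=
    h.re 4 8 (nz10 y4) (nz10 y8) 3
  have r4 : (G 0 - D 0) + (G 8 - D 8) = (G 4 - D 4) + (G 2 - D 2) :=
    h.re 4 8 (nz10 y4) (nz10 y8) 4
  have r5 : (G 9 - D 9) + (G 9 - D 9) = (G 3 - D 3) + (G 3 - D 3) :=
    h.re 4 8 (nz10 y4) (nz10 y8) 5
  have r6 : (D 9 - E 9) + (D 1 - E 1) = (D 1 - E 1) + (D 3 - E 3) :=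
    h.rg 0 2 (nz10 z0) (nz10 z2) 1
  have r7 : (D 8 - E 8) + (D 2 - E 2) = (D 0 - E 0) + (D 4 - E 4) :=
    h.rg 0 2 (nz10 z0) (nz10 z2) 2
  have r8 : (D 7 - E 7) + (D 3 - E 3) = (D 9 - E 9) + (D 5 - E 5) :=
    h.rg 0 2 (nz10 z0) (nz10 z2) 3
  have r9 : (D 6 - E 6) + (D 4 - E 4) = (D 8 - E 8) + (D 6 - E 6) :=
    h.rg 0 2 (nz10 z0) (nz10 z2) 4
  have r10 : (D 5 - E 5) + (D 5 - E 5) = (D 7 - E 7) + (D 7 - E 7) :=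
    h.rg 0 2 (nz10 z0) (nz10 z2) 5
  simp only [x0, x1, x2, x3, x4, x5, x7, x8, x9, y0, y1, y2, y3, y5, y6, y7, y9, z1, z3, z4, z5, z6, z7, z8, z9, sub_zero, zero_sub, add_zero, zero_add, mul_zero, sub_self] at sD sE sG v1 v2 r1 r2 r3 r4 r5 r6 r7 r8 r9 r10
  clear hl a0 a1 a2 a3 a4 a5 a6 a7 a8 a9
  have kD6 : D 6 = (E 8) * 2 := by
    clear x0 x1 x2 x3 x4 x5 x7 x8 x9 y0 y1 y2 y3 y5 y6 y7 y9 z1 z3 z4 z5 z6 z7 z8 z9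
    omega
  have kE4 : E 4 = (E 8) * 1 := by
    clear x0 x1 x2 x3 x4 x5 x7 x8 x9 y0 y1 y2 y3 y5 y6 y7 y9 z1 z3 z4 z5 z6 z7 z8 z9
    omega
  have kE8 : E 8 = (E 8) * 1 := by
    clear x0 x1 x2 x3 x4 x5 x7 x8 x9 y0 y1 y2 y3 y5 y6 y7 y9 z1 z3 z4 z5 z6 z7 z8 z9
    omega
  have kG0 : G 0 = (E 8) * 1 := by
    clear x0 x1 x2 x3 x4 x5 x7 x8 x9 y0 y1 y2 y3 y5 y6 y7 y9 z1 z3 z4 z5 z6 z7 z8 z9
    omega
  have kG2 : G 2 = (E 8) * 1 := by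
    clear x0 x1 x2 x3 x4 x5 x7 x8 x9 y0 y1 y2 y3 y5 y6 y7 y9 z1 z3 z4 z5 z6 z7 z8 z9
    omega
  refine Or.inl ⟨2, 6, 2, 8, (E 8), by linarith, all10 ?_ ?_ ?_ ?_ ?_ ?_ ?_ ?_ ?_ ?_,
    all10 ?_ ?_ ?_ ?_ ?_ ?_ ?_ ?_ ?_ ?_, all10 ?_ ?_ ?_ ?_ ?_ ?_ ?_ ?_ ?_ ?_⟩
  · show D 0 = (E 8) * 0
    rw [mul_zero]; exact x0
  · show D 1 = (E 8) * 0
    rw [mul_zero]; exact x1
  · show D 2 = (E 8) * 0
    rw [mul_zero]; exact x2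
  · show D 3 = (E 8) * 0
    rw [mul_zero]; exact x3
  · show D 4 = (E 8) * 0
    rw [mul_zero]; exact x4
  · show D 5 = (E 8) * 0
    rw [mul_zero]; exact x5
  · exact kD6
  · show D 7 = (E 8) * 0
    rw [mul_zero]; exact x7
  · show D 8 = (E 8) * 0
    rw [mul_zero]; exact x8
  · show D 9 = (E 8) * 0
    rw [mul_zero]; exact x9
  · show E 0 = (E 8) * 0
    rw [mul_zero]; exact y0
  · show E 1 = (E 8) * 0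
    rw [mul_zero]; exact y1
  · show E 2 = (E 8) * 0
    rw [mul_zero]; exact y2
  · show E 3 = (E 8) * 0
    rw [mul_zero]; exact y3
  · exact kE4
  · show E 5 = (E 8) * 0
    rw [mul_zero]; exact y5
  · show E 6 = (E 8) * 0
    rw [mul_zero]; exact y6
  · show E 7 = (E 8) * 0
    rw [mul_zero]; exact y7
  · exact kE8
  · show E 9 = (E 8) * 0
    rw [mul_zero]; exact y9
  · exact kG0
  · show G 1 = (E 8) * 0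
    rw [mul_zero]; exact z1
  · exact kG2
  · show G 3 = (E 8) * 0
    rw [mul_zero]; exact z3
  · show G 4 = (E 8) * 0
    rw [mul_zero]; exact z4
  · show G 5 = (E 8) * 0
    rw [mul_zero]; exact z5
  · show G 6 = (E 8) * 0
    rw [mul_zero]; exact z6
  · show G 7 = (E 8) * 0
    rw [mul_zero]; exact z7
  · show G 8 = (E 8) * 0
    rw [mul_zero]; exact z8
  · show G 9 = (E 8) * 0
    rw [mul_zero]; exact z9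

lemma cas_65547 (h : H10 D E G d)
    (hl : ∀ i : ℕ, i < 10 → lab D E G (i : ZMod 10) = dg 65547 i) : Con10 D E G := by
  have hk : d ≤ 3 := h.rh10 hl
  obtain ⟨a0, a1, a2, a3, a4, a5, a6, a7, a8, a9⟩ := hl10 hl
  obtain ⟨x0, y0, z0⟩ := h.toTr.m10lab3 (a0.trans rfl)
  obtain ⟨x1, y1, z1⟩ := h.toTr.m10lab2 (a1.trans rfl)
  obtain ⟨x2, y2, z2⟩ := lab0 (a2.trans rfl)
  obtain ⟨x3, y3, z3⟩ := lab0 (a3.trans rfl)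
  obtain ⟨x4, y4, z4⟩ := lab0 (a4.trans rfl)
  obtain ⟨x5, y5, z5⟩ := lab0 (a5.trans rfl)
  obtain ⟨x6, y6, z6⟩ := lab0 (a6.trans rfl)
  obtain ⟨x7, y7, z7⟩ := lab0 (a7.trans rfl)
  obtain ⟨x8, y8, z8⟩ := h.toTr.m10lab1 (a8.trans rfl)
  obtain ⟨x9, y9, z9⟩ := lab0 (a9.trans rfl)
  have sD := h.toTr.s10
  have sE := h.toTr.rot.s10
  have sG := h.toTr.rot.rot.s10
  have pd := h.pos
  have v1 := dvd10 h.s1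
  have v2 := dvd10 h.s2
  simp only [x0, x1, x2, x3, x4, x5, x6, x7, x9, y0, y2, y3, y4, y5, y6, y7, y8, y9, z1, z2, z3, z4, z5, z6, z7, z8, z9, sub_zero, zero_sub, add_zero, zero_add, mul_zero, sub_self] at sD sE sG v1 v2
  clear hl a0 a1 a2 a3 a4 a5 a6 a7 a8 a9
  clear x0 x1 x2 x3 x4 x5 x6 x7 x9 y0 y2 y3 y4 y5 y6 y7 y8 y9 z1 z2 z3 z4 z5 z6 z7 z8 z9
  exfalso
  omega

lemma cas_16395 (h : H10 D E G d)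
    (hl : ∀ i : ℕ, i < 10 → lab D E G (i : ZMod 10) = dg 16395 i) : Con10 D E G := by
  have hk : d ≤ 3 := h.rh10 hl
  obtain ⟨a0, a1, a2, a3, a4, a5, a6, a7, a8, a9⟩ := hl10 hl
  obtain ⟨x0, y0, z0⟩ := h.toTr.m10lab3 (a0.trans rfl)
  obtain ⟨x1, y1, z1⟩ := h.toTr.m10lab2 (a1.trans rfl)
  obtain ⟨x2, y2, z2⟩ := lab0 (a2.trans rfl)
  obtain ⟨x3, y3, z3⟩ := lab0 (a3.trans rfl)
  obtain ⟨x4, y4, z4⟩ := lab0 (a4.trans rfl)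
  obtain ⟨x5, y5, z5⟩ := lab0 (a5.trans rfl)
  obtain ⟨x6, y6, z6⟩ := lab0 (a6.trans rfl)
  obtain ⟨x7, y7, z7⟩ := h.toTr.m10lab1 (a7.trans rfl)
  obtain ⟨x8, y8, z8⟩ := lab0 (a8.trans rfl)
  obtain ⟨x9, y9, z9⟩ := lab0 (a9.trans rfl)
  have sD := h.toTr.s10
  have sE := h.toTr.rot.s10
  have sG := h.toTr.rot.rot.s10
  have pd := h.pos
  have v1 := dvd10 h.s1
  have v2 := dvd10 h.s2
  simp only [x0, x1, x2, x3, x4, x5, x6, x8, x9, y0, y2, y3, y4, y5, y6, y7, y8, y9, z1, z2, z3, z4, z5, z6, z7, z8, z9, sub_zero, zero_sub, add_zero, zero_add, mul_zero, sub_self] at sD sE sG v1 v2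
  clear hl a0 a1 a2 a3 a4 a5 a6 a7 a8 a9
  clear x0 x1 x2 x3 x4 x5 x6 x8 x9 y0 y2 y3 y4 y5 y6 y7 y8 y9 z1 z2 z3 z4 z5 z6 z7 z8 z9
  exfalso
  omega

lemma cas_4107 (h : H10 D E G d)
    (hl : ∀ i : ℕ, i < 10 → lab D E G (i : ZMod 10) = dg 4107 i) : Con10 D E G := by
  have hk : d ≤ 3 := h.rh10 hl
  obtain ⟨a0, a1, a2, a3, a4, a5, a6, a7, a8, a9⟩ := hl10 hl
  obtain ⟨x0, y0, z0⟩ := h.toTr.m10lab3 (a0.trans rfl)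
  obtain ⟨x1, y1, z1⟩ := h.toTr.m10lab2 (a1.trans rfl)
  obtain ⟨x2, y2, z2⟩ := lab0 (a2.trans rfl)
  obtain ⟨x3, y3, z3⟩ := lab0 (a3.trans rfl)
  obtain ⟨x4, y4, z4⟩ := lab0 (a4.trans rfl)
  obtain ⟨x5, y5, z5⟩ := lab0 (a5.trans rfl)
  obtain ⟨x6, y6, z6⟩ := h.toTr.m10lab1 (a6.trans rfl)
  obtain ⟨x7, y7, z7⟩ := lab0 (a7.trans rfl)
  obtain ⟨x8, y8, z8⟩ := lab0 (a8.trans rfl)
  obtain ⟨x9, y9, z9⟩ := lab0 (a9.trans rfl)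
  have sD := h.toTr.s10
  have sE := h.toTr.rot.s10
  have sG := h.toTr.rot.rot.s10
  have pd := h.pos
  have v1 := dvd10 h.s1
  have v2 := dvd10 h.s2
  simp only [x0, x1, x2, x3, x4, x5, x7, x8, x9, y0, y2, y3, y4, y5, y6, y7, y8, y9, z1, z2, z3, z4, z5, z6, z7, z8, z9, sub_zero, zero_sub, add_zero, zero_add, mul_zero, sub_self] at sD sE sG v1 v2
  clear hl a0 a1 a2 a3 a4 a5 a6 a7 a8 a9
  clear x0 x1 x2 x3 x4 x5 x7 x8 x9 y0 y2 y3 y4 y5 y6 y7 y8 y9 z1 z2 z3 z4 z5 z6 z7 z8 z9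
  exfalso
  omega

lemma cas_73739 (h : H10 D E G d)
    (hl : ∀ i : ℕ, i < 10 → lab D E G (i : ZMod 10) = dg 73739 i) : Con10 D E G := by
  have hk : d ≤ 4 := h.rh10 hl
  obtain ⟨a0, a1, a2, a3, a4, a5, a6, a7, a8, a9⟩ := hl10 hl
  obtain ⟨x0, y0, z0⟩ := h.toTr.m10lab3 (a0.trans rfl)
  obtain ⟨x1, y1, z1⟩ := h.toTr.m10lab2 (a1.trans rfl)
  obtain ⟨x2, y2, z2⟩ := lab0 (a2.trans rfl)
  obtain ⟨x3, y3, z3⟩ := lab0 (a3.trans rfl)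
  obtain ⟨x4, y4, z4⟩ := lab0 (a4.trans rfl)
  obtain ⟨x5, y5, z5⟩ := lab0 (a5.trans rfl)
  obtain ⟨x6, y6, z6⟩ := h.toTr.m10lab2 (a6.trans rfl)
  obtain ⟨x7, y7, z7⟩ := lab0 (a7.trans rfl)
  obtain ⟨x8, y8, z8⟩ := h.toTr.m10lab1 (a8.trans rfl)
  obtain ⟨x9, y9, z9⟩ := lab0 (a9.trans rfl)
  have sD := h.toTr.s10
  have sE := h.toTr.rot.s10
  have sG := h.toTr.rot.rot.s10
  have pd := h.pos
  have v1 := dvd10 h.s1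
  have v2 := dvd10 h.s2
  have r1 : (G 0 - D 0) + (G 2 - D 2) = (G 5 - D 5) + (G 7 - D 7) :=
    h.re 1 6 (nz10 y1) (nz10 y6) 1
  have r2 : (G 9 - D 9) + (G 3 - D 3) = (G 4 - D 4) + (G 8 - D 8) :=
    h.re 1 6 (nz10 y1) (nz10 y6) 2
  have r3 : (G 8 - D 8) + (G 4 - D 4) = (G 3 - D 3) + (G 9 - D 9) :=
    h.re 1 6 (nz10 y1) (nz10 y6) 3
  have r4 : (G 7 - D 7) + (G 5 - D 5) = (G 2 - D 2) + (G 0 - D 0) :=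
    h.re 1 6 (nz10 y1) (nz10 y6) 4
  have r5 : (G 6 - D 6) + (G 6 - D 6) = (G 1 - D 1) + (G 1 - D 1) :=
    h.re 1 6 (nz10 y1) (nz10 y6) 5
  simp only [x0, x1, x2, x3, x4, x5, x6, x7, x9, y0, y2, y3, y4, y5, y7, y8, y9, z1, z2, z3, z4, z5, z6, z7, z8, z9, sub_zero, zero_sub, add_zero, zero_add, mul_zero, sub_self] at sD sE sG v1 v2 r1 r2 r3 r4 r5
  clear hl a0 a1 a2 a3 a4 a5 a6 a7 a8 a9
  clear x0 x1 x2 x3 x4 x5 x6 x7 x9 y0 y2 y3 y4 y5 y7 y8 y9 z1 z2 z3 z4 z5 z6 z7 z8 z9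
  exfalso
  omega

lemma cas_1035 (h : H10 D E G d)
    (hl : ∀ i : ℕ, i < 10 → lab D E G (i : ZMod 10) = dg 1035 i) : Con10 D E G := by
  have hk : d ≤ 3 := h.rh10 hl
  obtain ⟨a0, a1, a2, a3, a4, a5, a6, a7, a8, a9⟩ := hl10 hl
  obtain ⟨x0, y0, z0⟩ := h.toTr.m10lab3 (a0.trans rfl)
  obtain ⟨x1, y1, z1⟩ := h.toTr.m10lab2 (a1.trans rfl)
  obtain ⟨x2, y2, z2⟩ := lab0 (a2.trans rfl)
  obtain ⟨x3, y3, z3⟩ := lab0 (a3.trans rfl)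
  obtain ⟨x4, y4, z4⟩ := lab0 (a4.trans rfl)
  obtain ⟨x5, y5, z5⟩ := h.toTr.m10lab1 (a5.trans rfl)
  obtain ⟨x6, y6, z6⟩ := lab0 (a6.trans rfl)
  obtain ⟨x7, y7, z7⟩ := lab0 (a7.trans rfl)
  obtain ⟨x8, y8, z8⟩ := lab0 (a8.trans rfl)
  obtain ⟨x9, y9, z9⟩ := lab0 (a9.trans rfl)
  have sD := h.toTr.s10
  have sE := h.toTr.rot.s10
  have sG := h.toTr.rot.rot.s10
  have pd := h.pos
  have v1 := dvd10 h.s1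
  have v2 := dvd10 h.s2
  simp only [x0, x1, x2, x3, x4, x6, x7, x8, x9, y0, y2, y3, y4, y5, y6, y7, y8, y9, z1, z2, z3, z4, z5, z6, z7, z8, z9, sub_zero, zero_sub, add_zero, zero_add, mul_zero, sub_self] at sD sE sG v1 v2
  clear hl a0 a1 a2 a3 a4 a5 a6 a7 a8 a9
  clear x0 x1 x2 x3 x4 x6 x7 x8 x9 y0 y2 y3 y4 y5 y6 y7 y8 y9 z1 z2 z3 z4 z5 z6 z7 z8 z9
  exfalso
  omega

lemma cas_9227 (h : H10 D E G d)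
    (hl : ∀ i : ℕ, i < 10 → lab D E G (i : ZMod 10) = dg 9227 i) : Con10 D E G := by
  have hk : d ≤ 4 := h.rh10 hl
  obtain ⟨a0, a1, a2, a3, a4, a5, a6, a7, a8, a9⟩ := hl10 hl
  obtain ⟨x0, y0, z0⟩ := h.toTr.m10lab3 (a0.trans rfl)
  obtain ⟨x1, y1, z1⟩ := h.toTr.m10lab2 (a1.trans rfl)
  obtain ⟨x2, y2, z2⟩ := lab0 (a2.trans rfl)
  obtain ⟨x3, y3, z3⟩ := lab0 (a3.trans rfl)
  obtain ⟨x4, y4, z4⟩ := lab0 (a4.trans rfl)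
  obtain ⟨x5, y5, z5⟩ := h.toTr.m10lab1 (a5.trans rfl)
  obtain ⟨x6, y6, z6⟩ := h.toTr.m10lab2 (a6.trans rfl)
  obtain ⟨x7, y7, z7⟩ := lab0 (a7.trans rfl)
  obtain ⟨x8, y8, z8⟩ := lab0 (a8.trans rfl)
  obtain ⟨x9, y9, z9⟩ := lab0 (a9.trans rfl)
  have sD := h.toTr.s10
  have sE := h.toTr.rot.s10
  have sG := h.toTr.rot.rot.s10
  have pd := h.pos
  have v1 := dvd10 h.s1
  have v2 := dvd10 h.s2
  have r1 : (G 0 - D 0) + (G 2 - D 2) = (G 5 - D 5) + (G 7 - D 7) :=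
    h.re 1 6 (nz10 y1) (nz10 y6) 1
  have r2 : (G 9 - D 9) + (G 3 - D 3) = (G 4 - D 4) + (G 8 - D 8) :=
    h.re 1 6 (nz10 y1) (nz10 y6) 2
  have r3 : (G 8 - D 8) + (G 4 - D 4) = (G 3 - D 3) + (G 9 - D 9) :=
    h.re 1 6 (nz10 y1) (nz10 y6) 3
  have r4 : (G 7 - D 7) + (G 5 - D 5) = (G 2 - D 2) + (G 0 - D 0) :=
    h.re 1 6 (nz10 y1) (nz10 y6) 4
  have r5 : (G 6 - D 6) + (G 6 - D 6) = (G 1 - D 1) + (G 1 - D 1) :=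
    h.re 1 6 (nz10 y1) (nz10 y6) 5
  simp only [x0, x1, x2, x3, x4, x6, x7, x8, x9, y0, y2, y3, y4, y5, y7, y8, y9, z1, z2, z3, z4, z5, z6, z7, z8, z9, sub_zero, zero_sub, add_zero, zero_add, mul_zero, sub_self] at sD sE sG v1 v2 r1 r2 r3 r4 r5
  clear hl a0 a1 a2 a3 a4 a5 a6 a7 a8 a9
  clear x0 x1 x2 x3 x4 x6 x7 x8 x9 y0 y2 y3 y4 y5 y7 y8 y9 z1 z2 z3 z4 z5 z6 z7 z8 z9
  exfalso
  omega

lemma cas_68619 (h : H10 D E G d)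
    (hl : ∀ i : ℕ, i < 10 → lab D E G (i : ZMod 10) = dg 68619 i) : Con10 D E G := by
  have hk : d ≤ 4 := h.rh10 hl
  obtain ⟨a0, a1, a2, a3, a4, a5, a6, a7, a8, a9⟩ := hl10 hl
  obtain ⟨x0, y0, z0⟩ := h.toTr.m10lab3 (a0.trans rfl)
  obtain ⟨x1, y1, z1⟩ := h.toTr.m10lab2 (a1.trans rfl)
  obtain ⟨x2, y2, z2⟩ := lab0 (a2.trans rfl)
  obtain ⟨x3, y3, z3⟩ := lab0 (a3.trans rfl)
  obtain ⟨x4, y4, z4⟩ := lab0 (a4.trans rfl)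
  obtain ⟨x5, y5, z5⟩ := h.toTr.m10lab3 (a5.trans rfl)
  obtain ⟨x6, y6, z6⟩ := lab0 (a6.trans rfl)
  obtain ⟨x7, y7, z7⟩ := lab0 (a7.trans rfl)
  obtain ⟨x8, y8, z8⟩ := h.toTr.m10lab1 (a8.trans rfl)
  obtain ⟨x9, y9, z9⟩ := lab0 (a9.trans rfl)
  have sD := h.toTr.s10
  have sE := h.toTr.rot.s10
  have sG := h.toTr.rot.rot.s10
  have pd := h.pos
  have v1 := dvd10 h.s1
  have v2 := dvd10 h.s2
  have r1 : (D 9 - E 9) + (D 1 - E 1) = (D 4 - E 4) + (D 6 - E 6) :=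
    h.rg 0 5 (nz10 z0) (nz10 z5) 1
  have r2 : (D 8 - E 8) + (D 2 - E 2) = (D 3 - E 3) + (D 7 - E 7) :=
    h.rg 0 5 (nz10 z0) (nz10 z5) 2
  have r3 : (D 7 - E 7) + (D 3 - E 3) = (D 2 - E 2) + (D 8 - E 8) :=
    h.rg 0 5 (nz10 z0) (nz10 z5) 3
  have r4 : (D 6 - E 6) + (D 4 - E 4) = (D 1 - E 1) + (D 9 - E 9) :=
    h.rg 0 5 (nz10 z0) (nz10 z5) 4
  have r5 : (D 5 - E 5) + (D 5 - E 5) = (D 0 - E 0) + (D 0 - E 0) :=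
    h.rg 0 5 (nz10 z0) (nz10 z5) 5
  simp only [x0, x1, x2, x3, x4, x5, x6, x7, x9, y0, y2, y3, y4, y5, y6, y7, y8, y9, z1, z2, z3, z4, z6, z7, z8, z9, sub_zero, zero_sub, add_zero, zero_add, mul_zero, sub_self] at sD sE sG v1 v2 r1 r2 r3 r4 r5
  clear hl a0 a1 a2 a3 a4 a5 a6 a7 a8 a9
  clear x0 x1 x2 x3 x4 x5 x6 x7 x9 y0 y2 y3 y4 y5 y6 y7 y8 y9 z1 z2 z3 z4 z6 z7 z8 z9
  exfalso
  omega

lemma cas_19467 (h : H10 D E G d)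
    (hl : ∀ i : ℕ, i < 10 → lab D E G (i : ZMod 10) = dg 19467 i) : Con10 D E G := by
  have hk : d ≤ 4 := h.rh10 hl
  obtain ⟨a0, a1, a2, a3, a4, a5, a6, a7, a8, a9⟩ := hl10 hl
  obtain ⟨x0, y0, z0⟩ := h.toTr.m10lab3 (a0.trans rfl)
  obtain ⟨x1, y1, z1⟩ := h.toTr.m10lab2 (a1.trans rfl)
  obtain ⟨x2, y2, z2⟩ := lab0 (a2.trans rfl)
  obtain ⟨x3, y3, z3⟩ := lab0 (a3.trans rfl)
  obtain ⟨x4, y4, z4⟩ := lab0 (a4.trans rfl)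
  obtain ⟨x5, y5, z5⟩ := h.toTr.m10lab3 (a5.trans rfl)
  obtain ⟨x6, y6, z6⟩ := lab0 (a6.trans rfl)
  obtain ⟨x7, y7, z7⟩ := h.toTr.m10lab1 (a7.trans rfl)
  obtain ⟨x8, y8, z8⟩ := lab0 (a8.trans rfl)
  obtain ⟨x9, y9, z9⟩ := lab0 (a9.trans rfl)
  have sD := h.toTr.s10
  have sE := h.toTr.rot.s10
  have sG := h.toTr.rot.rot.s10
  have pd := h.pos
  have v1 := dvd10 h.s1
  have v2 := dvd10 h.s2
  have r1 : (D 9 - E 9) + (D 1 - E 1) = (D 4 - E 4) + (D 6 - E 6) :=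
    h.rg 0 5 (nz10 z0) (nz10 z5) 1
  have r2 : (D 8 - E 8) + (D 2 - E 2) = (D 3 - E 3) + (D 7 - E 7) :=
    h.rg 0 5 (nz10 z0) (nz10 z5) 2
  have r3 : (D 7 - E 7) + (D 3 - E 3) = (D 2 - E 2) + (D 8 - E 8) :=
    h.rg 0 5 (nz10 z0) (nz10 z5) 3
  have r4 : (D 6 - E 6) + (D 4 - E 4) = (D 1 - E 1) + (D 9 - E 9) :=
    h.rg 0 5 (nz10 z0) (nz10 z5) 4
  have r5 : (D 5 - E 5) + (D 5 - E 5) = (D 0 - E 0) + (D 0 - E 0) :=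
    h.rg 0 5 (nz10 z0) (nz10 z5) 5
  simp only [x0, x1, x2, x3, x4, x5, x6, x8, x9, y0, y2, y3, y4, y5, y6, y7, y8, y9, z1, z2, z3, z4, z6, z7, z8, z9, sub_zero, zero_sub, add_zero, zero_add, mul_zero, sub_self] at sD sE sG v1 v2 r1 r2 r3 r4 r5
  clear hl a0 a1 a2 a3 a4 a5 a6 a7 a8 a9
  clear x0 x1 x2 x3 x4 x5 x6 x8 x9 y0 y2 y3 y4 y5 y6 y7 y8 y9 z1 z2 z3 z4 z6 z7 z8 z9
  exfalso
  omega

lemma cas_7179 (h : H10 D E G d)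
    (hl : ∀ i : ℕ, i < 10 → lab D E G (i : ZMod 10) = dg 7179 i) : Con10 D E G := by
  have hk : d ≤ 4 := h.rh10 hl
  obtain ⟨a0, a1, a2, a3, a4, a5, a6, a7, a8, a9⟩ := hl10 hl
  obtain ⟨x0, y0, z0⟩ := h.toTr.m10lab3 (a0.trans rfl)
  obtain ⟨x1, y1, z1⟩ := h.toTr.m10lab2 (a1.trans rfl)
  obtain ⟨x2, y2, z2⟩ := lab0 (a2.trans rfl)
  obtain ⟨x3, y3, z3⟩ := lab0 (a3.trans rfl)
  obtain ⟨x4, y4, z4⟩ := lab0 (a4.trans rfl)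
  obtain ⟨x5, y5, z5⟩ := h.toTr.m10lab3 (a5.trans rfl)
  obtain ⟨x6, y6, z6⟩ := h.toTr.m10lab1 (a6.trans rfl)
  obtain ⟨x7, y7, z7⟩ := lab0 (a7.trans rfl)
  obtain ⟨x8, y8, z8⟩ := lab0 (a8.trans rfl)
  obtain ⟨x9, y9, z9⟩ := lab0 (a9.trans rfl)
  have sD := h.toTr.s10
  have sE := h.toTr.rot.s10
  have sG := h.toTr.rot.rot.s10
  have pd := h.pos
  have v1 := dvd10 h.s1
  have v2 := dvd10 h.s2
  have r1 : (D 9 - E 9) + (D 1 - E 1) = (D 4 - E 4) + (D 6 - E 6) :=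
    h.rg 0 5 (nz10 z0) (nz10 z5) 1
  have r2 : (D 8 - E 8) + (D 2 - E 2) = (D 3 - E 3) + (D 7 - E 7) :=
    h.rg 0 5 (nz10 z0) (nz10 z5) 2
  have r3 : (D 7 - E 7) + (D 3 - E 3) = (D 2 - E 2) + (D 8 - E 8) :=
    h.rg 0 5 (nz10 z0) (nz10 z5) 3
  have r4 : (D 6 - E 6) + (D 4 - E 4) = (D 1 - E 1) + (D 9 - E 9) :=
    h.rg 0 5 (nz10 z0) (nz10 z5) 4
  have r5 : (D 5 - E 5) + (D 5 - E 5) = (D 0 - E 0) + (D 0 - E 0) :=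
    h.rg 0 5 (nz10 z0) (nz10 z5) 5
  simp only [x0, x1, x2, x3, x4, x5, x7, x8, x9, y0, y2, y3, y4, y5, y6, y7, y8, y9, z1, z2, z3, z4, z6, z7, z8, z9, sub_zero, zero_sub, add_zero, zero_add, mul_zero, sub_self] at sD sE sG v1 v2 r1 r2 r3 r4 r5
  clear hl a0 a1 a2 a3 a4 a5 a6 a7 a8 a9
  clear x0 x1 x2 x3 x4 x5 x7 x8 x9 y0 y2 y3 y4 y5 y6 y7 y8 y9 z1 z2 z3 z4 z6 z7 z8 z9
  exfalso
  omega

lemma cas_267 (h : H10 D E G d)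
    (hl : ∀ i : ℕ, i < 10 → lab D E G (i : ZMod 10) = dg 267 i) : Con10 D E G := by
  have hk : d ≤ 3 := h.rh10 hl
  obtain ⟨a0, a1, a2, a3, a4, a5, a6, a7, a8, a9⟩ := hl10 hl
  obtain ⟨x0, y0, z0⟩ := h.toTr.m10lab3 (a0.trans rfl)
  obtain ⟨x1, y1, z1⟩ := h.toTr.m10lab2 (a1.trans rfl)
  obtain ⟨x2, y2, z2⟩ := lab0 (a2.trans rfl)
  obtain ⟨x3, y3, z3⟩ := lab0 (a3.trans rfl)
  obtain ⟨x4, y4, z4⟩ := h.toTr.m10lab1 (a4.trans rfl)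
  obtain ⟨x5, y5, z5⟩ := lab0 (a5.trans rfl)
  obtain ⟨x6, y6, z6⟩ := lab0 (a6.trans rfl)
  obtain ⟨x7, y7, z7⟩ := lab0 (a7.trans rfl)
  obtain ⟨x8, y8, z8⟩ := lab0 (a8.trans rfl)
  obtain ⟨x9, y9, z9⟩ := lab0 (a9.trans rfl)
  have sD := h.toTr.s10
  have sE := h.toTr.rot.s10
  have sG := h.toTr.rot.rot.s10
  have pd := h.pos
  have v1 := dvd10 h.s1
  have v2 := dvd10 h.s2
  simp only [x0, x1, x2, x3, x5, x6, x7, x8, x9, y0, y2, y3, y4, y5, y6, y7, y8, y9, z1, z2, z3, z4, z5, z6, z7, z8, z9, sub_zero, zero_sub, add_zero, zero_add, mul_zero, sub_self] at sD sE sG v1 v2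
  clear hl a0 a1 a2 a3 a4 a5 a6 a7 a8 a9
  clear x0 x1 x2 x3 x5 x6 x7 x8 x9 y0 y2 y3 y4 y5 y6 y7 y8 y9 z1 z2 z3 z4 z5 z6 z7 z8 z9
  exfalso
  omega

lemma cas_8459 (h : H10 D E G d)
    (hl : ∀ i : ℕ, i < 10 → lab D E G (i : ZMod 10) = dg 8459 i) : Con10 D E G := by
  have hk : d ≤ 4 := h.rh10 hl
  obtain ⟨a0, a1, a2, a3, a4, a5, a6, a7, a8, a9⟩ := hl10 hl
  obtain ⟨x0, y0, z0⟩ := h.toTr.m10lab3 (a0.trans rfl)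
  obtain ⟨x1, y1, z1⟩ := h.toTr.m10lab2 (a1.trans rfl)
  obtain ⟨x2, y2, z2⟩ := lab0 (a2.trans rfl)
  obtain ⟨x3, y3, z3⟩ := lab0 (a3.trans rfl)
  obtain ⟨x4, y4, z4⟩ := h.toTr.m10lab1 (a4.trans rfl)
  obtain ⟨x5, y5, z5⟩ := lab0 (a5.trans rfl)
  obtain ⟨x6, y6, z6⟩ := h.toTr.m10lab2 (a6.trans rfl)
  obtain ⟨x7, y7, z7⟩ := lab0 (a7.trans rfl)
  obtain ⟨x8, y8, z8⟩ := lab0 (a8.trans rfl)
  obtain ⟨x9, y9, z9⟩ := lab0 (a9.trans rfl)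
  have sD := h.toTr.s10
  have sE := h.toTr.rot.s10
  have sG := h.toTr.rot.rot.s10
  have pd := h.pos
  have v1 := dvd10 h.s1
  have v2 := dvd10 h.s2
  have r1 : (G 0 - D 0) + (G 2 - D 2) = (G 5 - D 5) + (G 7 - D 7) :=
    h.re 1 6 (nz10 y1) (nz10 y6) 1
  have r2 : (G 9 - D 9) + (G 3 - D 3) = (G 4 - D 4) + (G 8 - D 8) :=
    h.re 1 6 (nz10 y1) (nz10 y6) 2
  have r3 : (G 8 - D 8) + (G 4 - D 4) = (G 3 - D 3) + (G 9 - D 9) :=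
    h.re 1 6 (nz10 y1) (nz10 y6) 3
  have r4 : (G 7 - D 7) + (G 5 - D 5) = (G 2 - D 2) + (G 0 - D 0) :=
    h.re 1 6 (nz10 y1) (nz10 y6) 4
  have r5 : (G 6 - D 6) + (G 6 - D 6) = (G 1 - D 1) + (G 1 - D 1) :=
    h.re 1 6 (nz10 y1) (nz10 y6) 5
  simp only [x0, x1, x2, x3, x5, x6, x7, x8, x9, y0, y2, y3, y4, y5, y7, y8, y9, z1, z2, z3, z4, z5, z6, z7, z8, z9, sub_zero, zero_sub, add_zero, zero_add, mul_zero, sub_self] at sD sE sG v1 v2 r1 r2 r3 r4 r5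
  clear hl a0 a1 a2 a3 a4 a5 a6 a7 a8 a9
  clear x0 x1 x2 x3 x5 x6 x7 x8 x9 y0 y2 y3 y4 y5 y7 y8 y9 z1 z2 z3 z4 z5 z6 z7 z8 z9
  exfalso
  omega

lemma cas_3339 (h : H10 D E G d)
    (hl : ∀ i : ℕ, i < 10 → lab D E G (i : ZMod 10) = dg 3339 i) : Con10 D E G := by
  have hk : d ≤ 4 := h.rh10 hl
  obtain ⟨a0, a1, a2, a3, a4, a5, a6, a7, a8, a9⟩ := hl10 hl
  obtain ⟨x0, y0, z0⟩ := h.toTr.m10lab3 (a0.trans rfl)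
  obtain ⟨x1, y1, z1⟩ := h.toTr.m10lab2 (a1.trans rfl)
  obtain ⟨x2, y2, z2⟩ := lab0 (a2.trans rfl)
  obtain ⟨x3, y3, z3⟩ := lab0 (a3.trans rfl)
  obtain ⟨x4, y4, z4⟩ := h.toTr.m10lab1 (a4.trans rfl)
  obtain ⟨x5, y5, z5⟩ := h.toTr.m10lab3 (a5.trans rfl)
  obtain ⟨x6, y6, z6⟩ := lab0 (a6.trans rfl)
  obtain ⟨x7, y7, z7⟩ := lab0 (a7.trans rfl)
  obtain ⟨x8, y8, z8⟩ := lab0 (a8.trans rfl)
  obtain ⟨x9, y9, z9⟩ := lab0 (a9.trans rfl)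
  have sD := h.toTr.s10
  have sE := h.toTr.rot.s10
  have sG := h.toTr.rot.rot.s10
  have pd := h.pos
  have v1 := dvd10 h.s1
  have v2 := dvd10 h.s2
  have r1 : (D 9 - E 9) + (D 1 - E 1) = (D 4 - E 4) + (D 6 - E 6) :=
    h.rg 0 5 (nz10 z0) (nz10 z5) 1
  have r2 : (D 8 - E 8) + (D 2 - E 2) = (D 3 - E 3) + (D 7 - E 7) :=
    h.rg 0 5 (nz10 z0) (nz10 z5) 2
  have r3 : (D 7 - E 7) + (D 3 - E 3) = (D 2 - E 2) + (D 8 - E 8) :=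
    h.rg 0 5 (nz10 z0) (nz10 z5) 3
  have r4 : (D 6 - E 6) + (D 4 - E 4) = (D 1 - E 1) + (D 9 - E 9) :=
    h.rg 0 5 (nz10 z0) (nz10 z5) 4
  have r5 : (D 5 - E 5) + (D 5 - E 5) = (D 0 - E 0) + (D 0 - E 0) :=
    h.rg 0 5 (nz10 z0) (nz10 z5) 5
  simp only [x0, x1, x2, x3, x5, x6, x7, x8, x9, y0, y2, y3, y4, y5, y6, y7, y8, y9, z1, z2, z3, z4, z6, z7, z8, z9, sub_zero, zero_sub, add_zero, zero_add, mul_zero, sub_self] at sD sE sG v1 v2 r1 r2 r3 r4 r5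
  clear hl a0 a1 a2 a3 a4 a5 a6 a7 a8 a9
  clear x0 x1 x2 x3 x5 x6 x7 x8 x9 y0 y2 y3 y4 y5 y6 y7 y8 y9 z1 z2 z3 z4 z6 z7 z8 z9
  exfalso
  omega

lemma cas_75 (h : H10 D E G d)
    (hl : ∀ i : ℕ, i < 10 → lab D E G (i : ZMod 10) = dg 75 i) : Con10 D E G := by
  have hk : d ≤ 3 := h.rh10 hl
  obtain ⟨a0, a1, a2, a3, a4, a5, a6, a7, a8, a9⟩ := hl10 hl
  obtain ⟨x0, y0, z0⟩ := h.toTr.m10lab3 (a0.trans rfl)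
  obtain ⟨x1, y1, z1⟩ := h.toTr.m10lab2 (a1.trans rfl)
  obtain ⟨x2, y2, z2⟩ := lab0 (a2.trans rfl)
  obtain ⟨x3, y3, z3⟩ := h.toTr.m10lab1 (a3.trans rfl)
  obtain ⟨x4, y4, z4⟩ := lab0 (a4.trans rfl)
  obtain ⟨x5, y5, z5⟩ := lab0 (a5.trans rfl)
  obtain ⟨x6, y6, z6⟩ := lab0 (a6.trans rfl)
  obtain ⟨x7, y7, z7⟩ := lab0 (a7.trans rfl)
  obtain ⟨x8, y8, z8⟩ := lab0 (a8.trans rfl)
  obtain ⟨x9, y9, z9⟩ := lab0 (a9.trans rfl)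
  have sD := h.toTr.s10
  have sE := h.toTr.rot.s10
  have sG := h.toTr.rot.rot.s10
  have pd := h.pos
  have v1 := dvd10 h.s1
  have v2 := dvd10 h.s2
  simp only [x0, x1, x2, x4, x5, x6, x7, x8, x9, y0, y2, y3, y4, y5, y6, y7, y8, y9, z1, z2, z3, z4, z5, z6, z7, z8, z9, sub_zero, zero_sub, add_zero, zero_add, mul_zero, sub_self] at sD sE sG v1 v2
  clear hl a0 a1 a2 a3 a4 a5 a6 a7 a8 a9
  clear x0 x1 x2 x4 x5 x6 x7 x8 x9 y0 y2 y3 y4 y5 y6 y7 y8 y9 z1 z2 z3 z4 z5 z6 z7 z8 z9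
  exfalso
  omega

lemma cas_65611 (h : H10 D E G d)
    (hl : ∀ i : ℕ, i < 10 → lab D E G (i : ZMod 10) = dg 65611 i) : Con10 D E G := by
  have hk : d ≤ 4 := h.rh10 hl
  obtain ⟨a0, a1, a2, a3, a4, a5, a6, a7, a8, a9⟩ := hl10 hl
  obtain ⟨x0, y0, z0⟩ := h.toTr.m10lab3 (a0.trans rfl)
  obtain ⟨x1, y1, z1⟩ := h.toTr.m10lab2 (a1.trans rfl)
  obtain ⟨x2, y2, z2⟩ := lab0 (a2.trans rfl)
  obtain ⟨x3, y3, z3⟩ := h.toTr.m10lab1 (a3.trans rfl)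
  obtain ⟨x4, y4, z4⟩ := lab0 (a4.trans rfl)
  obtain ⟨x5, y5, z5⟩ := lab0 (a5.trans rfl)
  obtain ⟨x6, y6, z6⟩ := lab0 (a6.trans rfl)
  obtain ⟨x7, y7, z7⟩ := lab0 (a7.trans rfl)
  obtain ⟨x8, y8, z8⟩ := h.toTr.m10lab1 (a8.trans rfl)
  obtain ⟨x9, y9, z9⟩ := lab0 (a9.trans rfl)
  have sD := h.toTr.s10
  have sE := h.toTr.rot.s10
  have sG := h.toTr.rot.rot.s10
  have pd := h.pos
  have v1 := dvd10 h.s1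
  have v2 := dvd10 h.s2
  have r1 : (E 2 - G 2) + (E 4 - G 4) = (E 7 - G 7) + (E 9 - G 9) :=
    h.rd 3 8 (nz10 x3) (nz10 x8) 1
  have r2 : (E 1 - G 1) + (E 5 - G 5) = (E 6 - G 6) + (E 0 - G 0) :=
    h.rd 3 8 (nz10 x3) (nz10 x8) 2
  have r3 : (E 0 - G 0) + (E 6 - G 6) = (E 5 - G 5) + (E 1 - G 1) :=
    h.rd 3 8 (nz10 x3) (nz10 x8) 3
  have r4 : (E 9 - G 9) + (E 7 - G 7) = (E 4 - G 4) + (E 2 - G 2) :=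
    h.rd 3 8 (nz10 x3) (nz10 x8) 4
  have r5 : (E 8 - G 8) + (E 8 - G 8) = (E 3 - G 3) + (E 3 - G 3) :=
    h.rd 3 8 (nz10 x3) (nz10 x8) 5
  simp only [x0, x1, x2, x4, x5, x6, x7, x9, y0, y2, y3, y4, y5, y6, y7, y8, y9, z1, z2, z3, z4, z5, z6, z7, z8, z9, sub_zero, zero_sub, add_zero, zero_add, mul_zero, sub_self] at sD sE sG v1 v2 r1 r2 r3 r4 r5
  clear hl a0 a1 a2 a3 a4 a5 a6 a7 a8 a9
  clear x0 x1 x2 x4 x5 x6 x7 x9 y0 y2 y3 y4 y5 y6 y7 y8 y9 z1 z2 z3 z4 z5 z6 z7 z8 z9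
  exfalso
  omega

lemma cas_8267 (h : H10 D E G d)
    (hl : ∀ i : ℕ, i < 10 → lab D E G (i : ZMod 10) = dg 8267 i) : Con10 D E G := by
  have hk : d ≤ 4 := h.rh10 hl
  obtain ⟨a0, a1, a2, a3, a4, a5, a6, a7, a8, a9⟩ := hl10 hl
  obtain ⟨x0, y0, z0⟩ := h.toTr.m10lab3 (a0.trans rfl)
  obtain ⟨x1, y1, z1⟩ := h.toTr.m10lab2 (a1.trans rfl)
  obtain ⟨x2, y2, z2⟩ := lab0 (a2.trans rfl)
  obtain ⟨x3, y3, z3⟩ := h.toTr.m10lab1 (a3.trans rfl)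
  obtain ⟨x4, y4, z4⟩ := lab0 (a4.trans rfl)
  obtain ⟨x5, y5, z5⟩ := lab0 (a5.trans rfl)
  obtain ⟨x6, y6, z6⟩ := h.toTr.m10lab2 (a6.trans rfl)
  obtain ⟨x7, y7, z7⟩ := lab0 (a7.trans rfl)
  obtain ⟨x8, y8, z8⟩ := lab0 (a8.trans rfl)
  obtain ⟨x9, y9, z9⟩ := lab0 (a9.trans rfl)
  have sD := h.toTr.s10
  have sE := h.toTr.rot.s10
  have sG := h.toTr.rot.rot.s10
  have pd := h.pos
  have v1 := dvd10 h.s1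
  have v2 := dvd10 h.s2
  have r1 : (G 0 - D 0) + (G 2 - D 2) = (G 5 - D 5) + (G 7 - D 7) :=
    h.re 1 6 (nz10 y1) (nz10 y6) 1
  have r2 : (G 9 - D 9) + (G 3 - D 3) = (G 4 - D 4) + (G 8 - D 8) :=
    h.re 1 6 (nz10 y1) (nz10 y6) 2
  have r3 : (G 8 - D 8) + (G 4 - D 4) = (G 3 - D 3) + (G 9 - D 9) :=
    h.re 1 6 (nz10 y1) (nz10 y6) 3
  have r4 : (G 7 - D 7) + (G 5 - D 5) = (G 2 - D 2) + (G 0 - D 0) :=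
    h.re 1 6 (nz10 y1) (nz10 y6) 4
  have r5 : (G 6 - D 6) + (G 6 - D 6) = (G 1 - D 1) + (G 1 - D 1) :=
    h.re 1 6 (nz10 y1) (nz10 y6) 5
  simp only [x0, x1, x2, x4, x5, x6, x7, x8, x9, y0, y2, y3, y4, y5, y7, y8, y9, z1, z2, z3, z4, z5, z6, z7, z8, z9, sub_zero, zero_sub, add_zero, zero_add, mul_zero, sub_self] at sD sE sG v1 v2 r1 r2 r3 r4 r5
  clear hl a0 a1 a2 a3 a4 a5 a6 a7 a8 a9
  clear x0 x1 x2 x4 x5 x6 x7 x8 x9 y0 y2 y3 y4 y5 y7 y8 y9 z1 z2 z3 z4 z5 z6 z7 z8 z9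
  exfalso
  omega

lemma cas_73803 (h : H10 D E G d)
    (hl : ∀ i : ℕ, i < 10 → lab D E G (i : ZMod 10) = dg 73803 i) : Con10 D E G := by
  have hk : d ≤ 5 := h.rh10 hl
  obtain ⟨a0, a1, a2, a3, a4, a5, a6, a7, a8, a9⟩ := hl10 hl
  obtain ⟨x0, y0, z0⟩ := h.toTr.m10lab3 (a0.trans rfl)
  obtain ⟨x1, y1, z1⟩ := h.toTr.m10lab2 (a1.trans rfl)
  obtain ⟨x2, y2, z2⟩ := lab0 (a2.trans rfl)
  obtain ⟨x3, y3, z3⟩ := h.toTr.m10lab1 (a3.trans rfl)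
  obtain ⟨x4, y4, z4⟩ := lab0 (a4.trans rfl)
  obtain ⟨x5, y5, z5⟩ := lab0 (a5.trans rfl)
  obtain ⟨x6, y6, z6⟩ := h.toTr.m10lab2 (a6.trans rfl)
  obtain ⟨x7, y7, z7⟩ := lab0 (a7.trans rfl)
  obtain ⟨x8, y8, z8⟩ := h.toTr.m10lab1 (a8.trans rfl)
  obtain ⟨x9, y9, z9⟩ := lab0 (a9.trans rfl)
  have sD := h.toTr.s10
  have sE := h.toTr.rot.s10
  have sG := h.toTr.rot.rot.s10
  have pd := h.pos
  have v1 := dvd10 h.s1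
  have v2 := dvd10 h.s2
  have r1 : (E 2 - G 2) + (E 4 - G 4) = (E 7 - G 7) + (E 9 - G 9) :=
    h.rd 3 8 (nz10 x3) (nz10 x8) 1
  have r2 : (E 1 - G 1) + (E 5 - G 5) = (E 6 - G 6) + (E 0 - G 0) :=
    h.rd 3 8 (nz10 x3) (nz10 x8) 2
  have r3 : (E 0 - G 0) + (E 6 - G 6) = (E 5 - G 5) + (E 1 - G 1) :=
    h.rd 3 8 (nz10 x3) (nz10 x8) 3
  have r4 : (E 9 - G 9) + (E 7 - G 7) = (E 4 - G 4) + (E 2 - G 2) :=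
    h.rd 3 8 (nz10 x3) (nz10 x8) 4
  have r5 : (E 8 - G 8) + (E 8 - G 8) = (E 3 - G 3) + (E 3 - G 3) :=
    h.rd 3 8 (nz10 x3) (nz10 x8) 5
  have r6 : (G 0 - D 0) + (G 2 - D 2) = (G 5 - D 5) + (G 7 - D 7) :=
    h.re 1 6 (nz10 y1) (nz10 y6) 1
  have r7 : (G 9 - D 9) + (G 3 - D 3) = (G 4 - D 4) + (G 8 - D 8) :=
    h.re 1 6 (nz10 y1) (nz10 y6) 2
  have r8 : (G 8 - D 8) + (G 4 - D 4) = (G 3 - D 3) + (G 9 - D 9) :=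
    h.re 1 6 (nz10 y1) (nz10 y6) 3
  have r9 : (G 7 - D 7) + (G 5 - D 5) = (G 2 - D 2) + (G 0 - D 0) :=
    h.re 1 6 (nz10 y1) (nz10 y6) 4
  have r10 : (G 6 - D 6) + (G 6 - D 6) = (G 1 - D 1) + (G 1 - D 1) :=
    h.re 1 6 (nz10 y1) (nz10 y6) 5
  simp only [x0, x1, x2, x4, x5, x6, x7, x9, y0, y2, y3, y4, y5, y7, y8, y9, z1, z2, z3, z4, z5, z6, z7, z8, z9, sub_zero, zero_sub, add_zero, zero_add, mul_zero, sub_self] at sD sE sG v1 v2 r1 r2 r3 r4 r5 r6 r7 r8 r9 r10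
  clear hl a0 a1 a2 a3 a4 a5 a6 a7 a8 a9
  clear x0 x1 x2 x4 x5 x6 x7 x9 y0 y2 y3 y4 y5 y7 y8 y9 z1 z2 z3 z4 z5 z6 z7 z8 z9
  exfalso
  omega

lemma cas_14411 (h : H10 D E G d)
    (hl : ∀ i : ℕ, i < 10 → lab D E G (i : ZMod 10) = dg 14411 i) : Con10 D E G := by
  have hk : d ≤ 5 := h.rh10 hl
  obtain ⟨a0, a1, a2, a3, a4, a5, a6, a7, a8, a9⟩ := hl10 hl
  obtain ⟨x0, y0, z0⟩ := h.toTr.m10lab3 (a0.trans rfl)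
  obtain ⟨x1, y1, z1⟩ := h.toTr.m10lab2 (a1.trans rfl)
  obtain ⟨x2, y2, z2⟩ := lab0 (a2.trans rfl)
  obtain ⟨x3, y3, z3⟩ := h.toTr.m10lab1 (a3.trans rfl)
  obtain ⟨x4, y4, z4⟩ := lab0 (a4.trans rfl)
  obtain ⟨x5, y5, z5⟩ := h.toTr.m10lab2 (a5.trans rfl)
  obtain ⟨x6, y6, z6⟩ := h.toTr.m10lab3 (a6.trans rfl)
  obtain ⟨x7, y7, z7⟩ := lab0 (a7.trans rfl)
  obtain ⟨x8, y8, z8⟩ := lab0 (a8.trans rfl)
  obtain ⟨x9, y9, z9⟩ := lab0 (a9.trans rfl)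
  have sD := h.toTr.s10
  have sE := h.toTr.rot.s10
  have sG := h.toTr.rot.rot.s10
  have pd := h.pos
  have v1 := dvd10 h.s1
  have v2 := dvd10 h.s2
  have r1 : (G 0 - D 0) + (G 2 - D 2) = (G 4 - D 4) + (G 6 - D 6) :=
    h.re 1 5 (nz10 y1) (nz10 y5) 1
  have r2 : (G 9 - D 9) + (G 3 - D 3) = (G 3 - D 3) + (G 7 - D 7) :=
    h.re 1 5 (nz10 y1) (nz10 y5) 2
  have r3 : (G 8 - D 8) + (G 4 - D 4) = (G 2 - D 2) + (G 8 - D 8) :=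
    h.re 1 5 (nz10 y1) (nz10 y5) 3
  have r4 : (G 7 - D 7) + (G 5 - D 5) = (G 1 - D 1) + (G 9 - D 9) :=
    h.re 1 5 (nz10 y1) (nz10 y5) 4
  have r5 : (G 6 - D 6) + (G 6 - D 6) = (G 0 - D 0) + (G 0 - D 0) :=
    h.re 1 5 (nz10 y1) (nz10 y5) 5
  have r6 : (D 9 - E 9) + (D 1 - E 1) = (D 5 - E 5) + (D 7 - E 7) :=
    h.rg 0 6 (nz10 z0) (nz10 z6) 1
  have r7 : (D 8 - E 8) + (D 2 - E 2) = (D 4 - E 4) + (D 8 - E 8) :=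
    h.rg 0 6 (nz10 z0) (nz10 z6) 2
  have r8 : (D 7 - E 7) + (D 3 - E 3) = (D 3 - E 3) + (D 9 - E 9) :=
    h.rg 0 6 (nz10 z0) (nz10 z6) 3
  have r9 : (D 6 - E 6) + (D 4 - E 4) = (D 2 - E 2) + (D 0 - E 0) :=
    h.rg 0 6 (nz10 z0) (nz10 z6) 4
  have r10 : (D 5 - E 5) + (D 5 - E 5) = (D 1 - E 1) + (D 1 - E 1) :=
    h.rg 0 6 (nz10 z0) (nz10 z6) 5
  simp only [x0, x1, x2, x4, x5, x6, x7, x8, x9, y0, y2, y3, y4, y6, y7, y8, y9, z1, z2, z3, z4, z5, z7, z8, z9, sub_zero, zero_sub, add_zero, zero_add, mul_zero, sub_self] at sD sE sG v1 v2 r1 r2 r3 r4 r5 r6 r7 r8 r9 r10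
  clear hl a0 a1 a2 a3 a4 a5 a6 a7 a8 a9
  have kD3 : D 3 = (E 5) * 2 := by
    clear x0 x1 x2 x4 x5 x6 x7 x8 x9 y0 y2 y3 y4 y6 y7 y8 y9 z1 z2 z3 z4 z5 z7 z8 z9
    omega
  have kE1 : E 1 = (E 5) * 1 := by
    clear x0 x1 x2 x4 x5 x6 x7 x8 x9 y0 y2 y3 y4 y6 y7 y8 y9 z1 z2 z3 z4 z5 z7 z8 z9
    omega
  have kE5 : E 5 = (E 5) * 1 := by
    clear x0 x1 x2 x4 x5 x6 x7 x8 x9 y0 y2 y3 y4 y6 y7 y8 y9 z1 z2 z3 z4 z5 z7 z8 z9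
    omega
  have kG0 : G 0 = (E 5) * 1 := by
    clear x0 x1 x2 x4 x5 x6 x7 x8 x9 y0 y2 y3 y4 y6 y7 y8 y9 z1 z2 z3 z4 z5 z7 z8 z9
    omega
  have kG6 : G 6 = (E 5) * 1 := by
    clear x0 x1 x2 x4 x5 x6 x7 x8 x9 y0 y2 y3 y4 y6 y7 y8 y9 z1 z2 z3 z4 z5 z7 z8 z9
    omega
  refine Or.inl ⟨6, 3, 6, 5, (E 5), by linarith, all10 ?_ ?_ ?_ ?_ ?_ ?_ ?_ ?_ ?_ ?_,
    all10 ?_ ?_ ?_ ?_ ?_ ?_ ?_ ?_ ?_ ?_, all10 ?_ ?_ ?_ ?_ ?_ ?_ ?_ ?_ ?_ ?_⟩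
  · show D 0 = (E 5) * 0
    rw [mul_zero]; exact x0
  · show D 1 = (E 5) * 0
    rw [mul_zero]; exact x1
  · show D 2 = (E 5) * 0
    rw [mul_zero]; exact x2
  · exact kD3
  · show D 4 = (E 5) * 0
    rw [mul_zero]; exact x4
  · show D 5 = (E 5) * 0
    rw [mul_zero]; exact x5
  · show D 6 = (E 5) * 0
    rw [mul_zero]; exact x6
  · show D 7 = (E 5) * 0
    rw [mul_zero]; exact x7
  · show D 8 = (E 5) * 0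
    rw [mul_zero]; exact x8
  · show D 9 = (E 5) * 0
    rw [mul_zero]; exact x9
  · show E 0 = (E 5) * 0
    rw [mul_zero]; exact y0
  · exact kE1
  · show E 2 = (E 5) * 0
    rw [mul_zero]; exact y2
  · show E 3 = (E 5) * 0
    rw [mul_zero]; exact y3
  · show E 4 = (E 5) * 0
    rw [mul_zero]; exact y4
  · exact kE5
  · show E 6 = (E 5) * 0
    rw [mul_zero]; exact y6
  · show E 7 = (E 5) * 0
    rw [mul_zero]; exact y7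
  · show E 8 = (E 5) * 0
    rw [mul_zero]; exact y8
  · show E 9 = (E 5) * 0
    rw [mul_zero]; exact y9
  · exact kG0
  · show G 1 = (E 5) * 0
    rw [mul_zero]; exact z1
  · show G 2 = (E 5) * 0
    rw [mul_zero]; exact z2
  · show G 3 = (E 5) * 0
    rw [mul_zero]; exact z3
  · show G 4 = (E 5) * 0
    rw [mul_zero]; exact z4
  · show G 5 = (E 5) * 0
    rw [mul_zero]; exact z5
  · exact kG6
  · show G 7 = (E 5) * 0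
    rw [mul_zero]; exact z7
  · show G 8 = (E 5) * 0
    rw [mul_zero]; exact z8
  · show G 9 = (E 5) * 0
    rw [mul_zero]; exact z9

lemma cas_79947 (h : H10 D E G d)
    (hl : ∀ i : ℕ, i < 10 → lab D E G (i : ZMod 10) = dg 79947 i) : Con10 D E G := by
  have hk : d ≤ 6 := h.rh10 hl
  obtain ⟨a0, a1, a2, a3, a4, a5, a6, a7, a8, a9⟩ := hl10 hl
  obtain ⟨x0, y0, z0⟩ := h.toTr.m10lab3 (a0.trans rfl)
  obtain ⟨x1, y1, z1⟩ := h.toTr.m10lab2 (a1.trans rfl)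
  obtain ⟨x2, y2, z2⟩ := lab0 (a2.trans rfl)
  obtain ⟨x3, y3, z3⟩ := h.toTr.m10lab1 (a3.trans rfl)
  obtain ⟨x4, y4, z4⟩ := lab0 (a4.trans rfl)
  obtain ⟨x5, y5, z5⟩ := h.toTr.m10lab2 (a5.trans rfl)
  obtain ⟨x6, y6, z6⟩ := h.toTr.m10lab3 (a6.trans rfl)
  obtain ⟨x7, y7, z7⟩ := lab0 (a7.trans rfl)
  obtain ⟨x8, y8, z8⟩ := h.toTr.m10lab1 (a8.trans rfl)
  obtain ⟨x9, y9, z9⟩ := lab0 (a9.trans rfl)
  have sD := h.toTr.s10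
  have sE := h.toTr.rot.s10
  have sG := h.toTr.rot.rot.s10
  have pd := h.pos
  have v1 := dvd10 h.s1
  have v2 := dvd10 h.s2
  have r1 : (E 2 - G 2) + (E 4 - G 4) = (E 7 - G 7) + (E 9 - G 9) :=
    h.rd 3 8 (nz10 x3) (nz10 x8) 1
  have r2 : (E 1 - G 1) + (E 5 - G 5) = (E 6 - G 6) + (E 0 - G 0) :=
    h.rd 3 8 (nz10 x3) (nz10 x8) 2
  have r3 : (E 0 - G 0) + (E 6 - G 6) = (E 5 - G 5) + (E 1 - G 1) :=
    h.rd 3 8 (nz10 x3) (nz10 x8) 3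
  have r4 : (E 9 - G 9) + (E 7 - G 7) = (E 4 - G 4) + (E 2 - G 2) :=
    h.rd 3 8 (nz10 x3) (nz10 x8) 4
  have r5 : (E 8 - G 8) + (E 8 - G 8) = (E 3 - G 3) + (E 3 - G 3) :=
    h.rd 3 8 (nz10 x3) (nz10 x8) 5
  have r6 : (G 0 - D 0) + (G 2 - D 2) = (G 4 - D 4) + (G 6 - D 6) :=
    h.re 1 5 (nz10 y1) (nz10 y5) 1
  have r7 : (G 9 - D 9) + (G 3 - D 3) = (G 3 - D 3) + (G 7 - D 7) :=
    h.re 1 5 (nz10 y1) (nz10 y5) 2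
  have r8 : (G 8 - D 8) + (G 4 - D 4) = (G 2 - D 2) + (G 8 - D 8) :=
    h.re 1 5 (nz10 y1) (nz10 y5) 3
  have r9 : (G 7 - D 7) + (G 5 - D 5) = (G 1 - D 1) + (G 9 - D 9) :=
    h.re 1 5 (nz10 y1) (nz10 y5) 4
  have r10 : (G 6 - D 6) + (G 6 - D 6) = (G 0 - D 0) + (G 0 - D 0) :=
    h.re 1 5 (nz10 y1) (nz10 y5) 5
  have r11 : (D 9 - E 9) + (D 1 - E 1) = (D 5 - E 5) + (D 7 - E 7) :=
    h.rg 0 6 (nz10 z0) (nz10 z6) 1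
  have r12 : (D 8 - E 8) + (D 2 - E 2) = (D 4 - E 4) + (D 8 - E 8) :=
    h.rg 0 6 (nz10 z0) (nz10 z6) 2
  have r13 : (D 7 - E 7) + (D 3 - E 3) = (D 3 - E 3) + (D 9 - E 9) :=
    h.rg 0 6 (nz10 z0) (nz10 z6) 3
  have r14 : (D 6 - E 6) + (D 4 - E 4) = (D 2 - E 2) + (D 0 - E 0) :=
    h.rg 0 6 (nz10 z0) (nz10 z6) 4
  have r15 : (D 5 - E 5) + (D 5 - E 5) = (D 1 - E 1) + (D 1 - E 1) :=
    h.rg 0 6 (nz10 z0) (nz10 z6) 5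
  simp only [x0, x1, x2, x4, x5, x6, x7, x9, y0, y2, y3, y4, y6, y7, y8, y9, z1, z2, z3, z4, z5, z7, z8, z9, sub_zero, zero_sub, add_zero, zero_add, mul_zero, sub_self] at sD sE sG v1 v2 r1 r2 r3 r4 r5 r6 r7 r8 r9 r10 r11 r12 r13 r14 r15
  clear hl a0 a1 a2 a3 a4 a5 a6 a7 a8 a9
  clear x0 x1 x2 x4 x5 x6 x7 x9 y0 y2 y3 y4 y6 y7 y8 y9 z1 z2 z3 z4 z5 z7 z8 z9
  exfalso
  omega

lemma cas_3147 (h : H10 D E G d)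
    (hl : ∀ i : ℕ, i < 10 → lab D E G (i : ZMod 10) = dg 3147 i) : Con10 D E G := by
  have hk : d ≤ 4 := h.rh10 hl
  obtain ⟨a0, a1, a2, a3, a4, a5, a6, a7, a8, a9⟩ := hl10 hl
  obtain ⟨x0, y0, z0⟩ := h.toTr.m10lab3 (a0.trans rfl)
  obtain ⟨x1, y1, z1⟩ := h.toTr.m10lab2 (a1.trans rfl)
  obtain ⟨x2, y2, z2⟩ := lab0 (a2.trans rfl)
  obtain ⟨x3, y3, z3⟩ := h.toTr.m10lab1 (a3.trans rfl)
  obtain ⟨x4, y4, z4⟩ := lab0 (a4.trans rfl)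
  obtain ⟨x5, y5, z5⟩ := h.toTr.m10lab3 (a5.trans rfl)
  obtain ⟨x6, y6, z6⟩ := lab0 (a6.trans rfl)
  obtain ⟨x7, y7, z7⟩ := lab0 (a7.trans rfl)
  obtain ⟨x8, y8, z8⟩ := lab0 (a8.trans rfl)
  obtain ⟨x9, y9, z9⟩ := lab0 (a9.trans rfl)
  have sD := h.toTr.s10
  have sE := h.toTr.rot.s10
  have sG := h.toTr.rot.rot.s10
  have pd := h.pos
  have v1 := dvd10 h.s1
  have v2 := dvd10 h.s2
  have r1 : (D 9 - E 9) + (D 1 - E 1) = (D 4 - E 4) + (D 6 - E 6) :=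
    h.rg 0 5 (nz10 z0) (nz10 z5) 1
  have r2 : (D 8 - E 8) + (D 2 - E 2) = (D 3 - E 3) + (D 7 - E 7) :=
    h.rg 0 5 (nz10 z0) (nz10 z5) 2
  have r3 : (D 7 - E 7) + (D 3 - E 3) = (D 2 - E 2) + (D 8 - E 8) :=
    h.rg 0 5 (nz10 z0) (nz10 z5) 3
  have r4 : (D 6 - E 6) + (D 4 - E 4) = (D 1 - E 1) + (D 9 - E 9) :=
    h.rg 0 5 (nz10 z0) (nz10 z5) 4
  have r5 : (D 5 - E 5) + (D 5 - E 5) = (D 0 - E 0) + (D 0 - E 0) :=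
    h.rg 0 5 (nz10 z0) (nz10 z5) 5
  simp only [x0, x1, x2, x4, x5, x6, x7, x8, x9, y0, y2, y3, y4, y5, y6, y7, y8, y9, z1, z2, z3, z4, z6, z7, z8, z9, sub_zero, zero_sub, add_zero, zero_add, mul_zero, sub_self] at sD sE sG v1 v2 r1 r2 r3 r4 r5
  clear hl a0 a1 a2 a3 a4 a5 a6 a7 a8 a9
  clear x0 x1 x2 x4 x5 x6 x7 x8 x9 y0 y2 y3 y4 y5 y6 y7 y8 y9 z1 z2 z3 z4 z6 z7 z8 z9
  exfalso
  omega

lemma cas_68683 (h : H10 D E G d)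
    (hl : ∀ i : ℕ, i < 10 → lab D E G (i : ZMod 10) = dg 68683 i) : Con10 D E G := by
  have hk : d ≤ 5 := h.rh10 hl
  obtain ⟨a0, a1, a2, a3, a4, a5, a6, a7, a8, a9⟩ := hl10 hl
  obtain ⟨x0, y0, z0⟩ := h.toTr.m10lab3 (a0.trans rfl)
  obtain ⟨x1, y1, z1⟩ := h.toTr.m10lab2 (a1.trans rfl)
  obtain ⟨x2, y2, z2⟩ := lab0 (a2.trans rfl)
  obtain ⟨x3, y3, z3⟩ := h.toTr.m10lab1 (a3.trans rfl)
  obtain ⟨x4, y4, z4⟩ := lab0 (a4.trans rfl)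
  obtain ⟨x5, y5, z5⟩ := h.toTr.m10lab3 (a5.trans rfl)
  obtain ⟨x6, y6, z6⟩ := lab0 (a6.trans rfl)
  obtain ⟨x7, y7, z7⟩ := lab0 (a7.trans rfl)
  obtain ⟨x8, y8, z8⟩ := h.toTr.m10lab1 (a8.trans rfl)
  obtain ⟨x9, y9, z9⟩ := lab0 (a9.trans rfl)
  have sD := h.toTr.s10
  have sE := h.toTr.rot.s10
  have sG := h.toTr.rot.rot.s10
  have pd := h.pos
  have v1 := dvd10 h.s1
  have v2 := dvd10 h.s2
  have r1 : (E 2 - G 2) + (E 4 - G 4) = (E 7 - G 7) + (E 9 - G 9) :=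
    h.rd 3 8 (nz10 x3) (nz10 x8) 1
  have r2 : (E 1 - G 1) + (E 5 - G 5) = (E 6 - G 6) + (E 0 - G 0) :=
    h.rd 3 8 (nz10 x3) (nz10 x8) 2
  have r3 : (E 0 - G 0) + (E 6 - G 6) = (E 5 - G 5) + (E 1 - G 1) :=
    h.rd 3 8 (nz10 x3) (nz10 x8) 3
  have r4 : (E 9 - G 9) + (E 7 - G 7) = (E 4 - G 4) + (E 2 - G 2) :=
    h.rd 3 8 (nz10 x3) (nz10 x8) 4
  have r5 : (E 8 - G 8) + (E 8 - G 8) = (E 3 - G 3) + (E 3 - G 3) :=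
    h.rd 3 8 (nz10 x3) (nz10 x8) 5
  have r6 : (D 9 - E 9) + (D 1 - E 1) = (D 4 - E 4) + (D 6 - E 6) :=
    h.rg 0 5 (nz10 z0) (nz10 z5) 1
  have r7 : (D 8 - E 8) + (D 2 - E 2) = (D 3 - E 3) + (D 7 - E 7) :=
    h.rg 0 5 (nz10 z0) (nz10 z5) 2
  have r8 : (D 7 - E 7) + (D 3 - E 3) = (D 2 - E 2) + (D 8 - E 8) :=
    h.rg 0 5 (nz10 z0) (nz10 z5) 3
  have r9 : (D 6 - E 6) + (D 4 - E 4) = (D 1 - E 1) + (D 9 - E 9) :=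
    h.rg 0 5 (nz10 z0) (nz10 z5) 4
  have r10 : (D 5 - E 5) + (D 5 - E 5) = (D 0 - E 0) + (D 0 - E 0) :=
    h.rg 0 5 (nz10 z0) (nz10 z5) 5
  simp only [x0, x1, x2, x4, x5, x6, x7, x9, y0, y2, y3, y4, y5, y6, y7, y8, y9, z1, z2, z3, z4, z6, z7, z8, z9, sub_zero, zero_sub, add_zero, zero_add, mul_zero, sub_self] at sD sE sG v1 v2 r1 r2 r3 r4 r5 r6 r7 r8 r9 r10
  clear hl a0 a1 a2 a3 a4 a5 a6 a7 a8 a9
  clear x0 x1 x2 x4 x5 x6 x7 x9 y0 y2 y3 y4 y5 y6 y7 y8 y9 z1 z2 z3 z4 z6 z7 z8 z9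
  exfalso
  omega

lemma cas_11339 (h : H10 D E G d)
    (hl : ∀ i : ℕ, i < 10 → lab D E G (i : ZMod 10) = dg 11339 i) : Con10 D E G := by
  have hk : d ≤ 5 := h.rh10 hl
  obtain ⟨a0, a1, a2, a3, a4, a5, a6, a7, a8, a9⟩ := hl10 hl
  obtain ⟨x0, y0, z0⟩ := h.toTr.m10lab3 (a0.trans rfl)
  obtain ⟨x1, y1, z1⟩ := h.toTr.m10lab2 (a1.trans rfl)
  obtain ⟨x2, y2, z2⟩ := lab0 (a2.trans rfl)
  obtain ⟨x3, y3, z3⟩ := h.toTr.m10lab1 (a3.trans rfl)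
  obtain ⟨x4, y4, z4⟩ := lab0 (a4.trans rfl)
  obtain ⟨x5, y5, z5⟩ := h.toTr.m10lab3 (a5.trans rfl)
  obtain ⟨x6, y6, z6⟩ := h.toTr.m10lab2 (a6.trans rfl)
  obtain ⟨x7, y7, z7⟩ := lab0 (a7.trans rfl)
  obtain ⟨x8, y8, z8⟩ := lab0 (a8.trans rfl)
  obtain ⟨x9, y9, z9⟩ := lab0 (a9.trans rfl)
  have sD := h.toTr.s10
  have sE := h.toTr.rot.s10
  have sG := h.toTr.rot.rot.s10
  have pd := h.pos
  have v1 := dvd10 h.s1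
  have v2 := dvd10 h.s2
  have r1 : (G 0 - D 0) + (G 2 - D 2) = (G 5 - D 5) + (G 7 - D 7) :=
    h.re 1 6 (nz10 y1) (nz10 y6) 1
  have r2 : (G 9 - D 9) + (G 3 - D 3) = (G 4 - D 4) + (G 8 - D 8) :=
    h.re 1 6 (nz10 y1) (nz10 y6) 2
  have r3 : (G 8 - D 8) + (G 4 - D 4) = (G 3 - D 3) + (G 9 - D 9) :=
    h.re 1 6 (nz10 y1) (nz10 y6) 3
  have r4 : (G 7 - D 7) + (G 5 - D 5) = (G 2 - D 2) + (G 0 - D 0) :=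
    h.re 1 6 (nz10 y1) (nz10 y6) 4
  have r5 : (G 6 - D 6) + (G 6 - D 6) = (G 1 - D 1) + (G 1 - D 1) :=
    h.re 1 6 (nz10 y1) (nz10 y6) 5
  have r6 : (D 9 - E 9) + (D 1 - E 1) = (D 4 - E 4) + (D 6 - E 6) :=
    h.rg 0 5 (nz10 z0) (nz10 z5) 1
  have r7 : (D 8 - E 8) + (D 2 - E 2) = (D 3 - E 3) + (D 7 - E 7) :=
    h.rg 0 5 (nz10 z0) (nz10 z5) 2
  have r8 : (D 7 - E 7) + (D 3 - E 3) = (D 2 - E 2) + (D 8 - E 8) :=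
    h.rg 0 5 (nz10 z0) (nz10 z5) 3
  have r9 : (D 6 - E 6) + (D 4 - E 4) = (D 1 - E 1) + (D 9 - E 9) :=
    h.rg 0 5 (nz10 z0) (nz10 z5) 4
  have r10 : (D 5 - E 5) + (D 5 - E 5) = (D 0 - E 0) + (D 0 - E 0) :=
    h.rg 0 5 (nz10 z0) (nz10 z5) 5
  simp only [x0, x1, x2, x4, x5, x6, x7, x8, x9, y0, y2, y3, y4, y5, y7, y8, y9, z1, z2, z3, z4, z6, z7, z8, z9, sub_zero, zero_sub, add_zero, zero_add, mul_zero, sub_self] at sD sE sG v1 v2 r1 r2 r3 r4 r5 r6 r7 r8 r9 r10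
  clear hl a0 a1 a2 a3 a4 a5 a6 a7 a8 a9
  clear x0 x1 x2 x4 x5 x6 x7 x8 x9 y0 y2 y3 y4 y5 y7 y8 y9 z1 z2 z3 z4 z6 z7 z8 z9
  exfalso
  omega

lemma cas_76875 (h : H10 D E G d)
    (hl : ∀ i : ℕ, i < 10 → lab D E G (i : ZMod 10) = dg 76875 i) : Con10 D E G := by
  have hk : d ≤ 6 := h.rh10 hl
  obtain ⟨a0, a1, a2, a3, a4, a5, a6, a7, a8, a9⟩ := hl10 hl
  obtain ⟨x0, y0, z0⟩ := h.toTr.m10lab3 (a0.trans rfl)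
  obtain ⟨x1, y1, z1⟩ := h.toTr.m10lab2 (a1.trans rfl)
  obtain ⟨x2, y2, z2⟩ := lab0 (a2.trans rfl)
  obtain ⟨x3, y3, z3⟩ := h.toTr.m10lab1 (a3.trans rfl)
  obtain ⟨x4, y4, z4⟩ := lab0 (a4.trans rfl)
  obtain ⟨x5, y5, z5⟩ := h.toTr.m10lab3 (a5.trans rfl)
  obtain ⟨x6, y6, z6⟩ := h.toTr.m10lab2 (a6.trans rfl)
  obtain ⟨x7, y7, z7⟩ := lab0 (a7.trans rfl)
  obtain ⟨x8, y8, z8⟩ := h.toTr.m10lab1 (a8.trans rfl)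
  obtain ⟨x9, y9, z9⟩ := lab0 (a9.trans rfl)
  have sD := h.toTr.s10
  have sE := h.toTr.rot.s10
  have sG := h.toTr.rot.rot.s10
  have pd := h.pos
  have v1 := dvd10 h.s1
  have v2 := dvd10 h.s2
  have r1 : (E 2 - G 2) + (E 4 - G 4) = (E 7 - G 7) + (E 9 - G 9) :=
    h.rd 3 8 (nz10 x3) (nz10 x8) 1
  have r2 : (E 1 - G 1) + (E 5 - G 5) = (E 6 - G 6) + (E 0 - G 0) :=
    h.rd 3 8 (nz10 x3) (nz10 x8) 2
  have r3 : (E 0 - G 0) + (E 6 - G 6) = (E 5 - G 5) + (E 1 - G 1) :=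
    h.rd 3 8 (nz10 x3) (nz10 x8) 3
  have r4 : (E 9 - G 9) + (E 7 - G 7) = (E 4 - G 4) + (E 2 - G 2) :=
    h.rd 3 8 (nz10 x3) (nz10 x8) 4
  have r5 : (E 8 - G 8) + (E 8 - G 8) = (E 3 - G 3) + (E 3 - G 3) :=
    h.rd 3 8 (nz10 x3) (nz10 x8) 5
  have r6 : (G 0 - D 0) + (G 2 - D 2) = (G 5 - D 5) + (G 7 - D 7) :=
    h.re 1 6 (nz10 y1) (nz10 y6) 1
  have r7 : (G 9 - D 9) + (G 3 - D 3) = (G 4 - D 4) + (G 8 - D 8) :=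
    h.re 1 6 (nz10 y1) (nz10 y6) 2
  have r8 : (G 8 - D 8) + (G 4 - D 4) = (G 3 - D 3) + (G 9 - D 9) :=
    h.re 1 6 (nz10 y1) (nz10 y6) 3
  have r9 : (G 7 - D 7) + (G 5 - D 5) = (G 2 - D 2) + (G 0 - D 0) :=
    h.re 1 6 (nz10 y1) (nz10 y6) 4
  have r10 : (G 6 - D 6) + (G 6 - D 6) = (G 1 - D 1) + (G 1 - D 1) :=
    h.re 1 6 (nz10 y1) (nz10 y6) 5
  have r11 : (D 9 - E 9) + (D 1 - E 1) = (D 4 - E 4) + (D 6 - E 6) :=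
    h.rg 0 5 (nz10 z0) (nz10 z5) 1
  have r12 : (D 8 - E 8) + (D 2 - E 2) = (D 3 - E 3) + (D 7 - E 7) :=
    h.rg 0 5 (nz10 z0) (nz10 z5) 2
  have r13 : (D 7 - E 7) + (D 3 - E 3) = (D 2 - E 2) + (D 8 - E 8) :=
    h.rg 0 5 (nz10 z0) (nz10 z5) 3
  have r14 : (D 6 - E 6) + (D 4 - E 4) = (D 1 - E 1) + (D 9 - E 9) :=
    h.rg 0 5 (nz10 z0) (nz10 z5) 4
  have r15 : (D 5 - E 5) + (D 5 - E 5) = (D 0 - E 0) + (D 0 - E 0) :=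
    h.rg 0 5 (nz10 z0) (nz10 z5) 5
  simp only [x0, x1, x2, x4, x5, x6, x7, x9, y0, y2, y3, y4, y5, y7, y8, y9, z1, z2, z3, z4, z6, z7, z8, z9, sub_zero, zero_sub, add_zero, zero_add, mul_zero, sub_self] at sD sE sG v1 v2 r1 r2 r3 r4 r5 r6 r7 r8 r9 r10 r11 r12 r13 r14 r15
  clear hl a0 a1 a2 a3 a4 a5 a6 a7 a8 a9
  clear x0 x1 x2 x4 x5 x6 x7 x9 y0 y2 y3 y4 y5 y7 y8 y9 z1 z2 z3 z4 z6 z7 z8 z9
  exfalso
  omega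

lemma cas_17291 (h : H10 D E G d)
    (hl : ∀ i : ℕ, i < 10 → lab D E G (i : ZMod 10) = dg 17291 i) : Con10 D E G := by
  have hk : d ≤ 5 := h.rh10 hl
  obtain ⟨a0, a1, a2, a3, a4, a5, a6, a7, a8, a9⟩ := hl10 hl
  obtain ⟨x0, y0, z0⟩ := h.toTr.m10lab3 (a0.trans rfl)
  obtain ⟨x1, y1, z1⟩ := h.toTr.m10lab2 (a1.trans rfl)
  obtain ⟨x2, y2, z2⟩ := lab0 (a2.trans rfl)
  obtain ⟨x3, y3, z3⟩ := h.toTr.m10lab2 (a3.trans rfl)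
  obtain ⟨x4, y4, z4⟩ := h.toTr.m10lab3 (a4.trans rfl)
  obtain ⟨x5, y5, z5⟩ := lab0 (a5.trans rfl)
  obtain ⟨x6, y6, z6⟩ := lab0 (a6.trans rfl)
  obtain ⟨x7, y7, z7⟩ := h.toTr.m10lab1 (a7.trans rfl)
  obtain ⟨x8, y8, z8⟩ := lab0 (a8.trans rfl)
  obtain ⟨x9, y9, z9⟩ := lab0 (a9.trans rfl)
  have sD := h.toTr.s10
  have sE := h.toTr.rot.s10
  have sG := h.toTr.rot.rot.s10
  have pd := h.pos
  have v1 := dvd10 h.s1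
  have v2 := dvd10 h.s2
  have r1 : (G 0 - D 0) + (G 2 - D 2) = (G 2 - D 2) + (G 4 - D 4) :=
    h.re 1 3 (nz10 y1) (nz10 y3) 1
  have r2 : (G 9 - D 9) + (G 3 - D 3) = (G 1 - D 1) + (G 5 - D 5) :=
    h.re 1 3 (nz10 y1) (nz10 y3) 2
  have r3 : (G 8 - D 8) + (G 4 - D 4) = (G 0 - D 0) + (G 6 - D 6) :=
    h.re 1 3 (nz10 y1) (nz10 y3) 3
  have r4 : (G 7 - D 7) + (G 5 - D 5) = (G 9 - D 9) + (G 7 - D 7) :=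
    h.re 1 3 (nz10 y1) (nz10 y3) 4
  have r5 : (G 6 - D 6) + (G 6 - D 6) = (G 8 - D 8) + (G 8 - D 8) :=
    h.re 1 3 (nz10 y1) (nz10 y3) 5
  have r6 : (D 9 - E 9) + (D 1 - E 1) = (D 3 - E 3) + (D 5 - E 5) :=
    h.rg 0 4 (nz10 z0) (nz10 z4) 1
  have r7 : (D 8 - E 8) + (D 2 - E 2) = (D 2 - E 2) + (D 6 - E 6) :=
    h.rg 0 4 (nz10 z0) (nz10 z4) 2
  have r8 : (D 7 - E 7) + (D 3 - E 3) = (D 1 - E 1) + (D 7 - E 7) :=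
    h.rg 0 4 (nz10 z0) (nz10 z4) 3
  have r9 : (D 6 - E 6) + (D 4 - E 4) = (D 0 - E 0) + (D 8 - E 8) :=
    h.rg 0 4 (nz10 z0) (nz10 z4) 4
  have r10 : (D 5 - E 5) + (D 5 - E 5) = (D 9 - E 9) + (D 9 - E 9) :=
    h.rg 0 4 (nz10 z0) (nz10 z4) 5
  simp only [x0, x1, x2, x3, x4, x5, x6, x8, x9, y0, y2, y4, y5, y6, y7, y8, y9, z1, z2, z3, z5, z6, z7, z8, z9, sub_zero, zero_sub, add_zero, zero_add, mul_zero, sub_self] at sD sE sG v1 v2 r1 r2 r3 r4 r5 r6 r7 r8 r9 r10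
  clear hl a0 a1 a2 a3 a4 a5 a6 a7 a8 a9
  have kD7 : D 7 = (E 3) * 2 := by
    clear x0 x1 x2 x3 x4 x5 x6 x8 x9 y0 y2 y4 y5 y6 y7 y8 y9 z1 z2 z3 z5 z6 z7 z8 z9
    omega
  have kE1 : E 1 = (E 3) * 1 := by
    clear x0 x1 x2 x3 x4 x5 x6 x8 x9 y0 y2 y4 y5 y6 y7 y8 y9 z1 z2 z3 z5 z6 z7 z8 z9
    omega
  have kE3 : E 3 = (E 3) * 1 := by
    clear x0 x1 x2 x3 x4 x5 x6 x8 x9 y0 y2 y4 y5 y6 y7 y8 y9 z1 z2 z3 z5 z6 z7 z8 z9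
    omega
  have kG0 : G 0 = (E 3) * 1 := by
    clear x0 x1 x2 x3 x4 x5 x6 x8 x9 y0 y2 y4 y5 y6 y7 y8 y9 z1 z2 z3 z5 z6 z7 z8 z9
    omega
  have kG4 : G 4 = (E 3) * 1 := by
    clear x0 x1 x2 x3 x4 x5 x6 x8 x9 y0 y2 y4 y5 y6 y7 y8 y9 z1 z2 z3 z5 z6 z7 z8 z9
    omega
  refine Or.inl ⟨4, 7, 4, 3, (E 3), by linarith, all10 ?_ ?_ ?_ ?_ ?_ ?_ ?_ ?_ ?_ ?_,
    all10 ?_ ?_ ?_ ?_ ?_ ?_ ?_ ?_ ?_ ?_, all10 ?_ ?_ ?_ ?_ ?_ ?_ ?_ ?_ ?_ ?_⟩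
  · show D 0 = (E 3) * 0
    rw [mul_zero]; exact x0
  · show D 1 = (E 3) * 0
    rw [mul_zero]; exact x1
  · show D 2 = (E 3) * 0
    rw [mul_zero]; exact x2
  · show D 3 = (E 3) * 0
    rw [mul_zero]; exact x3
  · show D 4 = (E 3) * 0
    rw [mul_zero]; exact x4
  · show D 5 = (E 3) * 0
    rw [mul_zero]; exact x5
  · show D 6 = (E 3) * 0
    rw [mul_zero]; exact x6
  · exact kD7
  · show D 8 = (E 3) * 0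
    rw [mul_zero]; exact x8
  · show D 9 = (E 3) * 0
    rw [mul_zero]; exact x9
  · show E 0 = (E 3) * 0
    rw [mul_zero]; exact y0
  · exact kE1
  · show E 2 = (E 3) * 0
    rw [mul_zero]; exact y2
  · exact kE3
  · show E 4 = (E 3) * 0
    rw [mul_zero]; exact y4
  · show E 5 = (E 3) * 0
    rw [mul_zero]; exact y5
  · show E 6 = (E 3) * 0
    rw [mul_zero]; exact y6
  · show E 7 = (E 3) * 0
    rw [mul_zero]; exact y7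
  · show E 8 = (E 3) * 0
    rw [mul_zero]; exact y8
  · show E 9 = (E 3) * 0
    rw [mul_zero]; exact y9
  · exact kG0
  · show G 1 = (E 3) * 0
    rw [mul_zero]; exact z1
  · show G 2 = (E 3) * 0
    rw [mul_zero]; exact z2
  · show G 3 = (E 3) * 0
    rw [mul_zero]; exact z3
  · exact kG4
  · show G 5 = (E 3) * 0
    rw [mul_zero]; exact z5
  · show G 6 = (E 3) * 0
    rw [mul_zero]; exact z6
  · show G 7 = (E 3) * 0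
    rw [mul_zero]; exact z7
  · show G 8 = (E 3) * 0
    rw [mul_zero]; exact z8
  · show G 9 = (E 3) * 0
    rw [mul_zero]; exact z9

lemma cas_70539 (h : H10 D E G d)
    (hl : ∀ i : ℕ, i < 10 → lab D E G (i : ZMod 10) = dg 70539 i) : Con10 D E G := by
  have hk : d ≤ 6 := h.rh10 hl
  obtain ⟨a0, a1, a2, a3, a4, a5, a6, a7, a8, a9⟩ := hl10 hl
  obtain ⟨x0, y0, z0⟩ := h.toTr.m10lab3 (a0.trans rfl)
  obtain ⟨x1, y1, z1⟩ := h.toTr.m10lab2 (a1.trans rfl)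
  obtain ⟨x2, y2, z2⟩ := lab0 (a2.trans rfl)
  obtain ⟨x3, y3, z3⟩ := h.toTr.m10lab2 (a3.trans rfl)
  obtain ⟨x4, y4, z4⟩ := h.toTr.m10lab3 (a4.trans rfl)
  obtain ⟨x5, y5, z5⟩ := lab0 (a5.trans rfl)
  obtain ⟨x6, y6, z6⟩ := h.toTr.m10lab1 (a6.trans rfl)
  obtain ⟨x7, y7, z7⟩ := lab0 (a7.trans rfl)
  obtain ⟨x8, y8, z8⟩ := h.toTr.m10lab1 (a8.trans rfl)
  obtain ⟨x9, y9, z9⟩ := lab0 (a9.trans rfl)
  have sD := h.toTr.s10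
  have sE := h.toTr.rot.s10
  have sG := h.toTr.rot.rot.s10
  have pd := h.pos
  have v1 := dvd10 h.s1
  have v2 := dvd10 h.s2
  have r1 : (E 5 - G 5) + (E 7 - G 7) = (E 7 - G 7) + (E 9 - G 9) :=
    h.rd 6 8 (nz10 x6) (nz10 x8) 1
  have r2 : (E 4 - G 4) + (E 8 - G 8) = (E 6 - G 6) + (E 0 - G 0) :=
    h.rd 6 8 (nz10 x6) (nz10 x8) 2
  have r3 : (E 3 - G 3) + (E 9 - G 9) = (E 5 - G 5) + (E 1 - G 1) :=
    h.rd 6 8 (nz10 x6) (nz10 x8) 3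
  have r4 : (E 2 - G 2) + (E 0 - G 0) = (E 4 - G 4) + (E 2 - G 2) :=
    h.rd 6 8 (nz10 x6) (nz10 x8) 4
  have r5 : (E 1 - G 1) + (E 1 - G 1) = (E 3 - G 3) + (E 3 - G 3) :=
    h.rd 6 8 (nz10 x6) (nz10 x8) 5
  have r6 : (G 0 - D 0) + (G 2 - D 2) = (G 2 - D 2) + (G 4 - D 4) :=
    h.re 1 3 (nz10 y1) (nz10 y3) 1
  have r7 : (G 9 - D 9) + (G 3 - D 3) = (G 1 - D 1) + (G 5 - D 5) :=
    h.re 1 3 (nz10 y1) (nz10 y3) 2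
  have r8 : (G 8 - D 8) + (G 4 - D 4) = (G 0 - D 0) + (G 6 - D 6) :=
    h.re 1 3 (nz10 y1) (nz10 y3) 3
  have r9 : (G 7 - D 7) + (G 5 - D 5) = (G 9 - D 9) + (G 7 - D 7) :=
    h.re 1 3 (nz10 y1) (nz10 y3) 4
  have r10 : (G 6 - D 6) + (G 6 - D 6) = (G 8 - D 8) + (G 8 - D 8) :=
    h.re 1 3 (nz10 y1) (nz10 y3) 5
  have r11 : (D 9 - E 9) + (D 1 - E 1) = (D 3 - E 3) + (D 5 - E 5) :=
    h.rg 0 4 (nz10 z0) (nz10 z4) 1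
  have r12 : (D 8 - E 8) + (D 2 - E 2) = (D 2 - E 2) + (D 6 - E 6) :=
    h.rg 0 4 (nz10 z0) (nz10 z4) 2
  have r13 : (D 7 - E 7) + (D 3 - E 3) = (D 1 - E 1) + (D 7 - E 7) :=
    h.rg 0 4 (nz10 z0) (nz10 z4) 3
  have r14 : (D 6 - E 6) + (D 4 - E 4) = (D 0 - E 0) + (D 8 - E 8) :=
    h.rg 0 4 (nz10 z0) (nz10 z4) 4
  have r15 : (D 5 - E 5) + (D 5 - E 5) = (D 9 - E 9) + (D 9 - E 9) :=
    h.rg 0 4 (nz10 z0) (nz10 z4) 5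
  simp only [x0, x1, x2, x3, x4, x5, x7, x9, y0, y2, y4, y5, y6, y7, y8, y9, z1, z2, z3, z5, z6, z7, z8, z9, sub_zero, zero_sub, add_zero, zero_add, mul_zero, sub_self] at sD sE sG v1 v2 r1 r2 r3 r4 r5 r6 r7 r8 r9 r10 r11 r12 r13 r14 r15
  clear hl a0 a1 a2 a3 a4 a5 a6 a7 a8 a9
  have kD6 : D 6 = (D 8) * 1 := by
    clear x0 x1 x2 x3 x4 x5 x7 x9 y0 y2 y4 y5 y6 y7 y8 y9 z1 z2 z3 z5 z6 z7 z8 z9
    omega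
  have kD8 : D 8 = (D 8) * 1 := by
    clear x0 x1 x2 x3 x4 x5 x7 x9 y0 y2 y4 y5 y6 y7 y8 y9 z1 z2 z3 z5 z6 z7 z8 z9
    omega
  have kE1 : E 1 = (D 8) * 1 := by
    clear x0 x1 x2 x3 x4 x5 x7 x9 y0 y2 y4 y5 y6 y7 y8 y9 z1 z2 z3 z5 z6 z7 z8 z9
    omega
  have kE3 : E 3 = (D 8) * 1 := by
    clear x0 x1 x2 x3 x4 x5 x7 x9 y0 y2 y4 y5 y6 y7 y8 y9 z1 z2 z3 z5 z6 z7 z8 z9
    omega
  have kG0 : G 0 = (D 8) * 1 := by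
    clear x0 x1 x2 x3 x4 x5 x7 x9 y0 y2 y4 y5 y6 y7 y8 y9 z1 z2 z3 z5 z6 z7 z8 z9
    omega
  have kG4 : G 4 = (D 8) * 1 := by
    clear x0 x1 x2 x3 x4 x5 x7 x9 y0 y2 y4 y5 y6 y7 y8 y9 z1 z2 z3 z5 z6 z7 z8 z9
    omega
  refine Or.inl ⟨4, 8, 4, 3, (D 8), by linarith, all10 ?_ ?_ ?_ ?_ ?_ ?_ ?_ ?_ ?_ ?_,
    all10 ?_ ?_ ?_ ?_ ?_ ?_ ?_ ?_ ?_ ?_, all10 ?_ ?_ ?_ ?_ ?_ ?_ ?_ ?_ ?_ ?_⟩
  · show D 0 = (D 8) * 0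
    rw [mul_zero]; exact x0
  · show D 1 = (D 8) * 0
    rw [mul_zero]; exact x1
  · show D 2 = (D 8) * 0
    rw [mul_zero]; exact x2
  · show D 3 = (D 8) * 0
    rw [mul_zero]; exact x3
  · show D 4 = (D 8) * 0
    rw [mul_zero]; exact x4
  · show D 5 = (D 8) * 0
    rw [mul_zero]; exact x5
  · exact kD6
  · show D 7 = (D 8) * 0
    rw [mul_zero]; exact x7
  · exact kD8
  · show D 9 = (D 8) * 0
    rw [mul_zero]; exact x9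
  · show E 0 = (D 8) * 0
    rw [mul_zero]; exact y0
  · exact kE1
  · show E 2 = (D 8) * 0
    rw [mul_zero]; exact y2
  · exact kE3
  · show E 4 = (D 8) * 0
    rw [mul_zero]; exact y4
  · show E 5 = (D 8) * 0
    rw [mul_zero]; exact y5
  · show E 6 = (D 8) * 0
    rw [mul_zero]; exact y6
  · show E 7 = (D 8) * 0
    rw [mul_zero]; exact y7
  · show E 8 = (D 8) * 0
    rw [mul_zero]; exact y8
  · show E 9 = (D 8) * 0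
    rw [mul_zero]; exact y9
  · exact kG0
  · show G 1 = (D 8) * 0
    rw [mul_zero]; exact z1
  · show G 2 = (D 8) * 0
    rw [mul_zero]; exact z2
  · show G 3 = (D 8) * 0
    rw [mul_zero]; exact z3
  · exact kG4
  · show G 5 = (D 8) * 0
    rw [mul_zero]; exact z5
  · show G 6 = (D 8) * 0
    rw [mul_zero]; exact z6
  · show G 7 = (D 8) * 0
    rw [mul_zero]; exact z7
  · show G 8 = (D 8) * 0
    rw [mul_zero]; exact z8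
  · show G 9 = (D 8) * 0
    rw [mul_zero]; exact z9

lemma cas_27 (h : H10 D E G d)
    (hl : ∀ i : ℕ, i < 10 → lab D E G (i : ZMod 10) = dg 27 i) : Con10 D E G := by
  have hk : d ≤ 3 := h.rh10 hl
  obtain ⟨a0, a1, a2, a3, a4, a5, a6, a7, a8, a9⟩ := hl10 hl
  obtain ⟨x0, y0, z0⟩ := h.toTr.m10lab3 (a0.trans rfl)
  obtain ⟨x1, y1, z1⟩ := h.toTr.m10lab2 (a1.trans rfl)
  obtain ⟨x2, y2, z2⟩ := h.toTr.m10lab1 (a2.trans rfl)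
  obtain ⟨x3, y3, z3⟩ := lab0 (a3.trans rfl)
  obtain ⟨x4, y4, z4⟩ := lab0 (a4.trans rfl)
  obtain ⟨x5, y5, z5⟩ := lab0 (a5.trans rfl)
  obtain ⟨x6, y6, z6⟩ := lab0 (a6.trans rfl)
  obtain ⟨x7, y7, z7⟩ := lab0 (a7.trans rfl)
  obtain ⟨x8, y8, z8⟩ := lab0 (a8.trans rfl)
  obtain ⟨x9, y9, z9⟩ := lab0 (a9.trans rfl)
  have sD := h.toTr.s10
  have sE := h.toTr.rot.s10
  have sG := h.toTr.rot.rot.s10
  have pd := h.pos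
  have v1 := dvd10 h.s1
  have v2 := dvd10 h.s2
  simp only [x0, x1, x3, x4, x5, x6, x7, x8, x9, y0, y2, y3, y4, y5, y6, y7, y8, y9, z1, z2, z3, z4, z5, z6, z7, z8, z9, sub_zero, zero_sub, add_zero, zero_add, mul_zero, sub_self] at sD sE sG v1 v2
  clear hl a0 a1 a2 a3 a4 a5 a6 a7 a8 a9
  clear x0 x1 x3 x4 x5 x6 x7 x8 x9 y0 y2 y3 y4 y5 y6 y7 y8 y9 z1 z2 z3 z4 z5 z6 z7 z8 z9
  exfalso
  omega

lemma cas_16411 (h : H10 D E G d)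
    (hl : ∀ i : ℕ, i < 10 → lab D E G (i : ZMod 10) = dg 16411 i) : Con10 D E G := by
  have hk : d ≤ 4 := h.rh10 hl
  obtain ⟨a0, a1, a2, a3, a4, a5, a6, a7, a8, a9⟩ := hl10 hl
  obtain ⟨x0, y0, z0⟩ := h.toTr.m10lab3 (a0.trans rfl)
  obtain ⟨x1, y1, z1⟩ := h.toTr.m10lab2 (a1.trans rfl)
  obtain ⟨x2, y2, z2⟩ := h.toTr.m10lab1 (a2.trans rfl)
  obtain ⟨x3, y3, z3⟩ := lab0 (a3.trans rfl)
  obtain ⟨x4, y4, z4⟩ := lab0 (a4.trans rfl)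
  obtain ⟨x5, y5, z5⟩ := lab0 (a5.trans rfl)
  obtain ⟨x6, y6, z6⟩ := lab0 (a6.trans rfl)
  obtain ⟨x7, y7, z7⟩ := h.toTr.m10lab1 (a7.trans rfl)
  obtain ⟨x8, y8, z8⟩ := lab0 (a8.trans rfl)
  obtain ⟨x9, y9, z9⟩ := lab0 (a9.trans rfl)
  have sD := h.toTr.s10
  have sE := h.toTr.rot.s10
  have sG := h.toTr.rot.rot.s10
  have pd := h.pos
  have v1 := dvd10 h.s1
  have v2 := dvd10 h.s2
  have r1 : (E 1 - G 1) + (E 3 - G 3) = (E 6 - G 6) + (E 8 - G 8) :=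
    h.rd 2 7 (nz10 x2) (nz10 x7) 1
  have r2 : (E 0 - G 0) + (E 4 - G 4) = (E 5 - G 5) + (E 9 - G 9) :=
    h.rd 2 7 (nz10 x2) (nz10 x7) 2
  have r3 : (E 9 - G 9) + (E 5 - G 5) = (E 4 - G 4) + (E 0 - G 0) :=
    h.rd 2 7 (nz10 x2) (nz10 x7) 3
  have r4 : (E 8 - G 8) + (E 6 - G 6) = (E 3 - G 3) + (E 1 - G 1) :=
    h.rd 2 7 (nz10 x2) (nz10 x7) 4
  have r5 : (E 7 - G 7) + (E 7 - G 7) = (E 2 - G 2) + (E 2 - G 2) :=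
    h.rd 2 7 (nz10 x2) (nz10 x7) 5
  simp only [x0, x1, x3, x4, x5, x6, x8, x9, y0, y2, y3, y4, y5, y6, y7, y8, y9, z1, z2, z3, z4, z5, z6, z7, z8, z9, sub_zero, zero_sub, add_zero, zero_add, mul_zero, sub_self] at sD sE sG v1 v2 r1 r2 r3 r4 r5
  clear hl a0 a1 a2 a3 a4 a5 a6 a7 a8 a9
  clear x0 x1 x3 x4 x5 x6 x8 x9 y0 y2 y3 y4 y5 y6 y7 y8 y9 z1 z2 z3 z4 z5 z6 z7 z8 z9
  exfalso
  omega

lemma cas_8219 (h : H10 D E G d)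
    (hl : ∀ i : ℕ, i < 10 → lab D E G (i : ZMod 10) = dg 8219 i) : Con10 D E G := by
  have hk : d ≤ 4 := h.rh10 hl
  obtain ⟨a0, a1, a2, a3, a4, a5, a6, a7, a8, a9⟩ := hl10 hl
  obtain ⟨x0, y0, z0⟩ := h.toTr.m10lab3 (a0.trans rfl)
  obtain ⟨x1, y1, z1⟩ := h.toTr.m10lab2 (a1.trans rfl)
  obtain ⟨x2, y2, z2⟩ := h.toTr.m10lab1 (a2.trans rfl)
  obtain ⟨x3, y3, z3⟩ := lab0 (a3.trans rfl)
  obtain ⟨x4, y4, z4⟩ := lab0 (a4.trans rfl)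
  obtain ⟨x5, y5, z5⟩ := lab0 (a5.trans rfl)
  obtain ⟨x6, y6, z6⟩ := h.toTr.m10lab2 (a6.trans rfl)
  obtain ⟨x7, y7, z7⟩ := lab0 (a7.trans rfl)
  obtain ⟨x8, y8, z8⟩ := lab0 (a8.trans rfl)
  obtain ⟨x9, y9, z9⟩ := lab0 (a9.trans rfl)
  have sD := h.toTr.s10
  have sE := h.toTr.rot.s10
  have sG := h.toTr.rot.rot.s10
  have pd := h.pos
  have v1 := dvd10 h.s1
  have v2 := dvd10 h.s2
  have r1 : (G 0 - D 0) + (G 2 - D 2) = (G 5 - D 5) + (G 7 - D 7) :=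
    h.re 1 6 (nz10 y1) (nz10 y6) 1
  have r2 : (G 9 - D 9) + (G 3 - D 3) = (G 4 - D 4) + (G 8 - D 8) :=
    h.re 1 6 (nz10 y1) (nz10 y6) 2
  have r3 : (G 8 - D 8) + (G 4 - D 4) = (G 3 - D 3) + (G 9 - D 9) :=
    h.re 1 6 (nz10 y1) (nz10 y6) 3
  have r4 : (G 7 - D 7) + (G 5 - D 5) = (G 2 - D 2) + (G 0 - D 0) :=
    h.re 1 6 (nz10 y1) (nz10 y6) 4
  have r5 : (G 6 - D 6) + (G 6 - D 6) = (G 1 - D 1) + (G 1 - D 1) :=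
    h.re 1 6 (nz10 y1) (nz10 y6) 5
  simp only [x0, x1, x3, x4, x5, x6, x7, x8, x9, y0, y2, y3, y4, y5, y7, y8, y9, z1, z2, z3, z4, z5, z6, z7, z8, z9, sub_zero, zero_sub, add_zero, zero_add, mul_zero, sub_self] at sD sE sG v1 v2 r1 r2 r3 r4 r5
  clear hl a0 a1 a2 a3 a4 a5 a6 a7 a8 a9
  clear x0 x1 x3 x4 x5 x6 x7 x8 x9 y0 y2 y3 y4 y5 y7 y8 y9 z1 z2 z3 z4 z5 z6 z7 z8 z9
  exfalso
  omega

lemma cas_24603 (h : H10 D E G d)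
    (hl : ∀ i : ℕ, i < 10 → lab D E G (i : ZMod 10) = dg 24603 i) : Con10 D E G := by
  have hk : d ≤ 5 := h.rh10 hl
  obtain ⟨a0, a1, a2, a3, a4, a5, a6, a7, a8, a9⟩ := hl10 hl
  obtain ⟨x0, y0, z0⟩ := h.toTr.m10lab3 (a0.trans rfl)
  obtain ⟨x1, y1, z1⟩ := h.toTr.m10lab2 (a1.trans rfl)
  obtain ⟨x2, y2, z2⟩ := h.toTr.m10lab1 (a2.trans rfl)
  obtain ⟨x3, y3, z3⟩ := lab0 (a3.trans rfl)
  obtain ⟨x4, y4, z4⟩ := lab0 (a4.trans rfl)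
  obtain ⟨x5, y5, z5⟩ := lab0 (a5.trans rfl)
  obtain ⟨x6, y6, z6⟩ := h.toTr.m10lab2 (a6.trans rfl)
  obtain ⟨x7, y7, z7⟩ := h.toTr.m10lab1 (a7.trans rfl)
  obtain ⟨x8, y8, z8⟩ := lab0 (a8.trans rfl)
  obtain ⟨x9, y9, z9⟩ := lab0 (a9.trans rfl)
  have sD := h.toTr.s10
  have sE := h.toTr.rot.s10
  have sG := h.toTr.rot.rot.s10
  have pd := h.pos
  have v1 := dvd10 h.s1
  have v2 := dvd10 h.s2
  have r1 : (E 1 - G 1) + (E 3 - G 3) = (E 6 - G 6) + (E 8 - G 8) :=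
    h.rd 2 7 (nz10 x2) (nz10 x7) 1
  have r2 : (E 0 - G 0) + (E 4 - G 4) = (E 5 - G 5) + (E 9 - G 9) :=
    h.rd 2 7 (nz10 x2) (nz10 x7) 2
  have r3 : (E 9 - G 9) + (E 5 - G 5) = (E 4 - G 4) + (E 0 - G 0) :=
    h.rd 2 7 (nz10 x2) (nz10 x7) 3
  have r4 : (E 8 - G 8) + (E 6 - G 6) = (E 3 - G 3) + (E 1 - G 1) :=
    h.rd 2 7 (nz10 x2) (nz10 x7) 4
  have r5 : (E 7 - G 7) + (E 7 - G 7) = (E 2 - G 2) + (E 2 - G 2) :=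
    h.rd 2 7 (nz10 x2) (nz10 x7) 5
  have r6 : (G 0 - D 0) + (G 2 - D 2) = (G 5 - D 5) + (G 7 - D 7) :=
    h.re 1 6 (nz10 y1) (nz10 y6) 1
  have r7 : (G 9 - D 9) + (G 3 - D 3) = (G 4 - D 4) + (G 8 - D 8) :=
    h.re 1 6 (nz10 y1) (nz10 y6) 2
  have r8 : (G 8 - D 8) + (G 4 - D 4) = (G 3 - D 3) + (G 9 - D 9) :=
    h.re 1 6 (nz10 y1) (nz10 y6) 3
  have r9 : (G 7 - D 7) + (G 5 - D 5) = (G 2 - D 2) + (G 0 - D 0) :=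
    h.re 1 6 (nz10 y1) (nz10 y6) 4
  have r10 : (G 6 - D 6) + (G 6 - D 6) = (G 1 - D 1) + (G 1 - D 1) :=
    h.re 1 6 (nz10 y1) (nz10 y6) 5
  simp only [x0, x1, x3, x4, x5, x6, x8, x9, y0, y2, y3, y4, y5, y7, y8, y9, z1, z2, z3, z4, z5, z6, z7, z8, z9, sub_zero, zero_sub, add_zero, zero_add, mul_zero, sub_self] at sD sE sG v1 v2 r1 r2 r3 r4 r5 r6 r7 r8 r9 r10
  clear hl a0 a1 a2 a3 a4 a5 a6 a7 a8 a9
  clear x0 x1 x3 x4 x5 x6 x8 x9 y0 y2 y3 y4 y5 y7 y8 y9 z1 z2 z3 z4 z5 z6 z7 z8 z9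
  exfalso
  omega

lemma cas_58395 (h : H10 D E G d)
    (hl : ∀ i : ℕ, i < 10 → lab D E G (i : ZMod 10) = dg 58395 i) : Con10 D E G := by
  have hk : d ≤ 6 := h.rh10 hl
  obtain ⟨a0, a1, a2, a3, a4, a5, a6, a7, a8, a9⟩ := hl10 hl
  obtain ⟨x0, y0, z0⟩ := h.toTr.m10lab3 (a0.trans rfl)
  obtain ⟨x1, y1, z1⟩ := h.toTr.m10lab2 (a1.trans rfl)
  obtain ⟨x2, y2, z2⟩ := h.toTr.m10lab1 (a2.trans rfl)
  obtain ⟨x3, y3, z3⟩ := lab0 (a3.trans rfl)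
  obtain ⟨x4, y4, z4⟩ := lab0 (a4.trans rfl)
  obtain ⟨x5, y5, z5⟩ := h.toTr.m10lab1 (a5.trans rfl)
  obtain ⟨x6, y6, z6⟩ := h.toTr.m10lab2 (a6.trans rfl)
  obtain ⟨x7, y7, z7⟩ := h.toTr.m10lab3 (a7.trans rfl)
  obtain ⟨x8, y8, z8⟩ := lab0 (a8.trans rfl)
  obtain ⟨x9, y9, z9⟩ := lab0 (a9.trans rfl)
  have sD := h.toTr.s10
  have sE := h.toTr.rot.s10
  have sG := h.toTr.rot.rot.s10
  have pd := h.pos
  have v1 := dvd10 h.s1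
  have v2 := dvd10 h.s2
  have r1 : (E 1 - G 1) + (E 3 - G 3) = (E 4 - G 4) + (E 6 - G 6) :=
    h.rd 2 5 (nz10 x2) (nz10 x5) 1
  have r2 : (E 0 - G 0) + (E 4 - G 4) = (E 3 - G 3) + (E 7 - G 7) :=
    h.rd 2 5 (nz10 x2) (nz10 x5) 2
  have r3 : (E 9 - G 9) + (E 5 - G 5) = (E 2 - G 2) + (E 8 - G 8) :=
    h.rd 2 5 (nz10 x2) (nz10 x5) 3
  have r4 : (E 8 - G 8) + (E 6 - G 6) = (E 1 - G 1) + (E 9 - G 9) :=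
    h.rd 2 5 (nz10 x2) (nz10 x5) 4
  have r5 : (E 7 - G 7) + (E 7 - G 7) = (E 0 - G 0) + (E 0 - G 0) :=
    h.rd 2 5 (nz10 x2) (nz10 x5) 5
  have r6 : (G 0 - D 0) + (G 2 - D 2) = (G 5 - D 5) + (G 7 - D 7) :=
    h.re 1 6 (nz10 y1) (nz10 y6) 1
  have r7 : (G 9 - D 9) + (G 3 - D 3) = (G 4 - D 4) + (G 8 - D 8) :=
    h.re 1 6 (nz10 y1) (nz10 y6) 2
  have r8 : (G 8 - D 8) + (G 4 - D 4) = (G 3 - D 3) + (G 9 - D 9) :=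
    h.re 1 6 (nz10 y1) (nz10 y6) 3
  have r9 : (G 7 - D 7) + (G 5 - D 5) = (G 2 - D 2) + (G 0 - D 0) :=
    h.re 1 6 (nz10 y1) (nz10 y6) 4
  have r10 : (G 6 - D 6) + (G 6 - D 6) = (G 1 - D 1) + (G 1 - D 1) :=
    h.re 1 6 (nz10 y1) (nz10 y6) 5
  have r11 : (D 9 - E 9) + (D 1 - E 1) = (D 6 - E 6) + (D 8 - E 8) :=
    h.rg 0 7 (nz10 z0) (nz10 z7) 1
  have r12 : (D 8 - E 8) + (D 2 - E 2) = (D 5 - E 5) + (D 9 - E 9) :=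
    h.rg 0 7 (nz10 z0) (nz10 z7) 2
  have r13 : (D 7 - E 7) + (D 3 - E 3) = (D 4 - E 4) + (D 0 - E 0) :=
    h.rg 0 7 (nz10 z0) (nz10 z7) 3
  have r14 : (D 6 - E 6) + (D 4 - E 4) = (D 3 - E 3) + (D 1 - E 1) :=
    h.rg 0 7 (nz10 z0) (nz10 z7) 4
  have r15 : (D 5 - E 5) + (D 5 - E 5) = (D 2 - E 2) + (D 2 - E 2) :=
    h.rg 0 7 (nz10 z0) (nz10 z7) 5
  simp only [x0, x1, x3, x4, x6, x7, x8, x9, y0, y2, y3, y4, y5, y7, y8, y9, z1, z2, z3, z4, z5, z6, z8, z9, sub_zero, zero_sub, add_zero, zero_add, mul_zero, sub_self] at sD sE sG v1 v2 r1 r2 r3 r4 r5 r6 r7 r8 r9 r10 r11 r12 r13 r14 r15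
  clear hl a0 a1 a2 a3 a4 a5 a6 a7 a8 a9
  have kD2 : D 2 = (D 5) * 1 := by
    clear x0 x1 x3 x4 x6 x7 x8 x9 y0 y2 y3 y4 y5 y7 y8 y9 z1 z2 z3 z4 z5 z6 z8 z9
    omega
  have kD5 : D 5 = (D 5) * 1 := by
    clear x0 x1 x3 x4 x6 x7 x8 x9 y0 y2 y3 y4 y5 y7 y8 y9 z1 z2 z3 z4 z5 z6 z8 z9
    omega
  have kE1 : E 1 = (D 5) * 1 := by
    clear x0 x1 x3 x4 x6 x7 x8 x9 y0 y2 y3 y4 y5 y7 y8 y9 z1 z2 z3 z4 z5 z6 z8 z9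
    omega
  have kE6 : E 6 = (D 5) * 1 := by
    clear x0 x1 x3 x4 x6 x7 x8 x9 y0 y2 y3 y4 y5 y7 y8 y9 z1 z2 z3 z4 z5 z6 z8 z9
    omega
  have kG0 : G 0 = (D 5) * 1 := by
    clear x0 x1 x3 x4 x6 x7 x8 x9 y0 y2 y3 y4 y5 y7 y8 y9 z1 z2 z3 z4 z5 z6 z8 z9
    omega
  have kG7 : G 7 = (D 5) * 1 := by
    clear x0 x1 x3 x4 x6 x7 x8 x9 y0 y2 y3 y4 y5 y7 y8 y9 z1 z2 z3 z4 z5 z6 z8 z9
    omega
  refine Or.inl ⟨7, 5, 7, 6, (D 5), by linarith, all10 ?_ ?_ ?_ ?_ ?_ ?_ ?_ ?_ ?_ ?_,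
    all10 ?_ ?_ ?_ ?_ ?_ ?_ ?_ ?_ ?_ ?_, all10 ?_ ?_ ?_ ?_ ?_ ?_ ?_ ?_ ?_ ?_⟩
  · show D 0 = (D 5) * 0
    rw [mul_zero]; exact x0
  · show D 1 = (D 5) * 0
    rw [mul_zero]; exact x1
  · exact kD2
  · show D 3 = (D 5) * 0
    rw [mul_zero]; exact x3
  · show D 4 = (D 5) * 0
    rw [mul_zero]; exact x4
  · exact kD5
  · show D 6 = (D 5) * 0
    rw [mul_zero]; exact x6
  · show D 7 = (D 5) * 0
    rw [mul_zero]; exact x7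
  · show D 8 = (D 5) * 0
    rw [mul_zero]; exact x8
  · show D 9 = (D 5) * 0
    rw [mul_zero]; exact x9
  · show E 0 = (D 5) * 0
    rw [mul_zero]; exact y0
  · exact kE1
  · show E 2 = (D 5) * 0
    rw [mul_zero]; exact y2
  · show E 3 = (D 5) * 0
    rw [mul_zero]; exact y3
  · show E 4 = (D 5) * 0
    rw [mul_zero]; exact y4
  · show E 5 = (D 5) * 0
    rw [mul_zero]; exact y5
  · exact kE6
  · show E 7 = (D 5) * 0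
    rw [mul_zero]; exact y7
  · show E 8 = (D 5) * 0
    rw [mul_zero]; exact y8
  · show E 9 = (D 5) * 0
    rw [mul_zero]; exact y9
  · exact kG0
  · show G 1 = (D 5) * 0
    rw [mul_zero]; exact z1
  · show G 2 = (D 5) * 0
    rw [mul_zero]; exact z2
  · show G 3 = (D 5) * 0
    rw [mul_zero]; exact z3
  · show G 4 = (D 5) * 0
    rw [mul_zero]; exact z4
  · show G 5 = (D 5) * 0
    rw [mul_zero]; exact z5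
  · show G 6 = (D 5) * 0
    rw [mul_zero]; exact z6
  · exact kG7
  · show G 8 = (D 5) * 0
    rw [mul_zero]; exact z8
  · show G 9 = (D 5) * 0
    rw [mul_zero]; exact z9

lemma cas_3099 (h : H10 D E G d)
    (hl : ∀ i : ℕ, i < 10 → lab D E G (i : ZMod 10) = dg 3099 i) : Con10 D E G := by
  have hk : d ≤ 4 := h.rh10 hl
  obtain ⟨a0, a1, a2, a3, a4, a5, a6, a7, a8, a9⟩ := hl10 hl
  obtain ⟨x0, y0, z0⟩ := h.toTr.m10lab3 (a0.trans rfl)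
  obtain ⟨x1, y1, z1⟩ := h.toTr.m10lab2 (a1.trans rfl)
  obtain ⟨x2, y2, z2⟩ := h.toTr.m10lab1 (a2.trans rfl)
  obtain ⟨x3, y3, z3⟩ := lab0 (a3.trans rfl)
  obtain ⟨x4, y4, z4⟩ := lab0 (a4.trans rfl)
  obtain ⟨x5, y5, z5⟩ := h.toTr.m10lab3 (a5.trans rfl)
  obtain ⟨x6, y6, z6⟩ := lab0 (a6.trans rfl)
  obtain ⟨x7, y7, z7⟩ := lab0 (a7.trans rfl)
  obtain ⟨x8, y8, z8⟩ := lab0 (a8.trans rfl)
  obtain ⟨x9, y9, z9⟩ := lab0 (a9.trans rfl)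
  have sD := h.toTr.s10
  have sE := h.toTr.rot.s10
  have sG := h.toTr.rot.rot.s10
  have pd := h.pos
  have v1 := dvd10 h.s1
  have v2 := dvd10 h.s2
  have r1 : (D 9 - E 9) + (D 1 - E 1) = (D 4 - E 4) + (D 6 - E 6) :=
    h.rg 0 5 (nz10 z0) (nz10 z5) 1
  have r2 : (D 8 - E 8) + (D 2 - E 2) = (D 3 - E 3) + (D 7 - E 7) :=
    h.rg 0 5 (nz10 z0) (nz10 z5) 2
  have r3 : (D 7 - E 7) + (D 3 - E 3) = (D 2 - E 2) + (D 8 - E 8) :=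
    h.rg 0 5 (nz10 z0) (nz10 z5) 3
  have r4 : (D 6 - E 6) + (D 4 - E 4) = (D 1 - E 1) + (D 9 - E 9) :=
    h.rg 0 5 (nz10 z0) (nz10 z5) 4
  have r5 : (D 5 - E 5) + (D 5 - E 5) = (D 0 - E 0) + (D 0 - E 0) :=
    h.rg 0 5 (nz10 z0) (nz10 z5) 5
  simp only [x0, x1, x3, x4, x5, x6, x7, x8, x9, y0, y2, y3, y4, y5, y6, y7, y8, y9, z1, z2, z3, z4, z6, z7, z8, z9, sub_zero, zero_sub, add_zero, zero_add, mul_zero, sub_self] at sD sE sG v1 v2 r1 r2 r3 r4 r5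
  clear hl a0 a1 a2 a3 a4 a5 a6 a7 a8 a9
  clear x0 x1 x3 x4 x5 x6 x7 x8 x9 y0 y2 y3 y4 y5 y6 y7 y8 y9 z1 z2 z3 z4 z6 z7 z8 z9
  exfalso
  omega

lemma cas_19483 (h : H10 D E G d)
    (hl : ∀ i : ℕ, i < 10 → lab D E G (i : ZMod 10) = dg 19483 i) : Con10 D E G := by
  have hk : d ≤ 5 := h.rh10 hl
  obtain ⟨a0, a1, a2, a3, a4, a5, a6, a7, a8, a9⟩ := hl10 hl
  obtain ⟨x0, y0, z0⟩ := h.toTr.m10lab3 (a0.trans rfl)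
  obtain ⟨x1, y1, z1⟩ := h.toTr.m10lab2 (a1.trans rfl)
  obtain ⟨x2, y2, z2⟩ := h.toTr.m10lab1 (a2.trans rfl)
  obtain ⟨x3, y3, z3⟩ := lab0 (a3.trans rfl)
  obtain ⟨x4, y4, z4⟩ := lab0 (a4.trans rfl)
  obtain ⟨x5, y5, z5⟩ := h.toTr.m10lab3 (a5.trans rfl)
  obtain ⟨x6, y6, z6⟩ := lab0 (a6.trans rfl)
  obtain ⟨x7, y7, z7⟩ := h.toTr.m10lab1 (a7.trans rfl)
  obtain ⟨x8, y8, z8⟩ := lab0 (a8.trans rfl)
  obtain ⟨x9, y9, z9⟩ := lab0 (a9.trans rfl)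
  have sD := h.toTr.s10
  have sE := h.toTr.rot.s10
  have sG := h.toTr.rot.rot.s10
  have pd := h.pos
  have v1 := dvd10 h.s1
  have v2 := dvd10 h.s2
  have r1 : (E 1 - G 1) + (E 3 - G 3) = (E 6 - G 6) + (E 8 - G 8) :=
    h.rd 2 7 (nz10 x2) (nz10 x7) 1
  have r2 : (E 0 - G 0) + (E 4 - G 4) = (E 5 - G 5) + (E 9 - G 9) :=
    h.rd 2 7 (nz10 x2) (nz10 x7) 2
  have r3 : (E 9 - G 9) + (E 5 - G 5) = (E 4 - G 4) + (E 0 - G 0) :=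
    h.rd 2 7 (nz10 x2) (nz10 x7) 3
  have r4 : (E 8 - G 8) + (E 6 - G 6) = (E 3 - G 3) + (E 1 - G 1) :=
    h.rd 2 7 (nz10 x2) (nz10 x7) 4
  have r5 : (E 7 - G 7) + (E 7 - G 7) = (E 2 - G 2) + (E 2 - G 2) :=
    h.rd 2 7 (nz10 x2) (nz10 x7) 5
  have r6 : (D 9 - E 9) + (D 1 - E 1) = (D 4 - E 4) + (D 6 - E 6) :=
    h.rg 0 5 (nz10 z0) (nz10 z5) 1
  have r7 : (D 8 - E 8) + (D 2 - E 2) = (D 3 - E 3) + (D 7 - E 7) :=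
    h.rg 0 5 (nz10 z0) (nz10 z5) 2
  have r8 : (D 7 - E 7) + (D 3 - E 3) = (D 2 - E 2) + (D 8 - E 8) :=
    h.rg 0 5 (nz10 z0) (nz10 z5) 3
  have r9 : (D 6 - E 6) + (D 4 - E 4) = (D 1 - E 1) + (D 9 - E 9) :=
    h.rg 0 5 (nz10 z0) (nz10 z5) 4
  have r10 : (D 5 - E 5) + (D 5 - E 5) = (D 0 - E 0) + (D 0 - E 0) :=
    h.rg 0 5 (nz10 z0) (nz10 z5) 5
  simp only [x0, x1, x3, x4, x5, x6, x8, x9, y0, y2, y3, y4, y5, y6, y7, y8, y9, z1, z2, z3, z4, z6, z7, z8, z9, sub_zero, zero_sub, add_zero, zero_add, mul_zero, sub_self] at sD sE sG v1 v2 r1 r2 r3 r4 r5 r6 r7 r8 r9 r10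
  clear hl a0 a1 a2 a3 a4 a5 a6 a7 a8 a9
  clear x0 x1 x3 x4 x5 x6 x8 x9 y0 y2 y3 y4 y5 y6 y7 y8 y9 z1 z2 z3 z4 z6 z7 z8 z9
  exfalso
  omega

lemma cas_11291 (h : H10 D E G d)
    (hl : ∀ i : ℕ, i < 10 → lab D E G (i : ZMod 10) = dg 11291 i) : Con10 D E G := by
  have hk : d ≤ 5 := h.rh10 hl
  obtain ⟨a0, a1, a2, a3, a4, a5, a6, a7, a8, a9⟩ := hl10 hl
  obtain ⟨x0, y0, z0⟩ := h.toTr.m10lab3 (a0.trans rfl)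
  obtain ⟨x1, y1, z1⟩ := h.toTr.m10lab2 (a1.trans rfl)
  obtain ⟨x2, y2, z2⟩ := h.toTr.m10lab1 (a2.trans rfl)
  obtain ⟨x3, y3, z3⟩ := lab0 (a3.trans rfl)
  obtain ⟨x4, y4, z4⟩ := lab0 (a4.trans rfl)
  obtain ⟨x5, y5, z5⟩ := h.toTr.m10lab3 (a5.trans rfl)
  obtain ⟨x6, y6, z6⟩ := h.toTr.m10lab2 (a6.trans rfl)
  obtain ⟨x7, y7, z7⟩ := lab0 (a7.trans rfl)
  obtain ⟨x8, y8, z8⟩ := lab0 (a8.trans rfl)
  obtain ⟨x9, y9, z9⟩ := lab0 (a9.trans rfl)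
  have sD := h.toTr.s10
  have sE := h.toTr.rot.s10
  have sG := h.toTr.rot.rot.s10
  have pd := h.pos
  have v1 := dvd10 h.s1
  have v2 := dvd10 h.s2
  have r1 : (G 0 - D 0) + (G 2 - D 2) = (G 5 - D 5) + (G 7 - D 7) :=
    h.re 1 6 (nz10 y1) (nz10 y6) 1
  have r2 : (G 9 - D 9) + (G 3 - D 3) = (G 4 - D 4) + (G 8 - D 8) :=
    h.re 1 6 (nz10 y1) (nz10 y6) 2
  have r3 : (G 8 - D 8) + (G 4 - D 4) = (G 3 - D 3) + (G 9 - D 9) :=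
    h.re 1 6 (nz10 y1) (nz10 y6) 3
  have r4 : (G 7 - D 7) + (G 5 - D 5) = (G 2 - D 2) + (G 0 - D 0) :=
    h.re 1 6 (nz10 y1) (nz10 y6) 4
  have r5 : (G 6 - D 6) + (G 6 - D 6) = (G 1 - D 1) + (G 1 - D 1) :=
    h.re 1 6 (nz10 y1) (nz10 y6) 5
  have r6 : (D 9 - E 9) + (D 1 - E 1) = (D 4 - E 4) + (D 6 - E 6) :=
    h.rg 0 5 (nz10 z0) (nz10 z5) 1
  have r7 : (D 8 - E 8) + (D 2 - E 2) = (D 3 - E 3) + (D 7 - E 7) :=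
    h.rg 0 5 (nz10 z0) (nz10 z5) 2
  have r8 : (D 7 - E 7) + (D 3 - E 3) = (D 2 - E 2) + (D 8 - E 8) :=
    h.rg 0 5 (nz10 z0) (nz10 z5) 3
  have r9 : (D 6 - E 6) + (D 4 - E 4) = (D 1 - E 1) + (D 9 - E 9) :=
    h.rg 0 5 (nz10 z0) (nz10 z5) 4
  have r10 : (D 5 - E 5) + (D 5 - E 5) = (D 0 - E 0) + (D 0 - E 0) :=
    h.rg 0 5 (nz10 z0) (nz10 z5) 5
  simp only [x0, x1, x3, x4, x5, x6, x7, x8, x9, y0, y2, y3, y4, y5, y7, y8, y9, z1, z2, z3, z4, z6, z7, z8, z9, sub_zero, zero_sub, add_zero, zero_add, mul_zero, sub_self] at sD sE sG v1 v2 r1 r2 r3 r4 r5 r6 r7 r8 r9 r10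
  clear hl a0 a1 a2 a3 a4 a5 a6 a7 a8 a9
  clear x0 x1 x3 x4 x5 x6 x7 x8 x9 y0 y2 y3 y4 y5 y7 y8 y9 z1 z2 z3 z4 z6 z7 z8 z9
  exfalso
  omega

lemma cas_27675 (h : H10 D E G d)
    (hl : ∀ i : ℕ, i < 10 → lab D E G (i : ZMod 10) = dg 27675 i) : Con10 D E G := by
  have hk : d ≤ 6 := h.rh10 hl
  obtain ⟨a0, a1, a2, a3, a4, a5, a6, a7, a8, a9⟩ := hl10 hl
  obtain ⟨x0, y0, z0⟩ := h.toTr.m10lab3 (a0.trans rfl)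
  obtain ⟨x1, y1, z1⟩ := h.toTr.m10lab2 (a1.trans rfl)
  obtain ⟨x2, y2, z2⟩ := h.toTr.m10lab1 (a2.trans rfl)
  obtain ⟨x3, y3, z3⟩ := lab0 (a3.trans rfl)
  obtain ⟨x4, y4, z4⟩ := lab0 (a4.trans rfl)
  obtain ⟨x5, y5, z5⟩ := h.toTr.m10lab3 (a5.trans rfl)
  obtain ⟨x6, y6, z6⟩ := h.toTr.m10lab2 (a6.trans rfl)
  obtain ⟨x7, y7, z7⟩ := h.toTr.m10lab1 (a7.trans rfl)
  obtain ⟨x8, y8, z8⟩ := lab0 (a8.trans rfl)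
  obtain ⟨x9, y9, z9⟩ := lab0 (a9.trans rfl)
  have sD := h.toTr.s10
  have sE := h.toTr.rot.s10
  have sG := h.toTr.rot.rot.s10
  have pd := h.pos
  have v1 := dvd10 h.s1
  have v2 := dvd10 h.s2
  have r1 : (E 1 - G 1) + (E 3 - G 3) = (E 6 - G 6) + (E 8 - G 8) :=
    h.rd 2 7 (nz10 x2) (nz10 x7) 1
  have r2 : (E 0 - G 0) + (E 4 - G 4) = (E 5 - G 5) + (E 9 - G 9) :=
    h.rd 2 7 (nz10 x2) (nz10 x7) 2
  have r3 : (E 9 - G 9) + (E 5 - G 5) = (E 4 - G 4) + (E 0 - G 0) :=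
    h.rd 2 7 (nz10 x2) (nz10 x7) 3
  have r4 : (E 8 - G 8) + (E 6 - G 6) = (E 3 - G 3) + (E 1 - G 1) :=
    h.rd 2 7 (nz10 x2) (nz10 x7) 4
  have r5 : (E 7 - G 7) + (E 7 - G 7) = (E 2 - G 2) + (E 2 - G 2) :=
    h.rd 2 7 (nz10 x2) (nz10 x7) 5
  have r6 : (G 0 - D 0) + (G 2 - D 2) = (G 5 - D 5) + (G 7 - D 7) :=
    h.re 1 6 (nz10 y1) (nz10 y6) 1
  have r7 : (G 9 - D 9) + (G 3 - D 3) = (G 4 - D 4) + (G 8 - D 8) :=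
    h.re 1 6 (nz10 y1) (nz10 y6) 2
  have r8 : (G 8 - D 8) + (G 4 - D 4) = (G 3 - D 3) + (G 9 - D 9) :=
    h.re 1 6 (nz10 y1) (nz10 y6) 3
  have r9 : (G 7 - D 7) + (G 5 - D 5) = (G 2 - D 2) + (G 0 - D 0) :=
    h.re 1 6 (nz10 y1) (nz10 y6) 4
  have r10 : (G 6 - D 6) + (G 6 - D 6) = (G 1 - D 1) + (G 1 - D 1) :=
    h.re 1 6 (nz10 y1) (nz10 y6) 5
  have r11 : (D 9 - E 9) + (D 1 - E 1) = (D 4 - E 4) + (D 6 - E 6) :=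
    h.rg 0 5 (nz10 z0) (nz10 z5) 1
  have r12 : (D 8 - E 8) + (D 2 - E 2) = (D 3 - E 3) + (D 7 - E 7) :=
    h.rg 0 5 (nz10 z0) (nz10 z5) 2
  have r13 : (D 7 - E 7) + (D 3 - E 3) = (D 2 - E 2) + (D 8 - E 8) :=
    h.rg 0 5 (nz10 z0) (nz10 z5) 3
  have r14 : (D 6 - E 6) + (D 4 - E 4) = (D 1 - E 1) + (D 9 - E 9) :=
    h.rg 0 5 (nz10 z0) (nz10 z5) 4
  have r15 : (D 5 - E 5) + (D 5 - E 5) = (D 0 - E 0) + (D 0 - E 0) :=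
    h.rg 0 5 (nz10 z0) (nz10 z5) 5
  simp only [x0, x1, x3, x4, x5, x6, x8, x9, y0, y2, y3, y4, y5, y7, y8, y9, z1, z2, z3, z4, z6, z7, z8, z9, sub_zero, zero_sub, add_zero, zero_add, mul_zero, sub_self] at sD sE sG v1 v2 r1 r2 r3 r4 r5 r6 r7 r8 r9 r10 r11 r12 r13 r14 r15
  clear hl a0 a1 a2 a3 a4 a5 a6 a7 a8 a9
  clear x0 x1 x3 x4 x5 x6 x8 x9 y0 y2 y3 y4 y5 y7 y8 y9 z1 z2 z3 z4 z6 z7 z8 z9
  exfalso
  omega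

lemma cas_14619 (h : H10 D E G d)
    (hl : ∀ i : ℕ, i < 10 → lab D E G (i : ZMod 10) = dg 14619 i) : Con10 D E G := by
  have hk : d ≤ 6 := h.rh10 hl
  obtain ⟨a0, a1, a2, a3, a4, a5, a6, a7, a8, a9⟩ := hl10 hl
  obtain ⟨x0, y0, z0⟩ := h.toTr.m10lab3 (a0.trans rfl)
  obtain ⟨x1, y1, z1⟩ := h.toTr.m10lab2 (a1.trans rfl)
  obtain ⟨x2, y2, z2⟩ := h.toTr.m10lab1 (a2.trans rfl)
  obtain ⟨x3, y3, z3⟩ := lab0 (a3.trans rfl)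
  obtain ⟨x4, y4, z4⟩ := h.toTr.m10lab1 (a4.trans rfl)
  obtain ⟨x5, y5, z5⟩ := h.toTr.m10lab2 (a5.trans rfl)
  obtain ⟨x6, y6, z6⟩ := h.toTr.m10lab3 (a6.trans rfl)
  obtain ⟨x7, y7, z7⟩ := lab0 (a7.trans rfl)
  obtain ⟨x8, y8, z8⟩ := lab0 (a8.trans rfl)
  obtain ⟨x9, y9, z9⟩ := lab0 (a9.trans rfl)
  have sD := h.toTr.s10
  have sE := h.toTr.rot.s10
  have sG := h.toTr.rot.rot.s10
  have pd := h.pos
  have v1 := dvd10 h.s1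
  have v2 := dvd10 h.s2
  have r1 : (E 1 - G 1) + (E 3 - G 3) = (E 3 - G 3) + (E 5 - G 5) :=
    h.rd 2 4 (nz10 x2) (nz10 x4) 1
  have r2 : (E 0 - G 0) + (E 4 - G 4) = (E 2 - G 2) + (E 6 - G 6) :=
    h.rd 2 4 (nz10 x2) (nz10 x4) 2
  have r3 : (E 9 - G 9) + (E 5 - G 5) = (E 1 - G 1) + (E 7 - G 7) :=
    h.rd 2 4 (nz10 x2) (nz10 x4) 3
  have r4 : (E 8 - G 8) + (E 6 - G 6) = (E 0 - G 0) + (E 8 - G 8) :=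
    h.rd 2 4 (nz10 x2) (nz10 x4) 4
  have r5 : (E 7 - G 7) + (E 7 - G 7) = (E 9 - G 9) + (E 9 - G 9) :=
    h.rd 2 4 (nz10 x2) (nz10 x4) 5
  have r6 : (G 0 - D 0) + (G 2 - D 2) = (G 4 - D 4) + (G 6 - D 6) :=
    h.re 1 5 (nz10 y1) (nz10 y5) 1
  have r7 : (G 9 - D 9) + (G 3 - D 3) = (G 3 - D 3) + (G 7 - D 7) :=
    h.re 1 5 (nz10 y1) (nz10 y5) 2
  have r8 : (G 8 - D 8) + (G 4 - D 4) = (G 2 - D 2) + (G 8 - D 8) :=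
    h.re 1 5 (nz10 y1) (nz10 y5) 3
  have r9 : (G 7 - D 7) + (G 5 - D 5) = (G 1 - D 1) + (G 9 - D 9) :=
    h.re 1 5 (nz10 y1) (nz10 y5) 4
  have r10 : (G 6 - D 6) + (G 6 - D 6) = (G 0 - D 0) + (G 0 - D 0) :=
    h.re 1 5 (nz10 y1) (nz10 y5) 5
  have r11 : (D 9 - E 9) + (D 1 - E 1) = (D 5 - E 5) + (D 7 - E 7) :=
    h.rg 0 6 (nz10 z0) (nz10 z6) 1
  have r12 : (D 8 - E 8) + (D 2 - E 2) = (D 4 - E 4) + (D 8 - E 8) :=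
    h.rg 0 6 (nz10 z0) (nz10 z6) 2
  have r13 : (D 7 - E 7) + (D 3 - E 3) = (D 3 - E 3) + (D 9 - E 9) :=
    h.rg 0 6 (nz10 z0) (nz10 z6) 3
  have r14 : (D 6 - E 6) + (D 4 - E 4) = (D 2 - E 2) + (D 0 - E 0) :=
    h.rg 0 6 (nz10 z0) (nz10 z6) 4
  have r15 : (D 5 - E 5) + (D 5 - E 5) = (D 1 - E 1) + (D 1 - E 1) :=
    h.rg 0 6 (nz10 z0) (nz10 z6) 5
  simp only [x0, x1, x3, x5, x6, x7, x8, x9, y0, y2, y3, y4, y6, y7, y8, y9, z1, z2, z3, z4, z5, z7, z8, z9, sub_zero, zero_sub, add_zero, zero_add, mul_zero, sub_self] at sD sE sG v1 v2 r1 r2 r3 r4 r5 r6 r7 r8 r9 r10 r11 r12 r13 r14 r15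
  clear hl a0 a1 a2 a3 a4 a5 a6 a7 a8 a9
  have kD2 : D 2 = (D 4) * 1 := by
    clear x0 x1 x3 x5 x6 x7 x8 x9 y0 y2 y3 y4 y6 y7 y8 y9 z1 z2 z3 z4 z5 z7 z8 z9
    omega
  have kD4 : D 4 = (D 4) * 1 := by
    clear x0 x1 x3 x5 x6 x7 x8 x9 y0 y2 y3 y4 y6 y7 y8 y9 z1 z2 z3 z4 z5 z7 z8 z9
    omega
  have kE1 : E 1 = (D 4) * 1 := by
    clear x0 x1 x3 x5 x6 x7 x8 x9 y0 y2 y3 y4 y6 y7 y8 y9 z1 z2 z3 z4 z5 z7 z8 z9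
    omega
  have kE5 : E 5 = (D 4) * 1 := by
    clear x0 x1 x3 x5 x6 x7 x8 x9 y0 y2 y3 y4 y6 y7 y8 y9 z1 z2 z3 z4 z5 z7 z8 z9
    omega
  have kG0 : G 0 = (D 4) * 1 := by
    clear x0 x1 x3 x5 x6 x7 x8 x9 y0 y2 y3 y4 y6 y7 y8 y9 z1 z2 z3 z4 z5 z7 z8 z9
    omega
  have kG6 : G 6 = (D 4) * 1 := by
    clear x0 x1 x3 x5 x6 x7 x8 x9 y0 y2 y3 y4 y6 y7 y8 y9 z1 z2 z3 z4 z5 z7 z8 z9
    omega
  refine Or.inl ⟨6, 4, 6, 5, (D 4), by linarith, all10 ?_ ?_ ?_ ?_ ?_ ?_ ?_ ?_ ?_ ?_,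
    all10 ?_ ?_ ?_ ?_ ?_ ?_ ?_ ?_ ?_ ?_, all10 ?_ ?_ ?_ ?_ ?_ ?_ ?_ ?_ ?_ ?_⟩
  · show D 0 = (D 4) * 0
    rw [mul_zero]; exact x0
  · show D 1 = (D 4) * 0
    rw [mul_zero]; exact x1
  · exact kD2
  · show D 3 = (D 4) * 0
    rw [mul_zero]; exact x3
  · exact kD4
  · show D 5 = (D 4) * 0
    rw [mul_zero]; exact x5
  · show D 6 = (D 4) * 0
    rw [mul_zero]; exact x6
  · show D 7 = (D 4) * 0
    rw [mul_zero]; exact x7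
  · show D 8 = (D 4) * 0
    rw [mul_zero]; exact x8
  · show D 9 = (D 4) * 0
    rw [mul_zero]; exact x9
  · show E 0 = (D 4) * 0
    rw [mul_zero]; exact y0
  · exact kE1
  · show E 2 = (D 4) * 0
    rw [mul_zero]; exact y2
  · show E 3 = (D 4) * 0
    rw [mul_zero]; exact y3
  · show E 4 = (D 4) * 0
    rw [mul_zero]; exact y4
  · exact kE5
  · show E 6 = (D 4) * 0
    rw [mul_zero]; exact y6
  · show E 7 = (D 4) * 0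
    rw [mul_zero]; exact y7
  · show E 8 = (D 4) * 0
    rw [mul_zero]; exact y8
  · show E 9 = (D 4) * 0
    rw [mul_zero]; exact y9
  · exact kG0
  · show G 1 = (D 4) * 0
    rw [mul_zero]; exact z1
  · show G 2 = (D 4) * 0
    rw [mul_zero]; exact z2
  · show G 3 = (D 4) * 0
    rw [mul_zero]; exact z3
  · show G 4 = (D 4) * 0
    rw [mul_zero]; exact z4
  · show G 5 = (D 4) * 0
    rw [mul_zero]; exact z5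
  · exact kG6
  · show G 7 = (D 4) * 0
    rw [mul_zero]; exact z7
  · show G 8 = (D 4) * 0
    rw [mul_zero]; exact z8
  · show G 9 = (D 4) * 0
    rw [mul_zero]; exact z9

lemma cas_4155 (h : H10 D E G d)
    (hl : ∀ i : ℕ, i < 10 → lab D E G (i : ZMod 10) = dg 4155 i) : Con10 D E G := by
  have hk : d ≤ 4 := h.rh10 hl
  obtain ⟨a0, a1, a2, a3, a4, a5, a6, a7, a8, a9⟩ := hl10 hl
  obtain ⟨x0, y0, z0⟩ := h.toTr.m10lab3 (a0.trans rfl)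
  obtain ⟨x1, y1, z1⟩ := h.toTr.m10lab2 (a1.trans rfl)
  obtain ⟨x2, y2, z2⟩ := h.toTr.m10lab3 (a2.trans rfl)
  obtain ⟨x3, y3, z3⟩ := lab0 (a3.trans rfl)
  obtain ⟨x4, y4, z4⟩ := lab0 (a4.trans rfl)
  obtain ⟨x5, y5, z5⟩ := lab0 (a5.trans rfl)
  obtain ⟨x6, y6, z6⟩ := h.toTr.m10lab1 (a6.trans rfl)
  obtain ⟨x7, y7, z7⟩ := lab0 (a7.trans rfl)
  obtain ⟨x8, y8, z8⟩ := lab0 (a8.trans rfl)
  obtain ⟨x9, y9, z9⟩ := lab0 (a9.trans rfl)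
  have sD := h.toTr.s10
  have sE := h.toTr.rot.s10
  have sG := h.toTr.rot.rot.s10
  have pd := h.pos
  have v1 := dvd10 h.s1
  have v2 := dvd10 h.s2
  have r1 : (D 9 - E 9) + (D 1 - E 1) = (D 1 - E 1) + (D 3 - E 3) :=
    h.rg 0 2 (nz10 z0) (nz10 z2) 1
  have r2 : (D 8 - E 8) + (D 2 - E 2) = (D 0 - E 0) + (D 4 - E 4) :=
    h.rg 0 2 (nz10 z0) (nz10 z2) 2
  have r3 : (D 7 - E 7) + (D 3 - E 3) = (D 9 - E 9) + (D 5 - E 5) :=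
    h.rg 0 2 (nz10 z0) (nz10 z2) 3
  have r4 : (D 6 - E 6) + (D 4 - E 4) = (D 8 - E 8) + (D 6 - E 6) :=
    h.rg 0 2 (nz10 z0) (nz10 z2) 4
  have r5 : (D 5 - E 5) + (D 5 - E 5) = (D 7 - E 7) + (D 7 - E 7) :=
    h.rg 0 2 (nz10 z0) (nz10 z2) 5
  simp only [x0, x1, x2, x3, x4, x5, x7, x8, x9, y0, y2, y3, y4, y5, y6, y7, y8, y9, z1, z3, z4, z5, z6, z7, z8, z9, sub_zero, zero_sub, add_zero, zero_add, mul_zero, sub_self] at sD sE sG v1 v2 r1 r2 r3 r4 r5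
  clear hl a0 a1 a2 a3 a4 a5 a6 a7 a8 a9
  have kD6 : D 6 = (G 2) * 2 := by
    clear x0 x1 x2 x3 x4 x5 x7 x8 x9 y0 y2 y3 y4 y5 y6 y7 y8 y9 z1 z3 z4 z5 z6 z7 z8 z9
    omega
  have kE1 : E 1 = (G 2) * 2 := by
    clear x0 x1 x2 x3 x4 x5 x7 x8 x9 y0 y2 y3 y4 y5 y6 y7 y8 y9 z1 z3 z4 z5 z6 z7 z8 z9
    omega
  have kG0 : G 0 = (G 2) * 1 := by
    clear x0 x1 x2 x3 x4 x5 x7 x8 x9 y0 y2 y3 y4 y5 y6 y7 y8 y9 z1 z3 z4 z5 z6 z7 z8 z9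
    omega
  have kG2 : G 2 = (G 2) * 1 := by
    clear x0 x1 x2 x3 x4 x5 x7 x8 x9 y0 y2 y3 y4 y5 y6 y7 y8 y9 z1 z3 z4 z5 z6 z7 z8 z9
    omega
  refine Or.inl ⟨2, 6, 2, 1, (G 2), by linarith, all10 ?_ ?_ ?_ ?_ ?_ ?_ ?_ ?_ ?_ ?_,
    all10 ?_ ?_ ?_ ?_ ?_ ?_ ?_ ?_ ?_ ?_, all10 ?_ ?_ ?_ ?_ ?_ ?_ ?_ ?_ ?_ ?_⟩
  · show D 0 = (G 2) * 0
    rw [mul_zero]; exact x0
  · show D 1 = (G 2) * 0
    rw [mul_zero]; exact x1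
  · show D 2 = (G 2) * 0
    rw [mul_zero]; exact x2
  · show D 3 = (G 2) * 0
    rw [mul_zero]; exact x3
  · show D 4 = (G 2) * 0
    rw [mul_zero]; exact x4
  · show D 5 = (G 2) * 0
    rw [mul_zero]; exact x5
  · exact kD6
  · show D 7 = (G 2) * 0
    rw [mul_zero]; exact x7
  · show D 8 = (G 2) * 0
    rw [mul_zero]; exact x8
  · show D 9 = (G 2) * 0
    rw [mul_zero]; exact x9
  · show E 0 = (G 2) * 0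
    rw [mul_zero]; exact y0
  · exact kE1
  · show E 2 = (G 2) * 0
    rw [mul_zero]; exact y2
  · show E 3 = (G 2) * 0
    rw [mul_zero]; exact y3
  · show E 4 = (G 2) * 0
    rw [mul_zero]; exact y4
  · show E 5 = (G 2) * 0
    rw [mul_zero]; exact y5
  · show E 6 = (G 2) * 0
    rw [mul_zero]; exact y6
  · show E 7 = (G 2) * 0
    rw [mul_zero]; exact y7
  · show E 8 = (G 2) * 0
    rw [mul_zero]; exact y8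
  · show E 9 = (G 2) * 0
    rw [mul_zero]; exact y9
  · exact kG0
  · show G 1 = (G 2) * 0
    rw [mul_zero]; exact z1
  · exact kG2
  · show G 3 = (G 2) * 0
    rw [mul_zero]; exact z3
  · show G 4 = (G 2) * 0
    rw [mul_zero]; exact z4
  · show G 5 = (G 2) * 0
    rw [mul_zero]; exact z5
  · show G 6 = (G 2) * 0
    rw [mul_zero]; exact z6
  · show G 7 = (G 2) * 0
    rw [mul_zero]; exact z7
  · show G 8 = (G 2) * 0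
    rw [mul_zero]; exact z8
  · show G 9 = (G 2) * 0
    rw [mul_zero]; exact z9

lemma cas_17467 (h : H10 D E G d)
    (hl : ∀ i : ℕ, i < 10 → lab D E G (i : ZMod 10) = dg 17467 i) : Con10 D E G := by
  have hk : d ≤ 5 := h.rh10 hl
  obtain ⟨a0, a1, a2, a3, a4, a5, a6, a7, a8, a9⟩ := hl10 hl
  obtain ⟨x0, y0, z0⟩ := h.toTr.m10lab3 (a0.trans rfl)
  obtain ⟨x1, y1, z1⟩ := h.toTr.m10lab2 (a1.trans rfl)
  obtain ⟨x2, y2, z2⟩ := h.toTr.m10lab3 (a2.trans rfl)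
  obtain ⟨x3, y3, z3⟩ := lab0 (a3.trans rfl)
  obtain ⟨x4, y4, z4⟩ := lab0 (a4.trans rfl)
  obtain ⟨x5, y5, z5⟩ := h.toTr.m10lab1 (a5.trans rfl)
  obtain ⟨x6, y6, z6⟩ := lab0 (a6.trans rfl)
  obtain ⟨x7, y7, z7⟩ := h.toTr.m10lab1 (a7.trans rfl)
  obtain ⟨x8, y8, z8⟩ := lab0 (a8.trans rfl)
  obtain ⟨x9, y9, z9⟩ := lab0 (a9.trans rfl)
  have sD := h.toTr.s10
  have sE := h.toTr.rot.s10
  have sG := h.toTr.rot.rot.s10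
  have pd := h.pos
  have v1 := dvd10 h.s1
  have v2 := dvd10 h.s2
  have r1 : (E 4 - G 4) + (E 6 - G 6) = (E 6 - G 6) + (E 8 - G 8) :=
    h.rd 5 7 (nz10 x5) (nz10 x7) 1
  have r2 : (E 3 - G 3) + (E 7 - G 7) = (E 5 - G 5) + (E 9 - G 9) :=
    h.rd 5 7 (nz10 x5) (nz10 x7) 2
  have r3 : (E 2 - G 2) + (E 8 - G 8) = (E 4 - G 4) + (E 0 - G 0) :=
    h.rd 5 7 (nz10 x5) (nz10 x7) 3
  have r4 : (E 1 - G 1) + (E 9 - G 9) = (E 3 - G 3) + (E 1 - G 1) :=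
    h.rd 5 7 (nz10 x5) (nz10 x7) 4
  have r5 : (E 0 - G 0) + (E 0 - G 0) = (E 2 - G 2) + (E 2 - G 2) :=
    h.rd 5 7 (nz10 x5) (nz10 x7) 5
  have r6 : (D 9 - E 9) + (D 1 - E 1) = (D 1 - E 1) + (D 3 - E 3) :=
    h.rg 0 2 (nz10 z0) (nz10 z2) 1
  have r7 : (D 8 - E 8) + (D 2 - E 2) = (D 0 - E 0) + (D 4 - E 4) :=
    h.rg 0 2 (nz10 z0) (nz10 z2) 2
  have r8 : (D 7 - E 7) + (D 3 - E 3) = (D 9 - E 9) + (D 5 - E 5) :=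
    h.rg 0 2 (nz10 z0) (nz10 z2) 3
  have r9 : (D 6 - E 6) + (D 4 - E 4) = (D 8 - E 8) + (D 6 - E 6) :=
    h.rg 0 2 (nz10 z0) (nz10 z2) 4
  have r10 : (D 5 - E 5) + (D 5 - E 5) = (D 7 - E 7) + (D 7 - E 7) :=
    h.rg 0 2 (nz10 z0) (nz10 z2) 5
  simp only [x0, x1, x2, x3, x4, x6, x8, x9, y0, y2, y3, y4, y5, y6, y7, y8, y9, z1, z3, z4, z5, z6, z7, z8, z9, sub_zero, zero_sub, add_zero, zero_add, mul_zero, sub_self] at sD sE sG v1 v2 r1 r2 r3 r4 r5 r6 r7 r8 r9 r10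
  clear hl a0 a1 a2 a3 a4 a5 a6 a7 a8 a9
  have kD5 : D 5 = (D 7) * 1 := by
    clear x0 x1 x2 x3 x4 x6 x8 x9 y0 y2 y3 y4 y5 y6 y7 y8 y9 z1 z3 z4 z5 z6 z7 z8 z9
    omega
  have kD7 : D 7 = (D 7) * 1 := by
    clear x0 x1 x2 x3 x4 x6 x8 x9 y0 y2 y3 y4 y5 y6 y7 y8 y9 z1 z3 z4 z5 z6 z7 z8 z9
    omega
  have kE1 : E 1 = (D 7) * 2 := by
    clear x0 x1 x2 x3 x4 x6 x8 x9 y0 y2 y3 y4 y5 y6 y7 y8 y9 z1 z3 z4 z5 z6 z7 z8 z9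
    omega
  have kG0 : G 0 = (D 7) * 1 := by
    clear x0 x1 x2 x3 x4 x6 x8 x9 y0 y2 y3 y4 y5 y6 y7 y8 y9 z1 z3 z4 z5 z6 z7 z8 z9
    omega
  have kG2 : G 2 = (D 7) * 1 := by
    clear x0 x1 x2 x3 x4 x6 x8 x9 y0 y2 y3 y4 y5 y6 y7 y8 y9 z1 z3 z4 z5 z6 z7 z8 z9
    omega
  refine Or.inl ⟨2, 7, 2, 1, (D 7), by linarith, all10 ?_ ?_ ?_ ?_ ?_ ?_ ?_ ?_ ?_ ?_,
    all10 ?_ ?_ ?_ ?_ ?_ ?_ ?_ ?_ ?_ ?_, all10 ?_ ?_ ?_ ?_ ?_ ?_ ?_ ?_ ?_ ?_⟩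
  · show D 0 = (D 7) * 0
    rw [mul_zero]; exact x0
  · show D 1 = (D 7) * 0
    rw [mul_zero]; exact x1
  · show D 2 = (D 7) * 0
    rw [mul_zero]; exact x2
  · show D 3 = (D 7) * 0
    rw [mul_zero]; exact x3
  · show D 4 = (D 7) * 0
    rw [mul_zero]; exact x4
  · exact kD5
  · show D 6 = (D 7) * 0
    rw [mul_zero]; exact x6
  · exact kD7
  · show D 8 = (D 7) * 0
    rw [mul_zero]; exact x8
  · show D 9 = (D 7) * 0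
    rw [mul_zero]; exact x9
  · show E 0 = (D 7) * 0
    rw [mul_zero]; exact y0
  · exact kE1
  · show E 2 = (D 7) * 0
    rw [mul_zero]; exact y2
  · show E 3 = (D 7) * 0
    rw [mul_zero]; exact y3
  · show E 4 = (D 7) * 0
    rw [mul_zero]; exact y4
  · show E 5 = (D 7) * 0
    rw [mul_zero]; exact y5
  · show E 6 = (D 7) * 0
    rw [mul_zero]; exact y6
  · show E 7 = (D 7) * 0
    rw [mul_zero]; exact y7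
  · show E 8 = (D 7) * 0
    rw [mul_zero]; exact y8
  · show E 9 = (D 7) * 0
    rw [mul_zero]; exact y9
  · exact kG0
  · show G 1 = (D 7) * 0
    rw [mul_zero]; exact z1
  · exact kG2
  · show G 3 = (D 7) * 0
    rw [mul_zero]; exact z3
  · show G 4 = (D 7) * 0
    rw [mul_zero]; exact z4
  · show G 5 = (D 7) * 0
    rw [mul_zero]; exact z5
  · show G 6 = (D 7) * 0
    rw [mul_zero]; exact z6
  · show G 7 = (D 7) * 0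
    rw [mul_zero]; exact z7
  · show G 8 = (D 7) * 0
    rw [mul_zero]; exact z8
  · show G 9 = (D 7) * 0
    rw [mul_zero]; exact z9

lemma cas_25659 (h : H10 D E G d)
    (hl : ∀ i : ℕ, i < 10 → lab D E G (i : ZMod 10) = dg 25659 i) : Con10 D E G := by
  have hk : d ≤ 6 := h.rh10 hl
  obtain ⟨a0, a1, a2, a3, a4, a5, a6, a7, a8, a9⟩ := hl10 hl
  obtain ⟨x0, y0, z0⟩ := h.toTr.m10lab3 (a0.trans rfl)
  obtain ⟨x1, y1, z1⟩ := h.toTr.m10lab2 (a1.trans rfl)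
  obtain ⟨x2, y2, z2⟩ := h.toTr.m10lab3 (a2.trans rfl)
  obtain ⟨x3, y3, z3⟩ := lab0 (a3.trans rfl)
  obtain ⟨x4, y4, z4⟩ := lab0 (a4.trans rfl)
  obtain ⟨x5, y5, z5⟩ := h.toTr.m10lab1 (a5.trans rfl)
  obtain ⟨x6, y6, z6⟩ := h.toTr.m10lab2 (a6.trans rfl)
  obtain ⟨x7, y7, z7⟩ := h.toTr.m10lab1 (a7.trans rfl)
  obtain ⟨x8, y8, z8⟩ := lab0 (a8.trans rfl)
  obtain ⟨x9, y9, z9⟩ := lab0 (a9.trans rfl)
  have sD := h.toTr.s10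
  have sE := h.toTr.rot.s10
  have sG := h.toTr.rot.rot.s10
  have pd := h.pos
  have v1 := dvd10 h.s1
  have v2 := dvd10 h.s2
  have r1 : (E 4 - G 4) + (E 6 - G 6) = (E 6 - G 6) + (E 8 - G 8) :=
    h.rd 5 7 (nz10 x5) (nz10 x7) 1
  have r2 : (E 3 - G 3) + (E 7 - G 7) = (E 5 - G 5) + (E 9 - G 9) :=
    h.rd 5 7 (nz10 x5) (nz10 x7) 2
  have r3 : (E 2 - G 2) + (E 8 - G 8) = (E 4 - G 4) + (E 0 - G 0) :=
    h.rd 5 7 (nz10 x5) (nz10 x7) 3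
  have r4 : (E 1 - G 1) + (E 9 - G 9) = (E 3 - G 3) + (E 1 - G 1) :=
    h.rd 5 7 (nz10 x5) (nz10 x7) 4
  have r5 : (E 0 - G 0) + (E 0 - G 0) = (E 2 - G 2) + (E 2 - G 2) :=
    h.rd 5 7 (nz10 x5) (nz10 x7) 5
  have r6 : (G 0 - D 0) + (G 2 - D 2) = (G 5 - D 5) + (G 7 - D 7) :=
    h.re 1 6 (nz10 y1) (nz10 y6) 1
  have r7 : (G 9 - D 9) + (G 3 - D 3) = (G 4 - D 4) + (G 8 - D 8) :=
    h.re 1 6 (nz10 y1) (nz10 y6) 2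
  have r8 : (G 8 - D 8) + (G 4 - D 4) = (G 3 - D 3) + (G 9 - D 9) :=
    h.re 1 6 (nz10 y1) (nz10 y6) 3
  have r9 : (G 7 - D 7) + (G 5 - D 5) = (G 2 - D 2) + (G 0 - D 0) :=
    h.re 1 6 (nz10 y1) (nz10 y6) 4
  have r10 : (G 6 - D 6) + (G 6 - D 6) = (G 1 - D 1) + (G 1 - D 1) :=
    h.re 1 6 (nz10 y1) (nz10 y6) 5
  have r11 : (D 9 - E 9) + (D 1 - E 1) = (D 1 - E 1) + (D 3 - E 3) :=
    h.rg 0 2 (nz10 z0) (nz10 z2) 1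
  have r12 : (D 8 - E 8) + (D 2 - E 2) = (D 0 - E 0) + (D 4 - E 4) :=
    h.rg 0 2 (nz10 z0) (nz10 z2) 2
  have r13 : (D 7 - E 7) + (D 3 - E 3) = (D 9 - E 9) + (D 5 - E 5) :=
    h.rg 0 2 (nz10 z0) (nz10 z2) 3
  have r14 : (D 6 - E 6) + (D 4 - E 4) = (D 8 - E 8) + (D 6 - E 6) :=
    h.rg 0 2 (nz10 z0) (nz10 z2) 4
  have r15 : (D 5 - E 5) + (D 5 - E 5) = (D 7 - E 7) + (D 7 - E 7) :=
    h.rg 0 2 (nz10 z0) (nz10 z2) 5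
  simp only [x0, x1, x2, x3, x4, x6, x8, x9, y0, y2, y3, y4, y5, y7, y8, y9, z1, z3, z4, z5, z6, z7, z8, z9, sub_zero, zero_sub, add_zero, zero_add, mul_zero, sub_self] at sD sE sG v1 v2 r1 r2 r3 r4 r5 r6 r7 r8 r9 r10 r11 r12 r13 r14 r15
  clear hl a0 a1 a2 a3 a4 a5 a6 a7 a8 a9
  clear x0 x1 x2 x3 x4 x6 x8 x9 y0 y2 y3 y4 y5 y7 y8 y9 z1 z3 z4 z5 z6 z7 z8 z9
  exfalso
  omega

lemma cas_65851 (h : H10 D E G d)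
    (hl : ∀ i : ℕ, i < 10 → lab D E G (i : ZMod 10) = dg 65851 i) : Con10 D E G := by
  have hk : d ≤ 5 := h.rh10 hl
  obtain ⟨a0, a1, a2, a3, a4, a5, a6, a7, a8, a9⟩ := hl10 hl
  obtain ⟨x0, y0, z0⟩ := h.toTr.m10lab3 (a0.trans rfl)
  obtain ⟨x1, y1, z1⟩ := h.toTr.m10lab2 (a1.trans rfl)
  obtain ⟨x2, y2, z2⟩ := h.toTr.m10lab3 (a2.trans rfl)
  obtain ⟨x3, y3, z3⟩ := lab0 (a3.trans rfl)
  obtain ⟨x4, y4, z4⟩ := h.toTr.m10lab1 (a4.trans rfl)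
  obtain ⟨x5, y5, z5⟩ := lab0 (a5.trans rfl)
  obtain ⟨x6, y6, z6⟩ := lab0 (a6.trans rfl)
  obtain ⟨x7, y7, z7⟩ := lab0 (a7.trans rfl)
  obtain ⟨x8, y8, z8⟩ := h.toTr.m10lab1 (a8.trans rfl)
  obtain ⟨x9, y9, z9⟩ := lab0 (a9.trans rfl)
  have sD := h.toTr.s10
  have sE := h.toTr.rot.s10
  have sG := h.toTr.rot.rot.s10
  have pd := h.pos
  have v1 := dvd10 h.s1
  have v2 := dvd10 h.s2
  have r1 : (E 3 - G 3) + (E 5 - G 5) = (E 7 - G 7) + (E 9 - G 9) :=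
    h.rd 4 8 (nz10 x4) (nz10 x8) 1
  have r2 : (E 2 - G 2) + (E 6 - G 6) = (E 6 - G 6) + (E 0 - G 0) :=
    h.rd 4 8 (nz10 x4) (nz10 x8) 2
  have r3 : (E 1 - G 1) + (E 7 - G 7) = (E 5 - G 5) + (E 1 - G 1) :=
    h.rd 4 8 (nz10 x4) (nz10 x8) 3
  have r4 : (E 0 - G 0) + (E 8 - G 8) = (E 4 - G 4) + (E 2 - G 2) :=
    h.rd 4 8 (nz10 x4) (nz10 x8) 4
  have r5 : (E 9 - G 9) + (E 9 - G 9) = (E 3 - G 3) + (E 3 - G 3) :=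
    h.rd 4 8 (nz10 x4) (nz10 x8) 5
  have r6 : (D 9 - E 9) + (D 1 - E 1) = (D 1 - E 1) + (D 3 - E 3) :=
    h.rg 0 2 (nz10 z0) (nz10 z2) 1
  have r7 : (D 8 - E 8) + (D 2 - E 2) = (D 0 - E 0) + (D 4 - E 4) :=
    h.rg 0 2 (nz10 z0) (nz10 z2) 2
  have r8 : (D 7 - E 7) + (D 3 - E 3) = (D 9 - E 9) + (D 5 - E 5) :=
    h.rg 0 2 (nz10 z0) (nz10 z2) 3
  have r9 : (D 6 - E 6) + (D 4 - E 4) = (D 8 - E 8) + (D 6 - E 6) :=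
    h.rg 0 2 (nz10 z0) (nz10 z2) 4
  have r10 : (D 5 - E 5) + (D 5 - E 5) = (D 7 - E 7) + (D 7 - E 7) :=
    h.rg 0 2 (nz10 z0) (nz10 z2) 5
  simp only [x0, x1, x2, x3, x5, x6, x7, x9, y0, y2, y3, y4, y5, y6, y7, y8, y9, z1, z3, z4, z5, z6, z7, z8, z9, sub_zero, zero_sub, add_zero, zero_add, mul_zero, sub_self] at sD sE sG v1 v2 r1 r2 r3 r4 r5 r6 r7 r8 r9 r10
  clear hl a0 a1 a2 a3 a4 a5 a6 a7 a8 a9
  have kD4 : D 4 = (D 8) * 1 := by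
    clear x0 x1 x2 x3 x5 x6 x7 x9 y0 y2 y3 y4 y5 y6 y7 y8 y9 z1 z3 z4 z5 z6 z7 z8 z9
    omega
  have kD8 : D 8 = (D 8) * 1 := by
    clear x0 x1 x2 x3 x5 x6 x7 x9 y0 y2 y3 y4 y5 y6 y7 y8 y9 z1 z3 z4 z5 z6 z7 z8 z9
    omega
  have kE1 : E 1 = (D 8) * 2 := by
    clear x0 x1 x2 x3 x5 x6 x7 x9 y0 y2 y3 y4 y5 y6 y7 y8 y9 z1 z3 z4 z5 z6 z7 z8 z9
    omega
  have kG0 : G 0 = (D 8) * 1 := by
    clear x0 x1 x2 x3 x5 x6 x7 x9 y0 y2 y3 y4 y5 y6 y7 y8 y9 z1 z3 z4 z5 z6 z7 z8 z9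
    omega
  have kG2 : G 2 = (D 8) * 1 := by
    clear x0 x1 x2 x3 x5 x6 x7 x9 y0 y2 y3 y4 y5 y6 y7 y8 y9 z1 z3 z4 z5 z6 z7 z8 z9
    omega
  refine Or.inl ⟨2, 8, 2, 1, (D 8), by linarith, all10 ?_ ?_ ?_ ?_ ?_ ?_ ?_ ?_ ?_ ?_,
    all10 ?_ ?_ ?_ ?_ ?_ ?_ ?_ ?_ ?_ ?_, all10 ?_ ?_ ?_ ?_ ?_ ?_ ?_ ?_ ?_ ?_⟩
  · show D 0 = (D 8) * 0
    rw [mul_zero]; exact x0
  · show D 1 = (D 8) * 0
    rw [mul_zero]; exact x1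
  · show D 2 = (D 8) * 0
    rw [mul_zero]; exact x2
  · show D 3 = (D 8) * 0
    rw [mul_zero]; exact x3
  · exact kD4
  · show D 5 = (D 8) * 0
    rw [mul_zero]; exact x5
  · show D 6 = (D 8) * 0
    rw [mul_zero]; exact x6
  · show D 7 = (D 8) * 0
    rw [mul_zero]; exact x7
  · exact kD8
  · show D 9 = (D 8) * 0
    rw [mul_zero]; exact x9
  · show E 0 = (D 8) * 0
    rw [mul_zero]; exact y0
  · exact kE1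
  · show E 2 = (D 8) * 0
    rw [mul_zero]; exact y2
  · show E 3 = (D 8) * 0
    rw [mul_zero]; exact y3
  · show E 4 = (D 8) * 0
    rw [mul_zero]; exact y4
  · show E 5 = (D 8) * 0
    rw [mul_zero]; exact y5
  · show E 6 = (D 8) * 0
    rw [mul_zero]; exact y6
  · show E 7 = (D 8) * 0
    rw [mul_zero]; exact y7
  · show E 8 = (D 8) * 0
    rw [mul_zero]; exact y8
  · show E 9 = (D 8) * 0
    rw [mul_zero]; exact y9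
  · exact kG0
  · show G 1 = (D 8) * 0
    rw [mul_zero]; exact z1
  · exact kG2
  · show G 3 = (D 8) * 0
    rw [mul_zero]; exact z3
  · show G 4 = (D 8) * 0
    rw [mul_zero]; exact z4
  · show G 5 = (D 8) * 0
    rw [mul_zero]; exact z5
  · show G 6 = (D 8) * 0
    rw [mul_zero]; exact z6
  · show G 7 = (D 8) * 0
    rw [mul_zero]; exact z7
  · show G 8 = (D 8) * 0
    rw [mul_zero]; exact z8
  · show G 9 = (D 8) * 0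
    rw [mul_zero]; exact z9

lemma cas_74043 (h : H10 D E G d)
    (hl : ∀ i : ℕ, i < 10 → lab D E G (i : ZMod 10) = dg 74043 i) : Con10 D E G := by
  have hk : d ≤ 6 := h.rh10 hl
  obtain ⟨a0, a1, a2, a3, a4, a5, a6, a7, a8, a9⟩ := hl10 hl
  obtain ⟨x0, y0, z0⟩ := h.toTr.m10lab3 (a0.trans rfl)
  obtain ⟨x1, y1, z1⟩ := h.toTr.m10lab2 (a1.trans rfl)
  obtain ⟨x2, y2, z2⟩ := h.toTr.m10lab3 (a2.trans rfl)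
  obtain ⟨x3, y3, z3⟩ := lab0 (a3.trans rfl)
  obtain ⟨x4, y4, z4⟩ := h.toTr.m10lab1 (a4.trans rfl)
  obtain ⟨x5, y5, z5⟩ := lab0 (a5.trans rfl)
  obtain ⟨x6, y6, z6⟩ := h.toTr.m10lab2 (a6.trans rfl)
  obtain ⟨x7, y7, z7⟩ := lab0 (a7.trans rfl)
  obtain ⟨x8, y8, z8⟩ := h.toTr.m10lab1 (a8.trans rfl)
  obtain ⟨x9, y9, z9⟩ := lab0 (a9.trans rfl)
  have sD := h.toTr.s10
  have sE := h.toTr.rot.s10
  have sG := h.toTr.rot.rot.s10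
  have pd := h.pos
  have v1 := dvd10 h.s1
  have v2 := dvd10 h.s2
  have r1 : (E 3 - G 3) + (E 5 - G 5) = (E 7 - G 7) + (E 9 - G 9) :=
    h.rd 4 8 (nz10 x4) (nz10 x8) 1
  have r2 : (E 2 - G 2) + (E 6 - G 6) = (E 6 - G 6) + (E 0 - G 0) :=
    h.rd 4 8 (nz10 x4) (nz10 x8) 2
  have r3 : (E 1 - G 1) + (E 7 - G 7) = (E 5 - G 5) + (E 1 - G 1) :=
    h.rd 4 8 (nz10 x4) (nz10 x8) 3
  have r4 : (E 0 - G 0) + (E 8 - G 8) = (E 4 - G 4) + (E 2 - G 2) :=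
    h.rd 4 8 (nz10 x4) (nz10 x8) 4
  have r5 : (E 9 - G 9) + (E 9 - G 9) = (E 3 - G 3) + (E 3 - G 3) :=
    h.rd 4 8 (nz10 x4) (nz10 x8) 5
  have r6 : (G 0 - D 0) + (G 2 - D 2) = (G 5 - D 5) + (G 7 - D 7) :=
    h.re 1 6 (nz10 y1) (nz10 y6) 1
  have r7 : (G 9 - D 9) + (G 3 - D 3) = (G 4 - D 4) + (G 8 - D 8) :=
    h.re 1 6 (nz10 y1) (nz10 y6) 2
  have r8 : (G 8 - D 8) + (G 4 - D 4) = (G 3 - D 3) + (G 9 - D 9) :=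
    h.re 1 6 (nz10 y1) (nz10 y6) 3
  have r9 : (G 7 - D 7) + (G 5 - D 5) = (G 2 - D 2) + (G 0 - D 0) :=
    h.re 1 6 (nz10 y1) (nz10 y6) 4
  have r10 : (G 6 - D 6) + (G 6 - D 6) = (G 1 - D 1) + (G 1 - D 1) :=
    h.re 1 6 (nz10 y1) (nz10 y6) 5
  have r11 : (D 9 - E 9) + (D 1 - E 1) = (D 1 - E 1) + (D 3 - E 3) :=
    h.rg 0 2 (nz10 z0) (nz10 z2) 1
  have r12 : (D 8 - E 8) + (D 2 - E 2) = (D 0 - E 0) + (D 4 - E 4) :=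
    h.rg 0 2 (nz10 z0) (nz10 z2) 2
  have r13 : (D 7 - E 7) + (D 3 - E 3) = (D 9 - E 9) + (D 5 - E 5) :=
    h.rg 0 2 (nz10 z0) (nz10 z2) 3
  have r14 : (D 6 - E 6) + (D 4 - E 4) = (D 8 - E 8) + (D 6 - E 6) :=
    h.rg 0 2 (nz10 z0) (nz10 z2) 4
  have r15 : (D 5 - E 5) + (D 5 - E 5) = (D 7 - E 7) + (D 7 - E 7) :=
    h.rg 0 2 (nz10 z0) (nz10 z2) 5
  simp only [x0, x1, x2, x3, x5, x6, x7, x9, y0, y2, y3, y4, y5, y7, y8, y9, z1, z3, z4, z5, z6, z7, z8, z9, sub_zero, zero_sub, add_zero, zero_add, mul_zero, sub_self] at sD sE sG v1 v2 r1 r2 r3 r4 r5 r6 r7 r8 r9 r10 r11 r12 r13 r14 r15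
  clear hl a0 a1 a2 a3 a4 a5 a6 a7 a8 a9
  clear x0 x1 x2 x3 x5 x6 x7 x9 y0 y2 y3 y4 y5 y7 y8 y9 z1 z3 z4 z5 z6 z7 z8 z9
  exfalso
  omega

lemma cas_262267 (h : H10 D E G d)
    (hl : ∀ i : ℕ, i < 10 → lab D E G (i : ZMod 10) = dg 262267 i) : Con10 D E G := by
  have hk : d ≤ 5 := h.rh10 hl
  obtain ⟨a0, a1, a2, a3, a4, a5, a6, a7, a8, a9⟩ := hl10 hl
  obtain ⟨x0, y0, z0⟩ := h.toTr.m10lab3 (a0.trans rfl)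
  obtain ⟨x1, y1, z1⟩ := h.toTr.m10lab2 (a1.trans rfl)
  obtain ⟨x2, y2, z2⟩ := h.toTr.m10lab3 (a2.trans rfl)
  obtain ⟨x3, y3, z3⟩ := h.toTr.m10lab1 (a3.trans rfl)
  obtain ⟨x4, y4, z4⟩ := lab0 (a4.trans rfl)
  obtain ⟨x5, y5, z5⟩ := lab0 (a5.trans rfl)
  obtain ⟨x6, y6, z6⟩ := lab0 (a6.trans rfl)
  obtain ⟨x7, y7, z7⟩ := lab0 (a7.trans rfl)
  obtain ⟨x8, y8, z8⟩ := lab0 (a8.trans rfl)
  obtain ⟨x9, y9, z9⟩ := h.toTr.m10lab1 (a9.trans rfl)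
  have sD := h.toTr.s10
  have sE := h.toTr.rot.s10
  have sG := h.toTr.rot.rot.s10
  have pd := h.pos
  have v1 := dvd10 h.s1
  have v2 := dvd10 h.s2
  have r1 : (E 2 - G 2) + (E 4 - G 4) = (E 8 - G 8) + (E 0 - G 0) :=
    h.rd 3 9 (nz10 x3) (nz10 x9) 1
  have r2 : (E 1 - G 1) + (E 5 - G 5) = (E 7 - G 7) + (E 1 - G 1) :=
    h.rd 3 9 (nz10 x3) (nz10 x9) 2
  have r3 : (E 0 - G 0) + (E 6 - G 6) = (E 6 - G 6) + (E 2 - G 2) :=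
    h.rd 3 9 (nz10 x3) (nz10 x9) 3
  have r4 : (E 9 - G 9) + (E 7 - G 7) = (E 5 - G 5) + (E 3 - G 3) :=
    h.rd 3 9 (nz10 x3) (nz10 x9) 4
  have r5 : (E 8 - G 8) + (E 8 - G 8) = (E 4 - G 4) + (E 4 - G 4) :=
    h.rd 3 9 (nz10 x3) (nz10 x9) 5
  have r6 : (D 9 - E 9) + (D 1 - E 1) = (D 1 - E 1) + (D 3 - E 3) :=
    h.rg 0 2 (nz10 z0) (nz10 z2) 1
  have r7 : (D 8 - E 8) + (D 2 - E 2) = (D 0 - E 0) + (D 4 - E 4) :=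
    h.rg 0 2 (nz10 z0) (nz10 z2) 2
  have r8 : (D 7 - E 7) + (D 3 - E 3) = (D 9 - E 9) + (D 5 - E 5) :=
    h.rg 0 2 (nz10 z0) (nz10 z2) 3
  have r9 : (D 6 - E 6) + (D 4 - E 4) = (D 8 - E 8) + (D 6 - E 6) :=
    h.rg 0 2 (nz10 z0) (nz10 z2) 4
  have r10 : (D 5 - E 5) + (D 5 - E 5) = (D 7 - E 7) + (D 7 - E 7) :=
    h.rg 0 2 (nz10 z0) (nz10 z2) 5
  simp only [x0, x1, x2, x4, x5, x6, x7, x8, y0, y2, y3, y4, y5, y6, y7, y8, y9, z1, z3, z4, z5, z6, z7, z8, z9, sub_zero, zero_sub, add_zero, zero_add, mul_zero, sub_self] at sD sE sG v1 v2 r1 r2 r3 r4 r5 r6 r7 r8 r9 r10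
  clear hl a0 a1 a2 a3 a4 a5 a6 a7 a8 a9
  have kD3 : D 3 = (D 9) * 1 := by
    clear x0 x1 x2 x4 x5 x6 x7 x8 y0 y2 y3 y4 y5 y6 y7 y8 y9 z1 z3 z4 z5 z6 z7 z8 z9
    omega
  have kD9 : D 9 = (D 9) * 1 := by
    clear x0 x1 x2 x4 x5 x6 x7 x8 y0 y2 y3 y4 y5 y6 y7 y8 y9 z1 z3 z4 z5 z6 z7 z8 z9
    omega
  have kE1 : E 1 = (D 9) * 2 := by
    clear x0 x1 x2 x4 x5 x6 x7 x8 y0 y2 y3 y4 y5 y6 y7 y8 y9 z1 z3 z4 z5 z6 z7 z8 z9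
    omega
  have kG0 : G 0 = (D 9) * 1 := by
    clear x0 x1 x2 x4 x5 x6 x7 x8 y0 y2 y3 y4 y5 y6 y7 y8 y9 z1 z3 z4 z5 z6 z7 z8 z9
    omega
  have kG2 : G 2 = (D 9) * 1 := by
    clear x0 x1 x2 x4 x5 x6 x7 x8 y0 y2 y3 y4 y5 y6 y7 y8 y9 z1 z3 z4 z5 z6 z7 z8 z9
    omega
  refine Or.inl ⟨2, 9, 2, 1, (D 9), by linarith, all10 ?_ ?_ ?_ ?_ ?_ ?_ ?_ ?_ ?_ ?_,
    all10 ?_ ?_ ?_ ?_ ?_ ?_ ?_ ?_ ?_ ?_, all10 ?_ ?_ ?_ ?_ ?_ ?_ ?_ ?_ ?_ ?_⟩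
  · show D 0 = (D 9) * 0
    rw [mul_zero]; exact x0
  · show D 1 = (D 9) * 0
    rw [mul_zero]; exact x1
  · show D 2 = (D 9) * 0
    rw [mul_zero]; exact x2
  · exact kD3
  · show D 4 = (D 9) * 0
    rw [mul_zero]; exact x4
  · show D 5 = (D 9) * 0
    rw [mul_zero]; exact x5
  · show D 6 = (D 9) * 0
    rw [mul_zero]; exact x6
  · show D 7 = (D 9) * 0
    rw [mul_zero]; exact x7
  · show D 8 = (D 9) * 0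
    rw [mul_zero]; exact x8
  · exact kD9
  · show E 0 = (D 9) * 0
    rw [mul_zero]; exact y0
  · exact kE1
  · show E 2 = (D 9) * 0
    rw [mul_zero]; exact y2
  · show E 3 = (D 9) * 0
    rw [mul_zero]; exact y3
  · show E 4 = (D 9) * 0
    rw [mul_zero]; exact y4
  · show E 5 = (D 9) * 0
    rw [mul_zero]; exact y5
  · show E 6 = (D 9) * 0
    rw [mul_zero]; exact y6
  · show E 7 = (D 9) * 0
    rw [mul_zero]; exact y7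
  · show E 8 = (D 9) * 0
    rw [mul_zero]; exact y8
  · show E 9 = (D 9) * 0
    rw [mul_zero]; exact y9
  · exact kG0
  · show G 1 = (D 9) * 0
    rw [mul_zero]; exact z1
  · exact kG2
  · show G 3 = (D 9) * 0
    rw [mul_zero]; exact z3
  · show G 4 = (D 9) * 0
    rw [mul_zero]; exact z4
  · show G 5 = (D 9) * 0
    rw [mul_zero]; exact z5
  · show G 6 = (D 9) * 0
    rw [mul_zero]; exact z6
  · show G 7 = (D 9) * 0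
    rw [mul_zero]; exact z7
  · show G 8 = (D 9) * 0
    rw [mul_zero]; exact z8
  · show G 9 = (D 9) * 0
    rw [mul_zero]; exact z9

lemma cas_270459 (h : H10 D E G d)
    (hl : ∀ i : ℕ, i < 10 → lab D E G (i : ZMod 10) = dg 270459 i) : Con10 D E G := by
  have hk : d ≤ 6 := h.rh10 hl
  obtain ⟨a0, a1, a2, a3, a4, a5, a6, a7, a8, a9⟩ := hl10 hl
  obtain ⟨x0, y0, z0⟩ := h.toTr.m10lab3 (a0.trans rfl)
  obtain ⟨x1, y1, z1⟩ := h.toTr.m10lab2 (a1.trans rfl)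
  obtain ⟨x2, y2, z2⟩ := h.toTr.m10lab3 (a2.trans rfl)
  obtain ⟨x3, y3, z3⟩ := h.toTr.m10lab1 (a3.trans rfl)
  obtain ⟨x4, y4, z4⟩ := lab0 (a4.trans rfl)
  obtain ⟨x5, y5, z5⟩ := lab0 (a5.trans rfl)
  obtain ⟨x6, y6, z6⟩ := h.toTr.m10lab2 (a6.trans rfl)
  obtain ⟨x7, y7, z7⟩ := lab0 (a7.trans rfl)
  obtain ⟨x8, y8, z8⟩ := lab0 (a8.trans rfl)
  obtain ⟨x9, y9, z9⟩ := h.toTr.m10lab1 (a9.trans rfl)
  have sD := h.toTr.s10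
  have sE := h.toTr.rot.s10
  have sG := h.toTr.rot.rot.s10
  have pd := h.pos
  have v1 := dvd10 h.s1
  have v2 := dvd10 h.s2
  have r1 : (E 2 - G 2) + (E 4 - G 4) = (E 8 - G 8) + (E 0 - G 0) :=
    h.rd 3 9 (nz10 x3) (nz10 x9) 1
  have r2 : (E 1 - G 1) + (E 5 - G 5) = (E 7 - G 7) + (E 1 - G 1) :=
    h.rd 3 9 (nz10 x3) (nz10 x9) 2
  have r3 : (E 0 - G 0) + (E 6 - G 6) = (E 6 - G 6) + (E 2 - G 2) :=
    h.rd 3 9 (nz10 x3) (nz10 x9) 3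
  have r4 : (E 9 - G 9) + (E 7 - G 7) = (E 5 - G 5) + (E 3 - G 3) :=
    h.rd 3 9 (nz10 x3) (nz10 x9) 4
  have r5 : (E 8 - G 8) + (E 8 - G 8) = (E 4 - G 4) + (E 4 - G 4) :=
    h.rd 3 9 (nz10 x3) (nz10 x9) 5
  have r6 : (G 0 - D 0) + (G 2 - D 2) = (G 5 - D 5) + (G 7 - D 7) :=
    h.re 1 6 (nz10 y1) (nz10 y6) 1
  have r7 : (G 9 - D 9) + (G 3 - D 3) = (G 4 - D 4) + (G 8 - D 8) :=
    h.re 1 6 (nz10 y1) (nz10 y6) 2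
  have r8 : (G 8 - D 8) + (G 4 - D 4) = (G 3 - D 3) + (G 9 - D 9) :=
    h.re 1 6 (nz10 y1) (nz10 y6) 3
  have r9 : (G 7 - D 7) + (G 5 - D 5) = (G 2 - D 2) + (G 0 - D 0) :=
    h.re 1 6 (nz10 y1) (nz10 y6) 4
  have r10 : (G 6 - D 6) + (G 6 - D 6) = (G 1 - D 1) + (G 1 - D 1) :=
    h.re 1 6 (nz10 y1) (nz10 y6) 5
  have r11 : (D 9 - E 9) + (D 1 - E 1) = (D 1 - E 1) + (D 3 - E 3) :=
    h.rg 0 2 (nz10 z0) (nz10 z2) 1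
  have r12 : (D 8 - E 8) + (D 2 - E 2) = (D 0 - E 0) + (D 4 - E 4) :=
    h.rg 0 2 (nz10 z0) (nz10 z2) 2
  have r13 : (D 7 - E 7) + (D 3 - E 3) = (D 9 - E 9) + (D 5 - E 5) :=
    h.rg 0 2 (nz10 z0) (nz10 z2) 3
  have r14 : (D 6 - E 6) + (D 4 - E 4) = (D 8 - E 8) + (D 6 - E 6) :=
    h.rg 0 2 (nz10 z0) (nz10 z2) 4
  have r15 : (D 5 - E 5) + (D 5 - E 5) = (D 7 - E 7) + (D 7 - E 7) :=
    h.rg 0 2 (nz10 z0) (nz10 z2) 5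
  simp only [x0, x1, x2, x4, x5, x6, x7, x8, y0, y2, y3, y4, y5, y7, y8, y9, z1, z3, z4, z5, z6, z7, z8, z9, sub_zero, zero_sub, add_zero, zero_add, mul_zero, sub_self] at sD sE sG v1 v2 r1 r2 r3 r4 r5 r6 r7 r8 r9 r10 r11 r12 r13 r14 r15
  clear hl a0 a1 a2 a3 a4 a5 a6 a7 a8 a9
  clear x0 x1 x2 x4 x5 x6 x7 x8 y0 y2 y3 y4 y5 y7 y8 y9 z1 z3 z4 z5 z6 z7 z8 z9
  exfalso
  omega

lemma cas_136335 (h : H10 D E G d)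
    (hl : ∀ i : ℕ, i < 10 → lab D E G (i : ZMod 10) = dg 136335 i) : Con10 D E G := by
  have hk : d ≤ 6 := h.rh10 hl
  obtain ⟨a0, a1, a2, a3, a4, a5, a6, a7, a8, a9⟩ := hl10 hl
  obtain ⟨x0, y0, z0⟩ := h.toTr.m10lab3 (a0.trans rfl)
  obtain ⟨x1, y1, z1⟩ := h.toTr.m10lab3 (a1.trans rfl)
  obtain ⟨x2, y2, z2⟩ := lab0 (a2.trans rfl)
  obtain ⟨x3, y3, z3⟩ := h.toTr.m10lab2 (a3.trans rfl)
  obtain ⟨x4, y4, z4⟩ := lab0 (a4.trans rfl)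
  obtain ⟨x5, y5, z5⟩ := h.toTr.m10lab1 (a5.trans rfl)
  obtain ⟨x6, y6, z6⟩ := h.toTr.m10lab1 (a6.trans rfl)
  obtain ⟨x7, y7, z7⟩ := lab0 (a7.trans rfl)
  obtain ⟨x8, y8, z8⟩ := h.toTr.m10lab2 (a8.trans rfl)
  obtain ⟨x9, y9, z9⟩ := lab0 (a9.trans rfl)
  have sD := h.toTr.s10
  have sE := h.toTr.rot.s10
  have sG := h.toTr.rot.rot.s10
  have pd := h.pos
  have v1 := dvd10 h.s1
  have v2 := dvd10 h.s2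
  have r1 : (E 4 - G 4) + (E 6 - G 6) = (E 5 - G 5) + (E 7 - G 7) :=
    h.rd 5 6 (nz10 x5) (nz10 x6) 1
  have r2 : (E 3 - G 3) + (E 7 - G 7) = (E 4 - G 4) + (E 8 - G 8) :=
    h.rd 5 6 (nz10 x5) (nz10 x6) 2
  have r3 : (E 2 - G 2) + (E 8 - G 8) = (E 3 - G 3) + (E 9 - G 9) :=
    h.rd 5 6 (nz10 x5) (nz10 x6) 3
  have r4 : (E 1 - G 1) + (E 9 - G 9) = (E 2 - G 2) + (E 0 - G 0) :=
    h.rd 5 6 (nz10 x5) (nz10 x6) 4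
  have r5 : (E 0 - G 0) + (E 0 - G 0) = (E 1 - G 1) + (E 1 - G 1) :=
    h.rd 5 6 (nz10 x5) (nz10 x6) 5
  have r6 : (G 2 - D 2) + (G 4 - D 4) = (G 7 - D 7) + (G 9 - D 9) :=
    h.re 3 8 (nz10 y3) (nz10 y8) 1
  have r7 : (G 1 - D 1) + (G 5 - D 5) = (G 6 - D 6) + (G 0 - D 0) :=
    h.re 3 8 (nz10 y3) (nz10 y8) 2
  have r8 : (G 0 - D 0) + (G 6 - D 6) = (G 5 - D 5) + (G 1 - D 1) :=
    h.re 3 8 (nz10 y3) (nz10 y8) 3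
  have r9 : (G 9 - D 9) + (G 7 - D 7) = (G 4 - D 4) + (G 2 - D 2) :=
    h.re 3 8 (nz10 y3) (nz10 y8) 4
  have r10 : (G 8 - D 8) + (G 8 - D 8) = (G 3 - D 3) + (G 3 - D 3) :=
    h.re 3 8 (nz10 y3) (nz10 y8) 5
  have r11 : (D 9 - E 9) + (D 1 - E 1) = (D 0 - E 0) + (D 2 - E 2) :=
    h.rg 0 1 (nz10 z0) (nz10 z1) 1
  have r12 : (D 8 - E 8) + (D 2 - E 2) = (D 9 - E 9) + (D 3 - E 3) :=
    h.rg 0 1 (nz10 z0) (nz10 z1) 2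
  have r13 : (D 7 - E 7) + (D 3 - E 3) = (D 8 - E 8) + (D 4 - E 4) :=
    h.rg 0 1 (nz10 z0) (nz10 z1) 3
  have r14 : (D 6 - E 6) + (D 4 - E 4) = (D 7 - E 7) + (D 5 - E 5) :=
    h.rg 0 1 (nz10 z0) (nz10 z1) 4
  have r15 : (D 5 - E 5) + (D 5 - E 5) = (D 6 - E 6) + (D 6 - E 6) :=
    h.rg 0 1 (nz10 z0) (nz10 z1) 5
  simp only [x0, x1, x2, x3, x4, x7, x8, x9, y0, y1, y2, y4, y5, y6, y7, y9, z2, z3, z4, z5, z6, z7, z8, z9, sub_zero, zero_sub, add_zero, zero_add, mul_zero, sub_self] at sD sE sG v1 v2 r1 r2 r3 r4 r5 r6 r7 r8 r9 r10 r11 r12 r13 r14 r15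
  clear hl a0 a1 a2 a3 a4 a5 a6 a7 a8 a9
  have kD5 : D 5 = (D 6) * 1 := by
    clear x0 x1 x2 x3 x4 x7 x8 x9 y0 y1 y2 y4 y5 y6 y7 y9 z2 z3 z4 z5 z6 z7 z8 z9
    omega
  have kD6 : D 6 = (D 6) * 1 := by
    clear x0 x1 x2 x3 x4 x7 x8 x9 y0 y1 y2 y4 y5 y6 y7 y9 z2 z3 z4 z5 z6 z7 z8 z9
    omega
  have kE3 : E 3 = (D 6) * 1 := by
    clear x0 x1 x2 x3 x4 x7 x8 x9 y0 y1 y2 y4 y5 y6 y7 y9 z2 z3 z4 z5 z6 z7 z8 z9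
    omega
  have kE8 : E 8 = (D 6) * 1 := by
    clear x0 x1 x2 x3 x4 x7 x8 x9 y0 y1 y2 y4 y5 y6 y7 y9 z2 z3 z4 z5 z6 z7 z8 z9
    omega
  have kG0 : G 0 = (D 6) * 1 := by
    clear x0 x1 x2 x3 x4 x7 x8 x9 y0 y1 y2 y4 y5 y6 y7 y9 z2 z3 z4 z5 z6 z7 z8 z9
    omega
  have kG1 : G 1 = (D 6) * 1 := by
    clear x0 x1 x2 x3 x4 x7 x8 x9 y0 y1 y2 y4 y5 y6 y7 y9 z2 z3 z4 z5 z6 z7 z8 z9
    omega
  refine Or.inl ⟨1, 6, 1, 8, (D 6), by linarith, all10 ?_ ?_ ?_ ?_ ?_ ?_ ?_ ?_ ?_ ?_,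
    all10 ?_ ?_ ?_ ?_ ?_ ?_ ?_ ?_ ?_ ?_, all10 ?_ ?_ ?_ ?_ ?_ ?_ ?_ ?_ ?_ ?_⟩
  · show D 0 = (D 6) * 0
    rw [mul_zero]; exact x0
  · show D 1 = (D 6) * 0
    rw [mul_zero]; exact x1
  · show D 2 = (D 6) * 0
    rw [mul_zero]; exact x2
  · show D 3 = (D 6) * 0
    rw [mul_zero]; exact x3
  · show D 4 = (D 6) * 0
    rw [mul_zero]; exact x4
  · exact kD5
  · exact kD6
  · show D 7 = (D 6) * 0
    rw [mul_zero]; exact x7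
  · show D 8 = (D 6) * 0
    rw [mul_zero]; exact x8
  · show D 9 = (D 6) * 0
    rw [mul_zero]; exact x9
  · show E 0 = (D 6) * 0
    rw [mul_zero]; exact y0
  · show E 1 = (D 6) * 0
    rw [mul_zero]; exact y1
  · show E 2 = (D 6) * 0
    rw [mul_zero]; exact y2
  · exact kE3
  · show E 4 = (D 6) * 0
    rw [mul_zero]; exact y4
  · show E 5 = (D 6) * 0
    rw [mul_zero]; exact y5
  · show E 6 = (D 6) * 0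
    rw [mul_zero]; exact y6
  · show E 7 = (D 6) * 0
    rw [mul_zero]; exact y7
  · exact kE8
  · show E 9 = (D 6) * 0
    rw [mul_zero]; exact y9
  · exact kG0
  · exact kG1
  · show G 2 = (D 6) * 0
    rw [mul_zero]; exact z2
  · show G 3 = (D 6) * 0
    rw [mul_zero]; exact z3
  · show G 4 = (D 6) * 0
    rw [mul_zero]; exact z4
  · show G 5 = (D 6) * 0
    rw [mul_zero]; exact z5
  · show G 6 = (D 6) * 0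
    rw [mul_zero]; exact z6
  · show G 7 = (D 6) * 0
    rw [mul_zero]; exact z7
  · show G 8 = (D 6) * 0
    rw [mul_zero]; exact z8
  · show G 9 = (D 6) * 0
    rw [mul_zero]; exact z9

lemma cas_147855 (h : H10 D E G d)
    (hl : ∀ i : ℕ, i < 10 → lab D E G (i : ZMod 10) = dg 147855 i) : Con10 D E G := by
  have hk : d ≤ 6 := h.rh10 hl
  obtain ⟨a0, a1, a2, a3, a4, a5, a6, a7, a8, a9⟩ := hl10 hl
  obtain ⟨x0, y0, z0⟩ := h.toTr.m10lab3 (a0.trans rfl)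
  obtain ⟨x1, y1, z1⟩ := h.toTr.m10lab3 (a1.trans rfl)
  obtain ⟨x2, y2, z2⟩ := lab0 (a2.trans rfl)
  obtain ⟨x3, y3, z3⟩ := h.toTr.m10lab2 (a3.trans rfl)
  obtain ⟨x4, y4, z4⟩ := h.toTr.m10lab1 (a4.trans rfl)
  obtain ⟨x5, y5, z5⟩ := lab0 (a5.trans rfl)
  obtain ⟨x6, y6, z6⟩ := lab0 (a6.trans rfl)
  obtain ⟨x7, y7, z7⟩ := h.toTr.m10lab1 (a7.trans rfl)
  obtain ⟨x8, y8, z8⟩ := h.toTr.m10lab2 (a8.trans rfl)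
  obtain ⟨x9, y9, z9⟩ := lab0 (a9.trans rfl)
  have sD := h.toTr.s10
  have sE := h.toTr.rot.s10
  have sG := h.toTr.rot.rot.s10
  have pd := h.pos
  have v1 := dvd10 h.s1
  have v2 := dvd10 h.s2
  have r1 : (E 3 - G 3) + (E 5 - G 5) = (E 6 - G 6) + (E 8 - G 8) :=
    h.rd 4 7 (nz10 x4) (nz10 x7) 1
  have r2 : (E 2 - G 2) + (E 6 - G 6) = (E 5 - G 5) + (E 9 - G 9) :=
    h.rd 4 7 (nz10 x4) (nz10 x7) 2
  have r3 : (E 1 - G 1) + (E 7 - G 7) = (E 4 - G 4) + (E 0 - G 0) :=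
    h.rd 4 7 (nz10 x4) (nz10 x7) 3
  have r4 : (E 0 - G 0) + (E 8 - G 8) = (E 3 - G 3) + (E 1 - G 1) :=
    h.rd 4 7 (nz10 x4) (nz10 x7) 4
  have r5 : (E 9 - G 9) + (E 9 - G 9) = (E 2 - G 2) + (E 2 - G 2) :=
    h.rd 4 7 (nz10 x4) (nz10 x7) 5
  have r6 : (G 2 - D 2) + (G 4 - D 4) = (G 7 - D 7) + (G 9 - D 9) :=
    h.re 3 8 (nz10 y3) (nz10 y8) 1
  have r7 : (G 1 - D 1) + (G 5 - D 5) = (G 6 - D 6) + (G 0 - D 0) :=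
    h.re 3 8 (nz10 y3) (nz10 y8) 2
  have r8 : (G 0 - D 0) + (G 6 - D 6) = (G 5 - D 5) + (G 1 - D 1) :=
    h.re 3 8 (nz10 y3) (nz10 y8) 3
  have r9 : (G 9 - D 9) + (G 7 - D 7) = (G 4 - D 4) + (G 2 - D 2) :=
    h.re 3 8 (nz10 y3) (nz10 y8) 4
  have r10 : (G 8 - D 8) + (G 8 - D 8) = (G 3 - D 3) + (G 3 - D 3) :=
    h.re 3 8 (nz10 y3) (nz10 y8) 5
  have r11 : (D 9 - E 9) + (D 1 - E 1) = (D 0 - E 0) + (D 2 - E 2) :=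
    h.rg 0 1 (nz10 z0) (nz10 z1) 1
  have r12 : (D 8 - E 8) + (D 2 - E 2) = (D 9 - E 9) + (D 3 - E 3) :=
    h.rg 0 1 (nz10 z0) (nz10 z1) 2
  have r13 : (D 7 - E 7) + (D 3 - E 3) = (D 8 - E 8) + (D 4 - E 4) :=
    h.rg 0 1 (nz10 z0) (nz10 z1) 3
  have r14 : (D 6 - E 6) + (D 4 - E 4) = (D 7 - E 7) + (D 5 - E 5) :=
    h.rg 0 1 (nz10 z0) (nz10 z1) 4
  have r15 : (D 5 - E 5) + (D 5 - E 5) = (D 6 - E 6) + (D 6 - E 6) :=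
    h.rg 0 1 (nz10 z0) (nz10 z1) 5
  simp only [x0, x1, x2, x3, x5, x6, x8, x9, y0, y1, y2, y4, y5, y6, y7, y9, z2, z3, z4, z5, z6, z7, z8, z9, sub_zero, zero_sub, add_zero, zero_add, mul_zero, sub_self] at sD sE sG v1 v2 r1 r2 r3 r4 r5 r6 r7 r8 r9 r10 r11 r12 r13 r14 r15
  clear hl a0 a1 a2 a3 a4 a5 a6 a7 a8 a9
  have kD4 : D 4 = (D 7) * 1 := by
    clear x0 x1 x2 x3 x5 x6 x8 x9 y0 y1 y2 y4 y5 y6 y7 y9 z2 z3 z4 z5 z6 z7 z8 z9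
    omega
  have kD7 : D 7 = (D 7) * 1 := by
    clear x0 x1 x2 x3 x5 x6 x8 x9 y0 y1 y2 y4 y5 y6 y7 y9 z2 z3 z4 z5 z6 z7 z8 z9
    omega
  have kE3 : E 3 = (D 7) * 1 := by
    clear x0 x1 x2 x3 x5 x6 x8 x9 y0 y1 y2 y4 y5 y6 y7 y9 z2 z3 z4 z5 z6 z7 z8 z9
    omega
  have kE8 : E 8 = (D 7) * 1 := by
    clear x0 x1 x2 x3 x5 x6 x8 x9 y0 y1 y2 y4 y5 y6 y7 y9 z2 z3 z4 z5 z6 z7 z8 z9
    omega
  have kG0 : G 0 = (D 7) * 1 := by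
    clear x0 x1 x2 x3 x5 x6 x8 x9 y0 y1 y2 y4 y5 y6 y7 y9 z2 z3 z4 z5 z6 z7 z8 z9
    omega
  have kG1 : G 1 = (D 7) * 1 := by
    clear x0 x1 x2 x3 x5 x6 x8 x9 y0 y1 y2 y4 y5 y6 y7 y9 z2 z3 z4 z5 z6 z7 z8 z9
    omega
  refine Or.inl ⟨1, 7, 1, 8, (D 7), by linarith, all10 ?_ ?_ ?_ ?_ ?_ ?_ ?_ ?_ ?_ ?_,
    all10 ?_ ?_ ?_ ?_ ?_ ?_ ?_ ?_ ?_ ?_, all10 ?_ ?_ ?_ ?_ ?_ ?_ ?_ ?_ ?_ ?_⟩
  · show D 0 = (D 7) * 0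
    rw [mul_zero]; exact x0
  · show D 1 = (D 7) * 0
    rw [mul_zero]; exact x1
  · show D 2 = (D 7) * 0
    rw [mul_zero]; exact x2
  · show D 3 = (D 7) * 0
    rw [mul_zero]; exact x3
  · exact kD4
  · show D 5 = (D 7) * 0
    rw [mul_zero]; exact x5
  · show D 6 = (D 7) * 0
    rw [mul_zero]; exact x6
  · exact kD7
  · show D 8 = (D 7) * 0
    rw [mul_zero]; exact x8
  · show D 9 = (D 7) * 0
    rw [mul_zero]; exact x9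
  · show E 0 = (D 7) * 0
    rw [mul_zero]; exact y0
  · show E 1 = (D 7) * 0
    rw [mul_zero]; exact y1
  · show E 2 = (D 7) * 0
    rw [mul_zero]; exact y2
  · exact kE3
  · show E 4 = (D 7) * 0
    rw [mul_zero]; exact y4
  · show E 5 = (D 7) * 0
    rw [mul_zero]; exact y5
  · show E 6 = (D 7) * 0
    rw [mul_zero]; exact y6
  · show E 7 = (D 7) * 0
    rw [mul_zero]; exact y7
  · exact kE8
  · show E 9 = (D 7) * 0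
    rw [mul_zero]; exact y9
  · exact kG0
  · exact kG1
  · show G 2 = (D 7) * 0
    rw [mul_zero]; exact z2
  · show G 3 = (D 7) * 0
    rw [mul_zero]; exact z3
  · show G 4 = (D 7) * 0
    rw [mul_zero]; exact z4
  · show G 5 = (D 7) * 0
    rw [mul_zero]; exact z5
  · show G 6 = (D 7) * 0
    rw [mul_zero]; exact z6
  · show G 7 = (D 7) * 0
    rw [mul_zero]; exact z7
  · show G 8 = (D 7) * 0
    rw [mul_zero]; exact z8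
  · show G 9 = (D 7) * 0
    rw [mul_zero]; exact z9

lemma cas_529455 (h : H10 D E G d)
    (hl : ∀ i : ℕ, i < 10 → lab D E G (i : ZMod 10) = dg 529455 i) : Con10 D E G := by
  have hk : d ≤ 6 := h.rh10 hl
  obtain ⟨a0, a1, a2, a3, a4, a5, a6, a7, a8, a9⟩ := hl10 hl
  obtain ⟨x0, y0, z0⟩ := h.toTr.m10lab3 (a0.trans rfl)
  obtain ⟨x1, y1, z1⟩ := h.toTr.m10lab3 (a1.trans rfl)
  obtain ⟨x2, y2, z2⟩ := h.toTr.m10lab2 (a2.trans rfl)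
  obtain ⟨x3, y3, z3⟩ := lab0 (a3.trans rfl)
  obtain ⟨x4, y4, z4⟩ := lab0 (a4.trans rfl)
  obtain ⟨x5, y5, z5⟩ := h.toTr.m10lab1 (a5.trans rfl)
  obtain ⟨x6, y6, z6⟩ := h.toTr.m10lab1 (a6.trans rfl)
  obtain ⟨x7, y7, z7⟩ := lab0 (a7.trans rfl)
  obtain ⟨x8, y8, z8⟩ := lab0 (a8.trans rfl)
  obtain ⟨x9, y9, z9⟩ := h.toTr.m10lab2 (a9.trans rfl)
  have sD := h.toTr.s10
  have sE := h.toTr.rot.s10
  have sG := h.toTr.rot.rot.s10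
  have pd := h.pos
  have v1 := dvd10 h.s1
  have v2 := dvd10 h.s2
  have r1 : (E 4 - G 4) + (E 6 - G 6) = (E 5 - G 5) + (E 7 - G 7) :=
    h.rd 5 6 (nz10 x5) (nz10 x6) 1
  have r2 : (E 3 - G 3) + (E 7 - G 7) = (E 4 - G 4) + (E 8 - G 8) :=
    h.rd 5 6 (nz10 x5) (nz10 x6) 2
  have r3 : (E 2 - G 2) + (E 8 - G 8) = (E 3 - G 3) + (E 9 - G 9) :=
    h.rd 5 6 (nz10 x5) (nz10 x6) 3
  have r4 : (E 1 - G 1) + (E 9 - G 9) = (E 2 - G 2) + (E 0 - G 0) :=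
    h.rd 5 6 (nz10 x5) (nz10 x6) 4
  have r5 : (E 0 - G 0) + (E 0 - G 0) = (E 1 - G 1) + (E 1 - G 1) :=
    h.rd 5 6 (nz10 x5) (nz10 x6) 5
  have r6 : (G 1 - D 1) + (G 3 - D 3) = (G 8 - D 8) + (G 0 - D 0) :=
    h.re 2 9 (nz10 y2) (nz10 y9) 1
  have r7 : (G 0 - D 0) + (G 4 - D 4) = (G 7 - D 7) + (G 1 - D 1) :=
    h.re 2 9 (nz10 y2) (nz10 y9) 2
  have r8 : (G 9 - D 9) + (G 5 - D 5) = (G 6 - D 6) + (G 2 - D 2) :=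
    h.re 2 9 (nz10 y2) (nz10 y9) 3
  have r9 : (G 8 - D 8) + (G 6 - D 6) = (G 5 - D 5) + (G 3 - D 3) :=
    h.re 2 9 (nz10 y2) (nz10 y9) 4
  have r10 : (G 7 - D 7) + (G 7 - D 7) = (G 4 - D 4) + (G 4 - D 4) :=
    h.re 2 9 (nz10 y2) (nz10 y9) 5
  have r11 : (D 9 - E 9) + (D 1 - E 1) = (D 0 - E 0) + (D 2 - E 2) :=
    h.rg 0 1 (nz10 z0) (nz10 z1) 1
  have r12 : (D 8 - E 8) + (D 2 - E 2) = (D 9 - E 9) + (D 3 - E 3) :=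
    h.rg 0 1 (nz10 z0) (nz10 z1) 2
  have r13 : (D 7 - E 7) + (D 3 - E 3) = (D 8 - E 8) + (D 4 - E 4) :=
    h.rg 0 1 (nz10 z0) (nz10 z1) 3
  have r14 : (D 6 - E 6) + (D 4 - E 4) = (D 7 - E 7) + (D 5 - E 5) :=
    h.rg 0 1 (nz10 z0) (nz10 z1) 4
  have r15 : (D 5 - E 5) + (D 5 - E 5) = (D 6 - E 6) + (D 6 - E 6) :=
    h.rg 0 1 (nz10 z0) (nz10 z1) 5
  simp only [x0, x1, x2, x3, x4, x7, x8, x9, y0, y1, y3, y4, y5, y6, y7, y8, z2, z3, z4, z5, z6, z7, z8, z9, sub_zero, zero_sub, add_zero, zero_add, mul_zero, sub_self] at sD sE sG v1 v2 r1 r2 r3 r4 r5 r6 r7 r8 r9 r10 r11 r12 r13 r14 r15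
  clear hl a0 a1 a2 a3 a4 a5 a6 a7 a8 a9
  have kD5 : D 5 = (D 6) * 1 := by
    clear x0 x1 x2 x3 x4 x7 x8 x9 y0 y1 y3 y4 y5 y6 y7 y8 z2 z3 z4 z5 z6 z7 z8 z9
    omega
  have kD6 : D 6 = (D 6) * 1 := by
    clear x0 x1 x2 x3 x4 x7 x8 x9 y0 y1 y3 y4 y5 y6 y7 y8 z2 z3 z4 z5 z6 z7 z8 z9
    omega
  have kE2 : E 2 = (D 6) * 1 := by
    clear x0 x1 x2 x3 x4 x7 x8 x9 y0 y1 y3 y4 y5 y6 y7 y8 z2 z3 z4 z5 z6 z7 z8 z9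
    omega
  have kE9 : E 9 = (D 6) * 1 := by
    clear x0 x1 x2 x3 x4 x7 x8 x9 y0 y1 y3 y4 y5 y6 y7 y8 z2 z3 z4 z5 z6 z7 z8 z9
    omega
  have kG0 : G 0 = (D 6) * 1 := by
    clear x0 x1 x2 x3 x4 x7 x8 x9 y0 y1 y3 y4 y5 y6 y7 y8 z2 z3 z4 z5 z6 z7 z8 z9
    omega
  have kG1 : G 1 = (D 6) * 1 := by
    clear x0 x1 x2 x3 x4 x7 x8 x9 y0 y1 y3 y4 y5 y6 y7 y8 z2 z3 z4 z5 z6 z7 z8 z9
    omega
  refine Or.inl ⟨1, 6, 1, 9, (D 6), by linarith, all10 ?_ ?_ ?_ ?_ ?_ ?_ ?_ ?_ ?_ ?_,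
    all10 ?_ ?_ ?_ ?_ ?_ ?_ ?_ ?_ ?_ ?_, all10 ?_ ?_ ?_ ?_ ?_ ?_ ?_ ?_ ?_ ?_⟩
  · show D 0 = (D 6) * 0
    rw [mul_zero]; exact x0
  · show D 1 = (D 6) * 0
    rw [mul_zero]; exact x1
  · show D 2 = (D 6) * 0
    rw [mul_zero]; exact x2
  · show D 3 = (D 6) * 0
    rw [mul_zero]; exact x3
  · show D 4 = (D 6) * 0
    rw [mul_zero]; exact x4
  · exact kD5
  · exact kD6
  · show D 7 = (D 6) * 0
    rw [mul_zero]; exact x7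
  · show D 8 = (D 6) * 0
    rw [mul_zero]; exact x8
  · show D 9 = (D 6) * 0
    rw [mul_zero]; exact x9
  · show E 0 = (D 6) * 0
    rw [mul_zero]; exact y0
  · show E 1 = (D 6) * 0
    rw [mul_zero]; exact y1
  · exact kE2
  · show E 3 = (D 6) * 0
    rw [mul_zero]; exact y3
  · show E 4 = (D 6) * 0
    rw [mul_zero]; exact y4
  · show E 5 = (D 6) * 0
    rw [mul_zero]; exact y5
  · show E 6 = (D 6) * 0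
    rw [mul_zero]; exact y6
  · show E 7 = (D 6) * 0
    rw [mul_zero]; exact y7
  · show E 8 = (D 6) * 0
    rw [mul_zero]; exact y8
  · exact kE9
  · exact kG0
  · exact kG1
  · show G 2 = (D 6) * 0
    rw [mul_zero]; exact z2
  · show G 3 = (D 6) * 0
    rw [mul_zero]; exact z3
  · show G 4 = (D 6) * 0
    rw [mul_zero]; exact z4
  · show G 5 = (D 6) * 0
    rw [mul_zero]; exact z5
  · show G 6 = (D 6) * 0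
    rw [mul_zero]; exact z6
  · show G 7 = (D 6) * 0
    rw [mul_zero]; exact z7
  · show G 8 = (D 6) * 0
    rw [mul_zero]; exact z8
  · show G 9 = (D 6) * 0
    rw [mul_zero]; exact z9

lemma cas_540975 (h : H10 D E G d)
    (hl : ∀ i : ℕ, i < 10 → lab D E G (i : ZMod 10) = dg 540975 i) : Con10 D E G := by
  have hk : d ≤ 6 := h.rh10 hl
  obtain ⟨a0, a1, a2, a3, a4, a5, a6, a7, a8, a9⟩ := hl10 hl
  obtain ⟨x0, y0, z0⟩ := h.toTr.m10lab3 (a0.trans rfl)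
  obtain ⟨x1, y1, z1⟩ := h.toTr.m10lab3 (a1.trans rfl)
  obtain ⟨x2, y2, z2⟩ := h.toTr.m10lab2 (a2.trans rfl)
  obtain ⟨x3, y3, z3⟩ := lab0 (a3.trans rfl)
  obtain ⟨x4, y4, z4⟩ := h.toTr.m10lab1 (a4.trans rfl)
  obtain ⟨x5, y5, z5⟩ := lab0 (a5.trans rfl)
  obtain ⟨x6, y6, z6⟩ := lab0 (a6.trans rfl)
  obtain ⟨x7, y7, z7⟩ := h.toTr.m10lab1 (a7.trans rfl)
  obtain ⟨x8, y8, z8⟩ := lab0 (a8.trans rfl)
  obtain ⟨x9, y9, z9⟩ := h.toTr.m10lab2 (a9.trans rfl)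
  have sD := h.toTr.s10
  have sE := h.toTr.rot.s10
  have sG := h.toTr.rot.rot.s10
  have pd := h.pos
  have v1 := dvd10 h.s1
  have v2 := dvd10 h.s2
  have r1 : (E 3 - G 3) + (E 5 - G 5) = (E 6 - G 6) + (E 8 - G 8) :=
    h.rd 4 7 (nz10 x4) (nz10 x7) 1
  have r2 : (E 2 - G 2) + (E 6 - G 6) = (E 5 - G 5) + (E 9 - G 9) :=
    h.rd 4 7 (nz10 x4) (nz10 x7) 2
  have r3 : (E 1 - G 1) + (E 7 - G 7) = (E 4 - G 4) + (E 0 - G 0) :=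
    h.rd 4 7 (nz10 x4) (nz10 x7) 3
  have r4 : (E 0 - G 0) + (E 8 - G 8) = (E 3 - G 3) + (E 1 - G 1) :=
    h.rd 4 7 (nz10 x4) (nz10 x7) 4
  have r5 : (E 9 - G 9) + (E 9 - G 9) = (E 2 - G 2) + (E 2 - G 2) :=
    h.rd 4 7 (nz10 x4) (nz10 x7) 5
  have r6 : (G 1 - D 1) + (G 3 - D 3) = (G 8 - D 8) + (G 0 - D 0) :=
    h.re 2 9 (nz10 y2) (nz10 y9) 1
  have r7 : (G 0 - D 0) + (G 4 - D 4) = (G 7 - D 7) + (G 1 - D 1) :=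
    h.re 2 9 (nz10 y2) (nz10 y9) 2
  have r8 : (G 9 - D 9) + (G 5 - D 5) = (G 6 - D 6) + (G 2 - D 2) :=
    h.re 2 9 (nz10 y2) (nz10 y9) 3
  have r9 : (G 8 - D 8) + (G 6 - D 6) = (G 5 - D 5) + (G 3 - D 3) :=
    h.re 2 9 (nz10 y2) (nz10 y9) 4
  have r10 : (G 7 - D 7) + (G 7 - D 7) = (G 4 - D 4) + (G 4 - D 4) :=
    h.re 2 9 (nz10 y2) (nz10 y9) 5
  have r11 : (D 9 - E 9) + (D 1 - E 1) = (D 0 - E 0) + (D 2 - E 2) :=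
    h.rg 0 1 (nz10 z0) (nz10 z1) 1
  have r12 : (D 8 - E 8) + (D 2 - E 2) = (D 9 - E 9) + (D 3 - E 3) :=
    h.rg 0 1 (nz10 z0) (nz10 z1) 2
  have r13 : (D 7 - E 7) + (D 3 - E 3) = (D 8 - E 8) + (D 4 - E 4) :=
    h.rg 0 1 (nz10 z0) (nz10 z1) 3
  have r14 : (D 6 - E 6) + (D 4 - E 4) = (D 7 - E 7) + (D 5 - E 5) :=
    h.rg 0 1 (nz10 z0) (nz10 z1) 4
  have r15 : (D 5 - E 5) + (D 5 - E 5) = (D 6 - E 6) + (D 6 - E 6) :=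
    h.rg 0 1 (nz10 z0) (nz10 z1) 5
  simp only [x0, x1, x2, x3, x5, x6, x8, x9, y0, y1, y3, y4, y5, y6, y7, y8, z2, z3, z4, z5, z6, z7, z8, z9, sub_zero, zero_sub, add_zero, zero_add, mul_zero, sub_self] at sD sE sG v1 v2 r1 r2 r3 r4 r5 r6 r7 r8 r9 r10 r11 r12 r13 r14 r15
  clear hl a0 a1 a2 a3 a4 a5 a6 a7 a8 a9
  have kD4 : D 4 = (D 7) * 1 := by
    clear x0 x1 x2 x3 x5 x6 x8 x9 y0 y1 y3 y4 y5 y6 y7 y8 z2 z3 z4 z5 z6 z7 z8 z9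
    omega
  have kD7 : D 7 = (D 7) * 1 := by
    clear x0 x1 x2 x3 x5 x6 x8 x9 y0 y1 y3 y4 y5 y6 y7 y8 z2 z3 z4 z5 z6 z7 z8 z9
    omega
  have kE2 : E 2 = (D 7) * 1 := by
    clear x0 x1 x2 x3 x5 x6 x8 x9 y0 y1 y3 y4 y5 y6 y7 y8 z2 z3 z4 z5 z6 z7 z8 z9
    omega
  have kE9 : E 9 = (D 7) * 1 := by
    clear x0 x1 x2 x3 x5 x6 x8 x9 y0 y1 y3 y4 y5 y6 y7 y8 z2 z3 z4 z5 z6 z7 z8 z9
    omega
  have kG0 : G 0 = (D 7) * 1 := by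
    clear x0 x1 x2 x3 x5 x6 x8 x9 y0 y1 y3 y4 y5 y6 y7 y8 z2 z3 z4 z5 z6 z7 z8 z9
    omega
  have kG1 : G 1 = (D 7) * 1 := by
    clear x0 x1 x2 x3 x5 x6 x8 x9 y0 y1 y3 y4 y5 y6 y7 y8 z2 z3 z4 z5 z6 z7 z8 z9
    omega
  refine Or.inl ⟨1, 7, 1, 9, (D 7), by linarith, all10 ?_ ?_ ?_ ?_ ?_ ?_ ?_ ?_ ?_ ?_,
    all10 ?_ ?_ ?_ ?_ ?_ ?_ ?_ ?_ ?_ ?_, all10 ?_ ?_ ?_ ?_ ?_ ?_ ?_ ?_ ?_ ?_⟩
  · show D 0 = (D 7) * 0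
    rw [mul_zero]; exact x0
  · show D 1 = (D 7) * 0
    rw [mul_zero]; exact x1
  · show D 2 = (D 7) * 0
    rw [mul_zero]; exact x2
  · show D 3 = (D 7) * 0
    rw [mul_zero]; exact x3
  · exact kD4
  · show D 5 = (D 7) * 0
    rw [mul_zero]; exact x5
  · show D 6 = (D 7) * 0
    rw [mul_zero]; exact x6
  · exact kD7
  · show D 8 = (D 7) * 0
    rw [mul_zero]; exact x8
  · show D 9 = (D 7) * 0
    rw [mul_zero]; exact x9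
  · show E 0 = (D 7) * 0
    rw [mul_zero]; exact y0
  · show E 1 = (D 7) * 0
    rw [mul_zero]; exact y1
  · exact kE2
  · show E 3 = (D 7) * 0
    rw [mul_zero]; exact y3
  · show E 4 = (D 7) * 0
    rw [mul_zero]; exact y4
  · show E 5 = (D 7) * 0
    rw [mul_zero]; exact y5
  · show E 6 = (D 7) * 0
    rw [mul_zero]; exact y6
  · show E 7 = (D 7) * 0
    rw [mul_zero]; exact y7
  · show E 8 = (D 7) * 0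
    rw [mul_zero]; exact y8
  · exact kE9
  · exact kG0
  · exact kG1
  · show G 2 = (D 7) * 0
    rw [mul_zero]; exact z2
  · show G 3 = (D 7) * 0
    rw [mul_zero]; exact z3
  · show G 4 = (D 7) * 0
    rw [mul_zero]; exact z4
  · show G 5 = (D 7) * 0
    rw [mul_zero]; exact z5
  · show G 6 = (D 7) * 0
    rw [mul_zero]; exact z6
  · show G 7 = (D 7) * 0
    rw [mul_zero]; exact z7
  · show G 8 = (D 7) * 0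
    rw [mul_zero]; exact z8
  · show G 9 = (D 7) * 0
    rw [mul_zero]; exact z9

lemma cas_589935 (h : H10 D E G d)
    (hl : ∀ i : ℕ, i < 10 → lab D E G (i : ZMod 10) = dg 589935 i) : Con10 D E G := by
  have hk : d ≤ 6 := h.rh10 hl
  obtain ⟨a0, a1, a2, a3, a4, a5, a6, a7, a8, a9⟩ := hl10 hl
  obtain ⟨x0, y0, z0⟩ := h.toTr.m10lab3 (a0.trans rfl)
  obtain ⟨x1, y1, z1⟩ := h.toTr.m10lab3 (a1.trans rfl)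
  obtain ⟨x2, y2, z2⟩ := h.toTr.m10lab2 (a2.trans rfl)
  obtain ⟨x3, y3, z3⟩ := h.toTr.m10lab1 (a3.trans rfl)
  obtain ⟨x4, y4, z4⟩ := lab0 (a4.trans rfl)
  obtain ⟨x5, y5, z5⟩ := lab0 (a5.trans rfl)
  obtain ⟨x6, y6, z6⟩ := lab0 (a6.trans rfl)
  obtain ⟨x7, y7, z7⟩ := lab0 (a7.trans rfl)
  obtain ⟨x8, y8, z8⟩ := h.toTr.m10lab1 (a8.trans rfl)
  obtain ⟨x9, y9, z9⟩ := h.toTr.m10lab2 (a9.trans rfl)
  have sD := h.toTr.s10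
  have sE := h.toTr.rot.s10
  have sG := h.toTr.rot.rot.s10
  have pd := h.pos
  have v1 := dvd10 h.s1
  have v2 := dvd10 h.s2
  have r1 : (E 2 - G 2) + (E 4 - G 4) = (E 7 - G 7) + (E 9 - G 9) :=
    h.rd 3 8 (nz10 x3) (nz10 x8) 1
  have r2 : (E 1 - G 1) + (E 5 - G 5) = (E 6 - G 6) + (E 0 - G 0) :=
    h.rd 3 8 (nz10 x3) (nz10 x8) 2
  have r3 : (E 0 - G 0) + (E 6 - G 6) = (E 5 - G 5) + (E 1 - G 1) :=
    h.rd 3 8 (nz10 x3) (nz10 x8) 3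
  have r4 : (E 9 - G 9) + (E 7 - G 7) = (E 4 - G 4) + (E 2 - G 2) :=
    h.rd 3 8 (nz10 x3) (nz10 x8) 4
  have r5 : (E 8 - G 8) + (E 8 - G 8) = (E 3 - G 3) + (E 3 - G 3) :=
    h.rd 3 8 (nz10 x3) (nz10 x8) 5
  have r6 : (G 1 - D 1) + (G 3 - D 3) = (G 8 - D 8) + (G 0 - D 0) :=
    h.re 2 9 (nz10 y2) (nz10 y9) 1
  have r7 : (G 0 - D 0) + (G 4 - D 4) = (G 7 - D 7) + (G 1 - D 1) :=
    h.re 2 9 (nz10 y2) (nz10 y9) 2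
  have r8 : (G 9 - D 9) + (G 5 - D 5) = (G 6 - D 6) + (G 2 - D 2) :=
    h.re 2 9 (nz10 y2) (nz10 y9) 3
  have r9 : (G 8 - D 8) + (G 6 - D 6) = (G 5 - D 5) + (G 3 - D 3) :=
    h.re 2 9 (nz10 y2) (nz10 y9) 4
  have r10 : (G 7 - D 7) + (G 7 - D 7) = (G 4 - D 4) + (G 4 - D 4) :=
    h.re 2 9 (nz10 y2) (nz10 y9) 5
  have r11 : (D 9 - E 9) + (D 1 - E 1) = (D 0 - E 0) + (D 2 - E 2) :=
    h.rg 0 1 (nz10 z0) (nz10 z1) 1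
  have r12 : (D 8 - E 8) + (D 2 - E 2) = (D 9 - E 9) + (D 3 - E 3) :=
    h.rg 0 1 (nz10 z0) (nz10 z1) 2
  have r13 : (D 7 - E 7) + (D 3 - E 3) = (D 8 - E 8) + (D 4 - E 4) :=
    h.rg 0 1 (nz10 z0) (nz10 z1) 3
  have r14 : (D 6 - E 6) + (D 4 - E 4) = (D 7 - E 7) + (D 5 - E 5) :=
    h.rg 0 1 (nz10 z0) (nz10 z1) 4
  have r15 : (D 5 - E 5) + (D 5 - E 5) = (D 6 - E 6) + (D 6 - E 6) :=
    h.rg 0 1 (nz10 z0) (nz10 z1) 5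
  simp only [x0, x1, x2, x4, x5, x6, x7, x9, y0, y1, y3, y4, y5, y6, y7, y8, z2, z3, z4, z5, z6, z7, z8, z9, sub_zero, zero_sub, add_zero, zero_add, mul_zero, sub_self] at sD sE sG v1 v2 r1 r2 r3 r4 r5 r6 r7 r8 r9 r10 r11 r12 r13 r14 r15
  clear hl a0 a1 a2 a3 a4 a5 a6 a7 a8 a9
  have kD3 : D 3 = (D 8) * 1 := by
    clear x0 x1 x2 x4 x5 x6 x7 x9 y0 y1 y3 y4 y5 y6 y7 y8 z2 z3 z4 z5 z6 z7 z8 z9
    omega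
  have kD8 : D 8 = (D 8) * 1 := by
    clear x0 x1 x2 x4 x5 x6 x7 x9 y0 y1 y3 y4 y5 y6 y7 y8 z2 z3 z4 z5 z6 z7 z8 z9
    omega
  have kE2 : E 2 = (D 8) * 1 := by
    clear x0 x1 x2 x4 x5 x6 x7 x9 y0 y1 y3 y4 y5 y6 y7 y8 z2 z3 z4 z5 z6 z7 z8 z9
    omega
  have kE9 : E 9 = (D 8) * 1 := by
    clear x0 x1 x2 x4 x5 x6 x7 x9 y0 y1 y3 y4 y5 y6 y7 y8 z2 z3 z4 z5 z6 z7 z8 z9
    omega
  have kG0 : G 0 = (D 8) * 1 := by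
    clear x0 x1 x2 x4 x5 x6 x7 x9 y0 y1 y3 y4 y5 y6 y7 y8 z2 z3 z4 z5 z6 z7 z8 z9
    omega
  have kG1 : G 1 = (D 8) * 1 := by
    clear x0 x1 x2 x4 x5 x6 x7 x9 y0 y1 y3 y4 y5 y6 y7 y8 z2 z3 z4 z5 z6 z7 z8 z9
    omega
  refine Or.inl ⟨1, 8, 1, 9, (D 8), by linarith, all10 ?_ ?_ ?_ ?_ ?_ ?_ ?_ ?_ ?_ ?_,
    all10 ?_ ?_ ?_ ?_ ?_ ?_ ?_ ?_ ?_ ?_, all10 ?_ ?_ ?_ ?_ ?_ ?_ ?_ ?_ ?_ ?_⟩
  · show D 0 = (D 8) * 0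
    rw [mul_zero]; exact x0
  · show D 1 = (D 8) * 0
    rw [mul_zero]; exact x1
  · show D 2 = (D 8) * 0
    rw [mul_zero]; exact x2
  · exact kD3
  · show D 4 = (D 8) * 0
    rw [mul_zero]; exact x4
  · show D 5 = (D 8) * 0
    rw [mul_zero]; exact x5
  · show D 6 = (D 8) * 0
    rw [mul_zero]; exact x6
  · show D 7 = (D 8) * 0
    rw [mul_zero]; exact x7
  · exact kD8
  · show D 9 = (D 8) * 0
    rw [mul_zero]; exact x9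
  · show E 0 = (D 8) * 0
    rw [mul_zero]; exact y0
  · show E 1 = (D 8) * 0
    rw [mul_zero]; exact y1
  · exact kE2
  · show E 3 = (D 8) * 0
    rw [mul_zero]; exact y3
  · show E 4 = (D 8) * 0
    rw [mul_zero]; exact y4
  · show E 5 = (D 8) * 0
    rw [mul_zero]; exact y5
  · show E 6 = (D 8) * 0
    rw [mul_zero]; exact y6
  · show E 7 = (D 8) * 0
    rw [mul_zero]; exact y7
  · show E 8 = (D 8) * 0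
    rw [mul_zero]; exact y8
  · exact kE9
  · exact kG0
  · exact kG1
  · show G 2 = (D 8) * 0
    rw [mul_zero]; exact z2
  · show G 3 = (D 8) * 0
    rw [mul_zero]; exact z3
  · show G 4 = (D 8) * 0
    rw [mul_zero]; exact z4
  · show G 5 = (D 8) * 0
    rw [mul_zero]; exact z5
  · show G 6 = (D 8) * 0
    rw [mul_zero]; exact z6
  · show G 7 = (D 8) * 0
    rw [mul_zero]; exact z7
  · show G 8 = (D 8) * 0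
    rw [mul_zero]; exact z8
  · show G 9 = (D 8) * 0
    rw [mul_zero]; exact z9

lemma cas_638575 (h : H10 D E G d)
    (hl : ∀ i : ℕ, i < 10 → lab D E G (i : ZMod 10) = dg 638575 i) : Con10 D E G := by
  have hk : d ≤ 10 := h.rh10 hl
  obtain ⟨a0, a1, a2, a3, a4, a5, a6, a7, a8, a9⟩ := hl10 hl
  obtain ⟨x0, y0, z0⟩ := h.toTr.m10lab3 (a0.trans rfl)
  obtain ⟨x1, y1, z1⟩ := h.toTr.m10lab3 (a1.trans rfl)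
  obtain ⟨x2, y2, z2⟩ := h.toTr.m10lab2 (a2.trans rfl)
  obtain ⟨x3, y3, z3⟩ := h.toTr.m10lab1 (a3.trans rfl)
  obtain ⟨x4, y4, z4⟩ := h.toTr.m10lab2 (a4.trans rfl)
  obtain ⟨x5, y5, z5⟩ := h.toTr.m10lab3 (a5.trans rfl)
  obtain ⟨x6, y6, z6⟩ := h.toTr.m10lab3 (a6.trans rfl)
  obtain ⟨x7, y7, z7⟩ := h.toTr.m10lab2 (a7.trans rfl)
  obtain ⟨x8, y8, z8⟩ := h.toTr.m10lab1 (a8.trans rfl)
  obtain ⟨x9, y9, z9⟩ := h.toTr.m10lab2 (a9.trans rfl)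
  have sD := h.toTr.s10
  have sE := h.toTr.rot.s10
  have sG := h.toTr.rot.rot.s10
  have pd := h.pos
  have v1 := dvd10 h.s1
  have v2 := dvd10 h.s2
  have r1 : (E 2 - G 2) + (E 4 - G 4) = (E 7 - G 7) + (E 9 - G 9) :=
    h.rd 3 8 (nz10 x3) (nz10 x8) 1
  have r2 : (E 1 - G 1) + (E 5 - G 5) = (E 6 - G 6) + (E 0 - G 0) :=
    h.rd 3 8 (nz10 x3) (nz10 x8) 2
  have r3 : (E 0 - G 0) + (E 6 - G 6) = (E 5 - G 5) + (E 1 - G 1) :=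
    h.rd 3 8 (nz10 x3) (nz10 x8) 3
  have r4 : (E 9 - G 9) + (E 7 - G 7) = (E 4 - G 4) + (E 2 - G 2) :=
    h.rd 3 8 (nz10 x3) (nz10 x8) 4
  have r5 : (E 8 - G 8) + (E 8 - G 8) = (E 3 - G 3) + (E 3 - G 3) :=
    h.rd 3 8 (nz10 x3) (nz10 x8) 5
  have r6 : (G 1 - D 1) + (G 3 - D 3) = (G 3 - D 3) + (G 5 - D 5) :=
    h.re 2 4 (nz10 y2) (nz10 y4) 1
  have r7 : (G 0 - D 0) + (G 4 - D 4) = (G 2 - D 2) + (G 6 - D 6) :=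
    h.re 2 4 (nz10 y2) (nz10 y4) 2
  have r8 : (G 9 - D 9) + (G 5 - D 5) = (G 1 - D 1) + (G 7 - D 7) :=
    h.re 2 4 (nz10 y2) (nz10 y4) 3
  have r9 : (G 8 - D 8) + (G 6 - D 6) = (G 0 - D 0) + (G 8 - D 8) :=
    h.re 2 4 (nz10 y2) (nz10 y4) 4
  have r10 : (G 7 - D 7) + (G 7 - D 7) = (G 9 - D 9) + (G 9 - D 9) :=
    h.re 2 4 (nz10 y2) (nz10 y4) 5
  have r11 : (G 1 - D 1) + (G 3 - D 3) = (G 6 - D 6) + (G 8 - D 8) :=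
    h.re 2 7 (nz10 y2) (nz10 y7) 1
  have r12 : (G 0 - D 0) + (G 4 - D 4) = (G 5 - D 5) + (G 9 - D 9) :=
    h.re 2 7 (nz10 y2) (nz10 y7) 2
  have r13 : (G 9 - D 9) + (G 5 - D 5) = (G 4 - D 4) + (G 0 - D 0) :=
    h.re 2 7 (nz10 y2) (nz10 y7) 3
  have r14 : (G 8 - D 8) + (G 6 - D 6) = (G 3 - D 3) + (G 1 - D 1) :=
    h.re 2 7 (nz10 y2) (nz10 y7) 4
  have r15 : (G 7 - D 7) + (G 7 - D 7) = (G 2 - D 2) + (G 2 - D 2) :=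
    h.re 2 7 (nz10 y2) (nz10 y7) 5
  have r16 : (G 1 - D 1) + (G 3 - D 3) = (G 8 - D 8) + (G 0 - D 0) :=
    h.re 2 9 (nz10 y2) (nz10 y9) 1
  have r17 : (G 0 - D 0) + (G 4 - D 4) = (G 7 - D 7) + (G 1 - D 1) :=
    h.re 2 9 (nz10 y2) (nz10 y9) 2
  have r18 : (G 9 - D 9) + (G 5 - D 5) = (G 6 - D 6) + (G 2 - D 2) :=
    h.re 2 9 (nz10 y2) (nz10 y9) 3
  have r19 : (G 8 - D 8) + (G 6 - D 6) = (G 5 - D 5) + (G 3 - D 3) :=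
    h.re 2 9 (nz10 y2) (nz10 y9) 4
  have r20 : (G 7 - D 7) + (G 7 - D 7) = (G 4 - D 4) + (G 4 - D 4) :=
    h.re 2 9 (nz10 y2) (nz10 y9) 5
  have r21 : (D 9 - E 9) + (D 1 - E 1) = (D 0 - E 0) + (D 2 - E 2) :=
    h.rg 0 1 (nz10 z0) (nz10 z1) 1
  have r22 : (D 8 - E 8) + (D 2 - E 2) = (D 9 - E 9) + (D 3 - E 3) :=
    h.rg 0 1 (nz10 z0) (nz10 z1) 2
  have r23 : (D 7 - E 7) + (D 3 - E 3) = (D 8 - E 8) + (D 4 - E 4) :=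
    h.rg 0 1 (nz10 z0) (nz10 z1) 3
  have r24 : (D 6 - E 6) + (D 4 - E 4) = (D 7 - E 7) + (D 5 - E 5) :=
    h.rg 0 1 (nz10 z0) (nz10 z1) 4
  have r25 : (D 5 - E 5) + (D 5 - E 5) = (D 6 - E 6) + (D 6 - E 6) :=
    h.rg 0 1 (nz10 z0) (nz10 z1) 5
  have r26 : (D 9 - E 9) + (D 1 - E 1) = (D 4 - E 4) + (D 6 - E 6) :=
    h.rg 0 5 (nz10 z0) (nz10 z5) 1
  have r27 : (D 8 - E 8) + (D 2 - E 2) = (D 3 - E 3) + (D 7 - E 7) :=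
    h.rg 0 5 (nz10 z0) (nz10 z5) 2
  have r28 : (D 7 - E 7) + (D 3 - E 3) = (D 2 - E 2) + (D 8 - E 8) :=
    h.rg 0 5 (nz10 z0) (nz10 z5) 3
  have r29 : (D 6 - E 6) + (D 4 - E 4) = (D 1 - E 1) + (D 9 - E 9) :=
    h.rg 0 5 (nz10 z0) (nz10 z5) 4
  have r30 : (D 5 - E 5) + (D 5 - E 5) = (D 0 - E 0) + (D 0 - E 0) :=
    h.rg 0 5 (nz10 z0) (nz10 z5) 5
  have r31 : (D 9 - E 9) + (D 1 - E 1) = (D 5 - E 5) + (D 7 - E 7) :=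
    h.rg 0 6 (nz10 z0) (nz10 z6) 1
  have r32 : (D 8 - E 8) + (D 2 - E 2) = (D 4 - E 4) + (D 8 - E 8) :=
    h.rg 0 6 (nz10 z0) (nz10 z6) 2
  have r33 : (D 7 - E 7) + (D 3 - E 3) = (D 3 - E 3) + (D 9 - E 9) :=
    h.rg 0 6 (nz10 z0) (nz10 z6) 3
  have r34 : (D 6 - E 6) + (D 4 - E 4) = (D 2 - E 2) + (D 0 - E 0) :=
    h.rg 0 6 (nz10 z0) (nz10 z6) 4
  have r35 : (D 5 - E 5) + (D 5 - E 5) = (D 1 - E 1) + (D 1 - E 1) :=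
    h.rg 0 6 (nz10 z0) (nz10 z6) 5
  simp only [x0, x1, x2, x4, x5, x6, x7, x9, y0, y1, y3, y5, y6, y8, z2, z3, z4, z7, z8, z9, sub_zero, zero_sub, add_zero, zero_add, mul_zero, sub_self] at sD sE sG v1 v2 r1 r2 r3 r4 r5 r6 r7 r8 r9 r10 r11 r12 r13 r14 r15 r16 r17 r18 r19 r20 r21 r22 r23 r24 r25 r26 r27 r28 r29 r30 r31 r32 r33 r34 r35
  clear hl a0 a1 a2 a3 a4 a5 a6 a7 a8 a9
  have hh : (D 3 = 2 ∧ D 8 = 2 ∧ E 2 = 1 ∧ E 4 = 1 ∧ E 7 = 1 ∧ E 9 = 1 ∧ G 0 = 1 ∧ G 1 = 1 ∧ G 5 = 1 ∧ G 6 = 1) ∨ (D 3 = 4 ∧ D 8 = 4 ∧ E 2 = 2 ∧ E 4 = 2 ∧ E 7 = 2 ∧ E 9 = 2 ∧ G 0 = 2 ∧ G 1 = 2 ∧ G 5 = 2 ∧ G 6 = 2) := by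
    clear x0 x1 x2 x4 x5 x6 x7 x9 y0 y1 y3 y5 y6 y8 z2 z3 z4 z7 z8 z9
    have g0 : D 3 = (2) * G 6 := by clear v1 v2; omega
    have g1 : D 8 = (2) * G 6 := by clear v1 v2; omega
    have g2 : E 2 = (1) * G 6 := by clear v1 v2; omega
    have g3 : E 4 = (1) * G 6 := by clear v1 v2; omega
    have g4 : E 7 = (1) * G 6 := by clear v1 v2; omega
    have g5 : E 9 = (1) * G 6 := by clear v1 v2; omega
    have g6 : G 0 = (1) * G 6 := by clear v1 v2; omega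
    have g7 : G 1 = (1) * G 6 := by clear v1 v2; omega
    have g8 : G 5 = (1) * G 6 := by clear v1 v2; omega
    clear r1 r2 r3 r4 r5 r6 r7 r8 r9 r10 r11 r12 r13 r14 r15 r16 r17 r18 r19 r20 r21 r22 r23 r24 r25 r26 r27 r28 r29 r30 r31 r32 r33 r34 r35 sE sG
    simp only [g0, g1, g2, g3, g4, g5, g6, g7, g8] at sD v1 v2 ⊢
    clear g0 g1 g2 g3 g4 g5 g6 g7 g8
    omega
  rcases hh with hh | hh
  · refine Or.inr ⟨1, (Or.inl (Or.inl ⟨funext (all10 ?_ ?_ ?_ ?_ ?_ ?_ ?_ ?_ ?_ ?_),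
      funext (all10 ?_ ?_ ?_ ?_ ?_ ?_ ?_ ?_ ?_ ?_), funext (all10 ?_ ?_ ?_ ?_ ?_ ?_ ?_ ?_ ?_ ?_)⟩))⟩
    · exact x1
    · exact x2
    · show D 3 = 2
      exact hh.1
    · exact x4
    · exact x5
    · exact x6
    · exact x7
    · show D 8 = 2
      exact hh.2.1
    · exact x9
    · exact x0
    · exact y1
    · show E 2 = 1
      exact hh.2.2.1
    · exact y3
    · show E 4 = 1
      exact hh.2.2.2.1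
    · exact y5
    · exact y6
    · show E 7 = 1
      exact hh.2.2.2.2.1
    · exact y8
    · show E 9 = 1
      exact hh.2.2.2.2.2.1
    · exact y0
    · show G 1 = 1
      exact hh.2.2.2.2.2.2.2.1
    · exact z2
    · exact z3
    · exact z4
    · show G 5 = 1
      exact hh.2.2.2.2.2.2.2.2.1
    · show G 6 = 1
      exact hh.2.2.2.2.2.2.2.2.2
    · exact z7
    · exact z8
    · exact z9
    · show G 0 = 1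
      exact hh.2.2.2.2.2.2.1
  · refine Or.inr ⟨1, (Or.inl (Or.inr ⟨funext (all10 ?_ ?_ ?_ ?_ ?_ ?_ ?_ ?_ ?_ ?_),
      funext (all10 ?_ ?_ ?_ ?_ ?_ ?_ ?_ ?_ ?_ ?_), funext (all10 ?_ ?_ ?_ ?_ ?_ ?_ ?_ ?_ ?_ ?_)⟩))⟩
    · exact x1
    · exact x2
    · show D 3 = 4
      exact hh.1
    · exact x4
    · exact x5
    · exact x6
    · exact x7
    · show D 8 = 4
      exact hh.2.1
    · exact x9
    · exact x0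
    · exact y1
    · show E 2 = 2
      exact hh.2.2.1
    · exact y3
    · show E 4 = 2
      exact hh.2.2.2.1
    · exact y5
    · exact y6
    · show E 7 = 2
      exact hh.2.2.2.2.1
    · exact y8
    · show E 9 = 2
      exact hh.2.2.2.2.2.1
    · exact y0
    · show G 1 = 2
      exact hh.2.2.2.2.2.2.2.1
    · exact z2
    · exact z3
    · exact z4
    · show G 5 = 2
      exact hh.2.2.2.2.2.2.2.2.1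
    · show G 6 = 2
      exact hh.2.2.2.2.2.2.2.2.2
    · exact z7
    · exact z8
    · exact z9
    · show G 0 = 2
      exact hh.2.2.2.2.2.2.1

lemma H10.normal (h : H10 D E G d) (c : ℕ) (hc : c ∈ can)
    (hl : ∀ i : ℕ, i < 10 → lab D E G (i : ZMod 10) = dg c i) : Con10 D E G := by
  unfold can at hc
  simp only [List.mem_cons, List.not_mem_nil, or_false] at hc
  rcases hc with rfl | rfl | rfl | rfl | rfl | rfl | rfl | rfl | rfl | rfl | rfl | rfl | rfl | rfl | rfl | rfl | rfl | rfl | rfl | rfl | rfl | rfl | rfl | rfl | rfl | rfl | rfl | rfl | rfl | rfl | rfl | rfl | rfl | rfl | rfl | rfl | rfl | rfl | rfl | rfl | rfl | rfl | rfl | rfl | rfl | rfl | rfl | rfl | rfl | rfl | rfl | rfl | rfl | rfl | rfl | rfl | rfl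
  · exact cas_4227 h hl
  · exact cas_16419 h hl
  · exact cas_4131 h hl
  · exact cas_1059 h hl
  · exact cas_33827 h hl
  · exact cas_19491 h hl
  · exact cas_291 h hl
  · exact cas_33059 h hl
  · exact cas_17187 h hl
  · exact cas_135731 h hl
  · exact cas_65547 h hl
  · exact cas_16395 h hl
  · exact cas_4107 h hl
  · exact cas_73739 h hl
  · exact cas_1035 h hl
  · exact cas_9227 h hl
  · exact cas_68619 h hl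
  · exact cas_19467 h hl
  · exact cas_7179 h hl
  · exact cas_267 h hl
  · exact cas_8459 h hl
  · exact cas_3339 h hl
  · exact cas_75 h hl
  · exact cas_65611 h hl
  · exact cas_8267 h hl
  · exact cas_73803 h hl
  · exact cas_14411 h hl
  · exact cas_79947 h hl
  · exact cas_3147 h hl
  · exact cas_68683 h hl
  · exact cas_11339 h hl
  · exact cas_76875 h hl
  · exact cas_17291 h hl
  · exact cas_70539 h hl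
  · exact cas_27 h hl
  · exact cas_16411 h hl
  · exact cas_8219 h hl
  · exact cas_24603 h hl
  · exact cas_58395 h hl
  · exact cas_3099 h hl
  · exact cas_19483 h hl
  · exact cas_11291 h hl
  · exact cas_27675 h hl
  · exact cas_14619 h hl
  · exact cas_4155 h hl
  · exact cas_17467 h hl
  · exact cas_25659 h hl
  · exact cas_65851 h hl
  · exact cas_74043 h hl
  · exact cas_262267 h hl
  · exact cas_270459 h hl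
  · exact cas_136335 h hl
  · exact cas_147855 h hl
  · exact cas_529455 h hl
  · exact cas_540975 h hl
  · exact cas_589935 h hl
  · exact cas_638575 h hl

/-- **three effective divisors on the cyclic group of order ten** -/
theorem H10.main (h : H10 D E G d) : Con10 D E G :=
  h.red fun h c hc hl => h.normal c hc hl

end Pool.Agent.UP10
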