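import Pool.Agent.Lib_helper40.UP10.Base10

/-!
# The labelled patterns on the cyclic group of order ten
-/

set_option autoImplicit false
set_option linter.unusedVariables false

namespace Pool.Agent.UP10

/-- a digit in base four -/
def dg (n i : ℕ) : ℕ := n / 4 ^ i % 4

/-- the pairs -/
def prs : List (ℕ × ℕ) := [(0, 1), (0, 2), (0, 3), (0, 4), (0, 6), (0, 7), (0, 8), (0, 9), (1, 2), (1, 3), (1, 4),
  (1, 5), (1, 7), (1, 8), (1, 9), (2, 3), (2, 4), (2, 5), (2, 6), (2, 8), (2, 9), (3, 4),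
  (3, 5), (3, 6), (3, 7), (3, 9), (4, 5), (4, 6), (4, 7), (4, 8), (5, 6), (5, 7), (5, 8),
  (5, 9), (6, 7), (6, 8), (6, 9), (7, 8), (7, 9), (8, 9)]

/-- the six orders -/
def prm : List ℕ := [228, 180, 216, 120, 156, 108]

/-- the normal forms -/
def can : List ℕ := [4227, 16419, 4131, 1059, 33827, 19491, 291, 33059, 17187, 135731, 65547, 16395, 4107,
  73739, 1035, 9227, 68619, 19467, 7179, 267, 8459, 3339, 75, 65611, 8267, 73803, 14411,
  79947, 3147, 68683, 11339, 76875, 17291, 70539, 27, 16411, 8219, 24603, 58395, 3099,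
  19483, 11291, 27675, 14619, 4155, 17467, 25659, 65851, 74043, 262267, 270459, 136335,
  147855, 529455, 540975, 589935, 638575]

/-- the code -/
def cod (a : ℕ → ℕ) : ℕ := a 0 + a 1 * 4 + a 2 * 16 + a 3 * 64 + a 4 * 256 + a 5 * 1024 + a 6 * 4096 + a 7 * 16384 + a 8 * 65536 + a 9 * 262144

/-- the codes, with a translation, a change of order and the normal form -/
def tab : List (List (ℕ × ℕ × ℕ × ℕ)) := [[(917505, 8, 180, 27), (720897, 8, 228, 27), (819201, 9, 216, 65547), (229377, 7, 180, 75), (573441, 9, 120, 65547), (180225, 7, 228, 75), (757761, 7, 180, 262267), (970753, 7, 228, 262267), (794625, 9, 216, 16395), (204801, 6, 180, 291), (57345, 6, 180, 267), (536577, 9, 120, 16395), (143361, 6, 228, 291), (45057, 6, 228, 267), (918529, 8, 180, 16411), (721921, 8, 228, 16411), (820225, 9, 216, 73739), (230401, 7, 180, 65611), (574465, 9, 120, 73739), (181249, 7, 228, 65611), (795649, 5, 108, 3339), (205825, 5, 108, 3147), (58369, 5, 108, 3099), (779265,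 7, 228, 589935), (537601, 5, 156, 3339), (144385, 5, 156, 3147), (46081, 5, 156, 3099), (963585, 7, 180, 589935), (788481, 9, 216, 4107), (198657, 8, 216, 16419), (51201, 5, 180, 1059), (14337, 5, 180, 1035), (527361, 9, 120, 4107), (134145, 8, 120, 16419), (35841, 5, 228, 1059), (11265, 5, 228, 1035), (188673, 6, 180, 65851), (241921, 6, 228, 65851), (575745, 4, 108, 14411), (735489, 4, 108, 14619), (822529, 4, 156, 14411), (929025, 4, 156, 14619), (786945, 9, 216, 1035), (852481, 8, 156, 4155), (197121, 8, 216, 4131), (721409, 8, 228, 8219), (49665, 4, 180, 4227), (573953, 9, 120, 68619), (12801, 4, 180, 4131), (537089, 9, 120, 19467), (787969, 4, 120, 9227), (198145, 4, 120, 8459), (722433, 8, 228, 24603), (50689, 4, 120, 8267), (574977, 4, 120, 11339), (13825, 4, 120, 8219), (538113, 4, 120, 11291), (3585, 4, 180, 4107), (527873, 4, 180, 7179), (11777, 4, 180, 4155), (525057, 9, 120, 1035), (590593, 8, 108, 4155), (131841, 8, 120, 4131), (918273, 8,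 180, 8219), (33537, 4, 228, 4227), (819969, 9, 216, 68619), (8961, 4, 228, 4131), (795393, 9, 216, 19467), (526081, 4, 216, 9227), (132865, 4, 216, 8459), (919297, 8, 180, 24603), (34561, 4, 216, 8267), (820993, 4, 216, 11339), (9985, 4, 216, 8219), (796417, 4, 216, 11291), (2817, 4, 228, 4107), (789249, 4, 228, 7179), (15105, 4, 228, 4155)],
  [(48645, 5, 228, 529455), (60165, 5, 180, 529455)],
  [(786441, 9, 216, 27), (196617, 0, 108, 65547), (884745, 8, 156, 262267), (49161, 0, 108, 16395), (794633, 9, 216, 16411), (204809, 0, 108, 73739), (1007625, 8, 216, 589935), (57353, 6, 180, 3339), (12297, 0, 108, 4107), (787465, 9, 216, 8219), (197641, 0, 108, 68619), (50185, 0, 108, 19467), (795657, 9, 216, 24603), (205833, 5, 108, 11339), (58377, 5, 108, 11291), (13321, 0, 108, 7179), (202761, 5, 120, 14411), (841737, 5, 120, 14619), (3081, 0, 108, 1035), (527369, 9, 120, 4155), (11273, 0, 108, 9227), (247305, 7, 216, 147855), (800265, 4, 120, 58395), (777,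 0, 108, 267), (787209, 9, 216, 3099), (99081, 7, 120, 17291), (885513, 8, 156, 270459), (8969, 0, 108, 8459), (795401, 9, 216, 19483), (537353, 9, 120, 17467), (1801, 0, 108, 3339), (788233, 9, 216, 11291), (9993, 4, 216, 24603), (796425, 4, 216, 27675), (538377, 4, 216, 25659), (397065, 9, 108, 529455)],
  [(524301, 9, 120, 27), (131085, 0, 156, 65547), (32781, 0, 156, 16395), (638989, 8, 108, 262267), (8205, 0, 156, 4107), (536589, 9, 120, 16411), (143373, 0, 156, 73739), (684045, 8, 120, 589935), (45069, 6, 228, 3339), (525325, 9, 120, 8219), (132109, 0, 156, 68619), (33805, 0, 156, 19467), (9229, 0, 156, 7179), (537613, 9, 120, 24603), (144397, 5, 156, 11339), (46093, 5, 156, 11291), (2061, 0, 156, 1035), (788493, 9, 216, 4155), (14349, 0, 156, 9227), (138253, 5, 216, 14411), (564237, 5, 216, 14619), (525, 0, 156, 267), (524813, 9, 120, 3099), (115213, 7, 216, 17291), (639501, 8, 108, 270459), (795149, 9, 216, 17467), (12813, 0, 156, 8459), (537101,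 9, 120, 19483), (1549, 0, 156, 3339), (525837, 9, 120, 11291), (796173, 4, 120, 25659), (13837, 4, 120, 24603), (538125, 4, 120, 27675), (461325, 9, 156, 529455), (165645, 7, 120, 147855), (534285, 4, 216, 58395)],
  [(47121, 5, 180, 17467), (60433, 5, 228, 17467), (143889, 0, 108, 135731), (183825, 4, 180, 70539), (205585, 0, 156, 135731), (232209, 4, 228, 70539)],
  [],
  [(12313, 0, 108, 4155), (52249, 0, 108, 17467), (60441, 0, 108, 25659), (197401, 0, 108, 65851), (205593, 0, 108, 74043)],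
  [(8221, 0, 156, 4155), (34845, 0, 156, 17467), (47133, 0, 156, 25659), (131613, 0, 156, 65851), (143901, 0, 156, 74043)],
  [(786465, 9, 216, 75), (196641, 8, 216, 291), (819233, 9, 216, 65611), (229409, 7, 180, 3147), (49185, 0, 108, 16419), (860193, 8, 156, 65851), (12321, 0, 108, 4131), (45089, 6, 228, 8459), (787489, 9, 216, 8267), (197665, 8, 216, 33059), (820257, 9, 216, 73803), (230433, 7, 180, 68683), (50209, 0, 108, 19491), (13345, 5, 156, 19467), (46113, 5, 156, 19483), (1001505, 8, 216, 540975), (3105, 0, 108, 1059), (134177, 8, 120, 17187), (35873, 0, 108, 33827), (49441, 0, 108, 17187), (209185, 6, 216, 135731), (241953, 6, 228, 74043), (789793, 9, 216, 14411), (822561, 4, 156, 79947), (201249, 2, 120, 135731), (840225, 6, 156, 70539), (801, 0, 108, 291), (787233, 9, 216, 3147), (33569, 0, 108, 33059), (820001, 9, 216, 68683), (74529, 8, 108, 135731), (860961, 8, 156, 74043), (144161, 4, 228, 135731), (1825, 4, 216, 73739), (788257, 9, 216,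 11339), (34593, 4, 216, 73803), (821025, 4, 216, 76875), (145185, 4, 216, 74043), (298785, 4, 228, 136335)],
  [(539685, 0, 108, 529455), (574245, 0, 108, 540975)],
  [],
  [(45, 0, 156, 27), (917549, 9, 216, 262267), (32813, 0, 156, 16411), (491565, 9, 156, 589935), (122925, 6, 180, 14619), (12333, 0, 156, 8219), (45101, 0, 156, 24603), (1069, 0, 156, 3099), (918573, 9, 216, 270459), (33837, 0, 156, 19483), (13357, 0, 156, 11291), (46125, 0, 156, 27675), (30765, 0, 156, 58395), (7725, 0, 156, 14619)],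
  [(524337, 9, 120, 75), (131121, 8, 120, 291), (32817, 0, 156, 16419), (573489, 9, 120, 65611), (180273, 7, 228, 3147), (8241, 0, 156, 4131), (57393, 6, 180, 8459), (602161, 8, 108, 65851), (525361, 9, 120, 8267), (132145, 8, 120, 33059), (33841, 0, 156, 19491), (574513, 9, 120, 73803), (181297, 7, 228, 68683), (9265, 5, 108, 19467), (58417, 5, 108, 19483), (2097, 0, 156, 1059), (198705, 8, 216, 17187), (51249, 0, 156, 33827), (674865, 8, 120, 540975), (33073, 0, 156, 17187), (139569, 6, 120, 135731), (188721, 6, 180, 74043), (526641, 9, 120, 14411), (575793, 4, 108, 79947), (561, 0, 156, 291), (524849, 9, 120, 3147), (49713, 0, 156, 33059), (574001, 9, 120, 68683), (205361, 4, 180, 135731), (78385, 8, 156, 135731), (602673, 8, 108, 74043), (1585, 4, 120, 73739), (525873, 9, 120, 11339), (50737, 4, 120, 73803), (575025, 4, 120, 76875), (206385, 4, 120, 74043), (313905, 4, 180, 136335), (135985, 2, 216, 135731), (561969, 6, 108, 70539)],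
  [(796725, 0, 156, 529455), (819765, 0, 156, 540975)],
  [(57, 0, 108, 27), (720953, 9, 120, 262267), (49209, 0, 108, 16411), (442425, 9, 108, 589935), (8249, 0, 108, 8219), (57401, 0, 108, 24603), (110649, 6, 228, 14619), (1081, 0, 108, 3099), (721977, 9, 120, 270459), (50233, 0, 108, 19483), (9273, 0, 108, 11291), (58425, 0, 108, 27675), (27705, 0, 108, 58395), (6969, 0, 108, 14619)],
  [],
  [(194625, 6, 228, 540975), (240705, 6, 180, 540975), (586305, 6, 228, 147855), (724545, 3, 108, 58395), (828225, 6, 180, 147855), (920385, 3, 156, 58395)],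
  [],
  [],
  [],
  [],
  [],
  [],
  [],
  [],
  [],
  [(61545, 1, 120, 529455), (199785, 1, 120, 540975), (787305, 1, 120, 589935), (894825, 1, 120, 638575)],
  [],
  [],
  [],
  [],
  [(41085, 1, 216, 529455), (133245, 1, 216, 540975), (524925, 1, 216, 589935), (652925, 1, 216, 638575)],
  [(786561, 9, 216, 267), (917633, 8, 180, 3099), (196737, 8, 216, 1059), (49281, 7, 216, 4227), (180353, 7, 228, 8267), (200833, 6, 156, 17187), (839809, 6, 156, 17291), (970881, 7, 228, 270459), (12417, 0, 108, 4227), (143489, 6, 228, 33059), (787585, 9, 216, 8459), (918657, 8, 180, 19483), (197761, 3, 120, 33827), (50305, 3, 120, 33059), (181377, 7, 228, 73803), (13441, 5, 156, 68619), (144513, 5, 156, 68683), (854145, 8, 156, 17467), (3201, 3, 180, 16419), (134273, 3, 180, 19491), (35969, 3, 180, 17187), (1000065, 8, 216, 529455), (897, 3, 180, 16395), (787329, 9, 216, 3339), (131969, 3, 180, 19467), (918401, 8, 180, 11291), (45953, 3, 180, 17291), (1921, 3, 180,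 16411), (788353, 3, 180, 24603), (132993, 3, 180, 19483), (919425, 3, 180, 27675), (46977, 4, 216, 270459), (68481, 3, 180, 17467), (854913, 3, 180, 25659), (274305, 4, 228, 529455)],
  [(146565, 0, 108, 136335), (181125, 0, 108, 147855)],
  [(49545, 0, 108, 17291), (209289, 0, 108, 70539), (789897, 9, 216, 14619)],
  [(141, 0, 156, 75), (131213, 0, 156, 65611), (819341, 9, 216, 65851), (467085, 9, 156, 540975), (12429, 0, 156, 8267), (143501, 0, 156, 73803), (1165, 0, 156, 3147), (132237, 0, 156, 68683), (820365, 9, 216, 74043), (13453, 0, 156, 11339), (144525, 0, 156, 76875), (116877, 7, 216, 70539), (7309, 0, 156, 14411), (138381, 0, 156, 79947), (29325, 3, 180, 147855)],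
  [(536721, 9, 120, 17291), (576657, 9, 120, 70539), (721809, 8, 228, 14619)],
  [],
  [],
  [(524445, 0, 156, 262267), (536733, 0, 156, 270459), (685725, 3, 120, 638575)],
  [(246945, 2, 120, 136335), (799905, 2, 120, 147855)],
  [],
  [],
  [(1965, 2, 180, 589935), (964525, 2, 180, 638575)],
  [(177, 2, 228, 65547), (131249, 2, 228, 73739), (229553, 7, 180, 14411), (49329, 2, 228, 68619), (180401, 7, 228, 11339), (319665, 9, 156, 147855), (1201, 2, 228, 65611), (132273, 2, 228, 73803), (230577, 2, 228, 79947), (50353, 2, 228, 68683), (181425, 2, 228, 76875), (80049, 2, 228, 70539), (20145, 3, 180, 540975), (5041, 2, 228, 65851), (136113, 2, 228, 74043)],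
  [(917685, 0, 156, 589935), (972725, 0, 156, 638575)],
  [(441, 1, 180, 262267), (49593, 1, 180, 270459), (452025, 4, 108, 638575)],
  [],
  [(524481, 9, 120, 267), (131265, 8, 120, 1059), (721089, 8, 228, 3099), (32961, 7, 120, 4227), (229569, 7, 180, 8267), (135361, 6, 108, 17187), (561345, 6, 108, 17291), (757953, 7, 180, 270459), (8385, 0, 156, 4227), (204993, 6, 180, 33059), (525505, 9, 120, 8459), (132289, 3, 216, 33827), (722113, 8, 228, 19483), (33985, 3, 216, 33059), (230593, 7, 180, 73803), (9409, 5, 108, 68619), (206017, 5, 108, 68683), (2241, 3, 228, 16419), (198849, 3, 228, 19491), (51393, 3, 228, 17187), (593089, 8, 108, 17467), (705, 3, 228, 16395), (524993, 9, 120, 3339), (197313, 3, 228, 19467), (721601, 8, 228, 11291), (58049, 3, 228, 17291), (1729, 3, 228, 16411), (526017, 3, 228, 24603), (198337, 3, 228, 19483), (722625, 3, 228, 27675), (59073, 4, 120, 270459), (277185, 4, 180, 529455), (69313, 3, 228, 17467), (593601, 3, 228, 25659),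 (672705, 8, 120, 529455)],
  [(207045, 0, 156, 136335), (230085, 0, 156, 147855)],
  [(201, 0, 108, 75), (196809, 0, 108, 65611), (573641, 9, 120, 65851), (8393, 0, 108, 8267), (205001, 0, 108, 73803), (405705, 9, 108, 540975), (1225, 0, 108, 3147), (197833, 0, 108, 68683), (574665, 9, 120, 74043), (9417, 0, 108, 11339), (206025, 0, 108, 76875), (6345, 0, 108, 14411), (202953, 0, 108, 79947), (101577, 7, 120, 70539), (25545, 3, 228, 147855)],
  [(33229, 0, 156, 17291), (139725, 0, 156, 70539), (526797, 9, 120, 14619)],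
  [(794833, 9, 216, 17291), (821457, 9, 216, 70539), (918225, 8, 180, 14619)],
  [],
  [(786649, 0, 108, 262267), (794841, 0, 108, 270459), (1009625, 3, 216, 638575)],
  [],
  [(225, 2, 180, 65547), (196833, 2, 180, 73739), (32993, 2, 180, 68619), (229601, 7, 180, 11339), (180449, 7, 228, 14411), (307425, 9, 108, 147855), (1249, 2, 180, 65611), (197857, 2, 180, 73803), (34017, 2, 180, 68683), (230625, 2, 180, 76875), (181473, 2, 180, 79947), (77025, 2, 180, 70539), (4833, 2, 180, 65851), (201441, 2, 180, 74043), (19425, 3, 228, 540975)],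
  [(721125, 0, 108, 589935), (759525, 0, 108, 638575)],
  [],
  [(493, 1, 228, 262267), (33261, 1, 228, 270459), (505325, 4, 156, 638575)],
  [(165105, 2, 216, 136335), (533745, 2, 216, 147855)],
  [],
  [(1785, 2, 228, 589935), (780025, 2, 228, 638575)],
  []]

/-- the quadruples -/
def trp : List (List (ℕ × ℕ × ℕ × ℕ)) := [[],
  [],
  [],
  [(0, 3, 1, 2), (1, 2, 0, 3)],
  [(0, 4, 1, 3), (1, 3, 0, 4), (1, 4, 2, 3), (2, 3, 1, 4)],
  [(1, 4, 0, 5), (1, 5, 2, 4), (2, 3, 0, 5), (2, 4, 1, 5), (2, 5, 3, 4), (3, 4, 2, 5)],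
  [(0, 1, 5, 6), (0, 6, 1, 5), (0, 6, 2, 4), (1, 5, 0, 6), (2, 4, 0, 6), (2, 5, 1, 6), (2, 6, 3, 5), (3, 4, 1, 6), (3, 5, 2, 6), (3, 6, 4, 5), (4, 5, 3, 6), (5, 6, 0, 1)],
  [(0, 1, 4, 7), (0, 2, 5, 7), (0, 3, 6, 7), (0, 7, 1, 6), (0, 7, 2, 5), (0, 7, 3, 4), (1, 2, 6, 7), (1, 7, 2, 6), (1, 7, 3, 5), (2, 5, 0, 7), (2, 6, 1, 7), (3, 4, 0, 7), (3, 5, 1, 7), (3, 6, 2, 7), (3, 7, 4, 6), (4, 5, 2, 7), (4, 6, 3, 7), (4, 7, 0, 1), (4, 7, 5, 6), (5, 6, 4, 7), (5, 7, 0, 2), (6, 7, 0, 3), (6, 7, 1, 2)],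
  [(0, 1, 3, 8), (0, 2, 4, 8), (0, 3, 5, 8), (0, 4, 6, 8), (0, 8, 1, 7), (0, 8, 2, 6), (0, 8, 3, 5), (1, 2, 5, 8), (1, 3, 6, 8), (1, 4, 7, 8), (1, 7, 0, 8), (1, 8, 2, 7), (1, 8, 3, 6), (1, 8, 4, 5), (2, 3, 7, 8), (2, 6, 0, 8), (2, 8, 3, 7), (2, 8, 4, 6), (3, 5, 0, 8), (3, 6, 1, 8), (3, 7, 2, 8), (4, 5, 1, 8), (4, 6, 2, 8), (4, 7, 3, 8), (4, 8, 0, 2), (4, 8, 5, 7), (5, 6, 3, 8), (5, 7, 4, 8), (5, 8, 0, 3), (5, 8, 1, 2), (5, 8, 6, 7), (6, 7, 5, 8), (6, 8, 0, 4), (6, 8, 1, 3), (7, 8, 0, 5), (7, 8, 1, 4), (7, 8, 2, 3)],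
  [(0, 1, 2, 9), (0, 2, 3, 9), (0, 3, 4, 9), (0, 4, 5, 9), (0, 6, 7, 9), (0, 7, 8, 9), (0, 9, 1, 8), (0, 9, 2, 7), (0, 9, 3, 6), (0, 9, 4, 5), (1, 2, 4, 9), (1, 3, 5, 9), (1, 4, 6, 9), (1, 5, 7, 9), (1, 8, 0, 9), (1, 9, 2, 8), (1, 9, 3, 7), (1, 9, 4, 6), (2, 3, 6, 9), (2, 4, 7, 9), (2, 5, 8, 9), (2, 8, 1, 9), (2, 9, 0, 1), (2, 9, 3, 8), (2, 9, 4, 7), (2, 9, 5, 6), (3, 4, 8, 9), (3, 6, 0, 9), (3, 7, 1, 9), (3, 9, 0, 2), (3, 9, 4, 8), (3, 9, 5, 7), (4, 5, 0, 9), (4, 6, 1, 9), (4, 7, 2, 9), (4, 8, 3, 9), (5, 6, 2, 9), (5, 7, 3, 9), (5, 8, 4, 9), (5, 9, 0, 4), (5, 9, 1, 3), (5, 9, 6, 8), (6, 7, 4, 9), (6, 8, 5, 9), (6, 9, 0, 5), (6, 9, 1, 4), (6, 9, 2, 3), (6, 9, 7, 8), (7, 8, 6, 9), (7, 9, 0, 6), (7, 9, 1, 5), (7, 9, 2, 4), (8, 9, 0, 7), (8, 9, 1, 6), (8, 9, 2, 5), (8, 9, 3, 4)]]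

/-- the code is in the table -/
def resB (n : ℕ) : Bool := (tab.getD (n / 4 % 64) []).any fun e => Nat.beq e.1 n

/-- a label occurs -/
def hasB (n v : ℕ) : Bool := (List.range 10).any fun i => Nat.beq (dg n i) v

/-- the condition on the first labels -/
def okP (j n : ℕ) : Bool := (trp.getD j []).all fun e =>
  Nat.beq (dg n e.1) 0 || !(Nat.beq (dg n e.1) (dg n e.2.1)) ||
    Nat.beq (dg n e.2.2.1) (dg n e.2.2.2) ||
    ((Nat.beq (dg n e.2.2.1) 0 || Nat.beq (dg n e.2.2.1) (dg n e.1)) &&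
     (Nat.beq (dg n e.2.2.2) 0 || Nat.beq (dg n e.2.2.2) (dg n e.1)))

/-- the search -/
def bt : ℕ → ℕ → ℕ → Bool
  | 0, _, n => !(hasB n 2) || !(hasB n 3) || resB n
  | f + 1, j, n => (List.range 4).all fun v =>
      !(okP j (n + v * 4 ^ j)) || bt f (j + 1) (n + v * 4 ^ j)

/-- the code of the first labels -/
def pc (L : ℕ → ℕ) : ℕ → ℕ
  | 0 => 0
  | j + 1 => pc L j + L j * 4 ^ j

lemma pc_lt {L : ℕ → ℕ} (hL : ∀ i, L i < 4) (j : ℕ) : pc L j < 4 ^ j := by
  induction j with
  | zero => simp [pc]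
  | succ j ih =>
    have := hL j
    have h1 : L j * 4 ^ j ≤ 3 * 4 ^ j := Nat.mul_le_mul_right _ (by omega)
    show pc L j + L j * 4 ^ j < 4 ^ (j + 1)
    rw [pow_succ]
    omega

lemma dg_pc {L : ℕ → ℕ} (hL : ∀ i, L i < 4) {j i : ℕ} (hi : i < j) : dg (pc L j) i = L i := by
  induction j with
  | zero => omega
  | succ j ih =>
    have h1 := pc_lt hL j
    have h2 := hL i
    show (pc L j + L j * 4 ^ j) / 4 ^ i % 4 = L i
    by_cases h : i = j
    · subst h
      rw [Nat.add_mul_div_right _ _ (by positivity), Nat.div_eq_of_lt h1, zero_add,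
        Nat.mod_eq_of_lt h2]
    · have h3 := ih (by omega)
      obtain ⟨k, hk⟩ : ∃ k, j = i + 1 + k := ⟨j - i - 1, by omega⟩
      have e : L j * 4 ^ j = (L j * 4 ^ k * 4) * 4 ^ i := by
        rw [hk, pow_add, pow_succ]
        ring
      rw [e, Nat.add_mul_div_right _ _ (by positivity), Nat.add_mul_mod_self_right]
      exact h3

lemma trp_spec : ∀ j, j < 10 → ∀ e ∈ trp.getD j [], (e.1, e.2.1) ∈ prs ∧ e.1 ≤ j ∧ e.2.1 ≤ j ∧
    e.2.2.1 ≤ j ∧ e.2.2.2 ≤ j ∧ (e.1 + e.2.1 + 10 - e.2.2.1) % 10 = e.2.2.2 ∧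
    (e.1 + e.2.1 + 10 - e.2.2.2) % 10 = e.2.2.1 := by
  decide +kernel

lemma okP_of {L : ℕ → ℕ} (hL : ∀ i, L i < 4)
    (h : ∀ p ∈ prs, ∀ x, x < 10 → L p.1 ≠ 0 → L p.1 = L p.2 → L x ≠ 0 → L x ≠ L p.1 →
      L ((p.1 + p.2 + 10 - x) % 10) = L x) {j : ℕ} (hj : j < 10) : okP j (pc L (j + 1)) = true := by
  unfold okP
  rw [List.all_eq_true]
  intro e he
  obtain ⟨h1, h2, h3, h4, h5, h6, h7⟩ := trp_spec j hj e he
  rw [dg_pc hL (by omega : e.1 < j + 1), dg_pc hL (by omega : e.2.1 < j + 1),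
    dg_pc hL (by omega : e.2.2.1 < j + 1), dg_pc hL (by omega : e.2.2.2 < j + 1)]
  have h8 := h _ h1 e.2.2.1 (by omega)
  have h9 := h _ h1 e.2.2.2 (by omega)
  simp only [h6, h7] at h8 h9
  by_cases c1 : L e.1 = 0
  · rw [c1]; simp
  by_cases c2 : L e.1 = L e.2.1
  · by_cases c3 : L e.2.2.1 = L e.2.2.2
    · rw [c3, Nat.beq_refl]; simp
    · have c4 : L e.2.2.1 = 0 ∨ L e.2.2.1 = L e.1 := by
        by_contra hh
        push Not at hh
        exact c3 (h8 c1 c2 hh.1 hh.2).symm
      have c5 : L e.2.2.2 = 0 ∨ L e.2.2.2 = L e.1 := by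
        by_contra hh
        push Not at hh
        exact c3 (h9 c1 c2 hh.1 hh.2)
      have d4 : (Nat.beq (L e.2.2.1) 0 || Nat.beq (L e.2.2.1) (L e.1)) = true := by
        rcases c4 with c | c
        · rw [c]; rfl
        · rw [c, Nat.beq_refl, Bool.or_true]
      have d5 : (Nat.beq (L e.2.2.2) 0 || Nat.beq (L e.2.2.2) (L e.1)) = true := by
        rcases c5 with c | c
        · rw [c]; rfl
        · rw [c, Nat.beq_refl, Bool.or_true]
      rw [d4, d5]
      simp
  · have : Nat.beq (L e.1) (L e.2.1) = false := by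
      rw [Bool.eq_false_iff]
      exact fun hb => c2 (Nat.eq_of_beq_eq_true hb)
    rw [this]
    simp

lemma bt_spec {L : ℕ → ℕ} (hL : ∀ i, L i < 4)
    (h : ∀ p ∈ prs, ∀ x, x < 10 → L p.1 ≠ 0 → L p.1 = L p.2 → L x ≠ 0 → L x ≠ L p.1 →
      L ((p.1 + p.2 + 10 - x) % 10) = L x) (f j : ℕ) (hj : j + f = 10)
    (hb : bt f j (pc L j) = true) : (!(hasB (pc L 10) 2) || !(hasB (pc L 10) 3) ||
      resB (pc L 10)) = true := by
  induction f generalizing j with
  | zero =>
    rw [add_zero] at hj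
    subst hj
    exact hb
  | succ f ih =>
    rw [bt, List.all_eq_true] at hb
    have h1 := hb (L j) (List.mem_range.mpr (hL j))
    have h2 : okP j (pc L j + L j * 4 ^ j) = true := okP_of hL h (by omega)
    rw [h2] at h1
    rw [Bool.not_true, Bool.false_or] at h1
    exact ih (j + 1) (by omega) h1

lemma bt_succ {f j n : ℕ} (h : ∀ v, v < 4 → bt f (j + 1) (n + v * 4 ^ j) = true) :
    bt (f + 1) j n = true := by
  rw [bt, List.all_eq_true]
  intro v hv
  rw [h v (List.mem_range.mp hv), Bool.or_true]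

lemma enumP_1 : bt 7 3 1 = true := by
  decide +kernel

lemma enumP_17 : bt 7 3 17 = true := by
  decide +kernel

lemma enumP_33 : bt 7 3 33 = true := by
  decide +kernel

lemma enumP_49 : bt 7 3 49 = true := by
  decide +kernel

lemma enumP_5 : bt 7 3 5 = true := by
  decide +kernel

lemma enumP_21 : bt 7 3 21 = true := by
  decide +kernel

lemma enumP_37 : bt 7 3 37 = true := by
  decide +kernel

lemma enumP_53 : bt 7 3 53 = true := by
  decide +kernel

lemma enumP_9 : bt 7 3 9 = true := by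
  decide +kernel

lemma enumP_25 : bt 7 3 25 = true := by
  decide +kernel

lemma enumP_41 : bt 7 3 41 = true := by
  decide +kernel

lemma enumP_57 : bt 7 3 57 = true := by
  decide +kernel

lemma enumP_13 : bt 7 3 13 = true := by
  decide +kernel

lemma enumP_29 : bt 7 3 29 = true := by
  decide +kernel

lemma enumP_45 : bt 7 3 45 = true := by
  decide +kernel

lemma enumP_61 : bt 7 3 61 = true := by
  decide +kernel

lemma enum10 : bt 9 1 1 = true := by
  refine bt_succ fun v hv => bt_succ fun w hw => ?_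
  interval_cases v <;> interval_cases w
  · exact enumP_1
  · exact enumP_17
  · exact enumP_33
  · exact enumP_49
  · exact enumP_5
  · exact enumP_21
  · exact enumP_37
  · exact enumP_53
  · exact enumP_9
  · exact enumP_25
  · exact enumP_41
  · exact enumP_57
  · exact enumP_13
  · exact enumP_29
  · exact enumP_45
  · exact enumP_61

lemma tab_spec : ∀ b ∈ tab, ∀ e ∈ b, e.2.2.1 ∈ prm ∧ e.2.2.2 ∈ can ∧
    cod (fun i => dg e.2.2.1 (dg e.1 ((i + e.2.1) % 10))) = e.2.2.2 := by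
  decide +kernel

end Pool.Agent.UP10
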