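import Pool.Agent.Lib_helper40.UP10.Enum10

/-!
# Reduction to the normal forms
-/

set_option autoImplicit false
set_option linter.unusedVariables false

namespace Pool.Agent.UP10

open UP

variable {D E G : ZMod 10 → ℤ} {d : ℤ}

lemma dg_cod {a : ℕ → ℕ} (ha : ∀ i, i < 10 → a i < 4) {i : ℕ} (hi : i < 10) :
    dg (cod a) i = a i := by
  have h0 := ha 0 (by norm_num)
  have h1 := ha 1 (by norm_num)
  have h2 := ha 2 (by norm_num)
  have h3 := ha 3 (by norm_num)
  have h4 := ha 4 (by norm_num)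
  have h5 := ha 5 (by norm_num)
  have h6 := ha 6 (by norm_num)
  have h7 := ha 7 (by norm_num)
  have h8 := ha 8 (by norm_num)
  have h9 := ha 9 (by norm_num)
  unfold dg cod
  interval_cases i <;> norm_num <;> omega

/-- the labels -/
def lc (D E G : ZMod 10 → ℤ) (i : ℕ) : ℕ := lab D E G (i : ZMod 10)

/-- the code of the labels -/
def lcode (D E G : ZMod 10 → ℤ) : ℕ := pc (lc D E G) 10

lemma lc_lt (i : ℕ) : lc D E G i < 4 := lab_lt _

lemma dg_lcode {i : ℕ} (hi : i < 10) : dg (lcode D E G) i = lab D E G (i : ZMod 10) :=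
  dg_pc lc_lt hi

lemma cast_mod (n : ℕ) : ((n % 10 : ℕ) : ZMod 10) = (n : ZMod 10) := ZMod.natCast_mod n 10

lemma prs_spec : ∀ p ∈ prs, p.1 < 10 ∧ p.2 < 10 ∧
    2 * (((p.2 : ℕ) : ZMod 10) - ((p.1 : ℕ) : ZMod 10)) ≠ 0 := by
  decide +kernel

lemma okL (h : Tr D E G d) : ∀ p ∈ prs, ∀ x, x < 10 → lc D E G p.1 ≠ 0 →
    lc D E G p.1 = lc D E G p.2 → lc D E G x ≠ 0 → lc D E G x ≠ lc D E G p.1 →
      lc D E G ((p.1 + p.2 + 10 - x) % 10) = lc D E G x := by
  intro p hp x hx h1 h2 h3 h4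
  obtain ⟨a1, a2, a3⟩ := prs_spec p hp
  have := h.lab_symm10 a3 h2 h1 _ h3 h4
  have e5 : (((p.1 + p.2 + 10 - x) % 10 : ℕ) : ZMod 10) =
      ((p.1 : ℕ) : ZMod 10) + ((p.2 : ℕ) : ZMod 10) - (x : ZMod 10) := by
    rw [cast_mod, Nat.cast_sub (by omega), Nat.cast_add, Nat.cast_add]
    have : ((10 : ℕ) : ZMod 10) = 0 := by decide
    rw [this, add_zero]
  unfold lc
  rw [e5]
  exact this

lemma hasB_of {v : ℕ} {x : ZMod 10} (hx : lab D E G x = v) : hasB (lcode D E G) v = true := by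
  unfold hasB
  rw [List.any_eq_true]
  refine ⟨x.val, List.mem_range.mpr (ZMod.val_lt x), ?_⟩
  rw [dg_lcode (ZMod.val_lt x), ZMod.natCast_zmod_val, hx, Nat.beq_refl]

/-- the normal form -/
lemma resB_of (h : Tr D E G d) (h0 : D 0 ≠ 0) : ∃ t s c : ℕ, s ∈ prm ∧ c ∈ can ∧
    ∀ i, i < 10 → dg c i = dg s (lab D E G ((i : ZMod 10) + (t : ZMod 10))) := by
  have hl0 : lab D E G 0 = 1 := h.m10lab1_iff.mpr h0
  have e1 : pc (lc D E G) 1 = 1 := by
    show 0 + lab D E G ((0 : ℕ) : ZMod 10) * 4 ^ 0 = 1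
    rw [Nat.cast_zero, hl0]
    rfl
  have key := bt_spec lc_lt (okL h) 9 1 (by norm_num) (by rw [e1]; exact enum10)
  change (!(hasB (lcode D E G) 2) || !(hasB (lcode D E G) 3) || resB (lcode D E G)) = true at key
  obtain ⟨x, hx⟩ := h.rot.exists_pt
  obtain ⟨y, hy⟩ := h.rot.rot.exists_pt
  rw [hasB_of (h.m10lab2_iff.mpr hx), hasB_of (h.m10lab3_iff.mpr hy)] at key
  have key : resB (lcode D E G) = true := by simpa using key
  unfold resB at key
  rw [List.any_eq_true] at key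
  obtain ⟨e, he, key⟩ := key
  have key := Nat.eq_of_beq_eq_true key
  have hb : ∃ b ∈ tab, e ∈ b := by
    rw [List.getD_eq_getElem?_getD] at he
    by_cases hlt : lcode D E G / 4 % 64 < tab.length
    · rw [List.getElem?_eq_getElem hlt, Option.getD_some] at he
      exact ⟨_, List.getElem_mem hlt, he⟩
    · rw [List.getElem?_eq_none (by omega), Option.getD_none] at he
      simp at he
  obtain ⟨b, hb, heb⟩ := hb
  obtain ⟨hs, hc, hcod⟩ := tab_spec b hb e heb
  refine ⟨e.2.1, e.2.2.1, e.2.2.2, hs, hc, fun i hi => ?_⟩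
  have h4 : ∀ i, i < 10 → dg e.2.2.1 (dg e.1 ((i + e.2.1) % 10)) < 4 := fun i _ =>
    Nat.mod_lt _ (by norm_num)
  have := dg_cod h4 hi
  rw [hcod] at this
  rw [this, key, dg_lcode (Nat.mod_lt _ (by norm_num)), cast_mod, Nat.cast_add]

/-! ### translations -/

/-- translate -/
def tl (t : ZMod 10) (D : ZMod 10 → ℤ) : ZMod 10 → ℤ := fun x => D (x + t)

lemma _root_.Pool.Agent.UP.Rl.tl10 {D M : ZMod 10 → ℤ} (h : Rl D M) (t : ZMod 10) : Rl (tl t D) (tl t M) := by
  intro T T' h1 h2 j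
  have := h (T + t) (T' + t) h1 h2 j
  show M (T - j + t) + M (T + j + t) = M (T' - j + t) + M (T' + j + t)
  have a1 : T - j + t = T + t - j := by abel
  have a2 : T + j + t = T + t + j := by abel
  have a3 : T' - j + t = T' + t - j := by abel
  have a4 : T' + j + t = T' + t + j := by abel
  rw [a1, a2, a3, a4]
  exact this

lemma _root_.Pool.Agent.UP.Tr.tl10 (h : Tr D E G d) (t : ZMod 10) : Tr (tl t D) (tl t E) (tl t G) d where
  d0 x := h.d0 _
  e0 x := h.e0 _
  g0 x := h.g0 _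
  de x hx := h.de _ hx
  eg x hx := h.eg _ hx
  gd x hx := h.gd _ hx
  sd := (Equiv.sum_comp (Equiv.addRight t) D).trans h.sd
  se := (Equiv.sum_comp (Equiv.addRight t) E).trans h.se
  sg := (Equiv.sum_comp (Equiv.addRight t) G).trans h.sg
  pos := h.pos
  rd := h.rd.tl10 t
  re := h.re.tl10 t
  rg := h.rg.tl10 t

lemma card_tl (t : ZMod 10) (D : ZMod 10 → ℤ) :
    Fintype.card {x // tl t D x ≠ 0} = Fintype.card {x // D x ≠ 0} :=
  Fintype.card_congr ((Equiv.addRight t).subtypeEquiv fun x => Iff.rfl)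

lemma sum_tl (t : ZMod 10) (D G : ZMod 10 → ℤ) (h1 : ∑ x : ZMod 10, (D x - G x) • x = 0)
    (h2 : ∑ x : ZMod 10, D x = ∑ x : ZMod 10, G x) :
    ∑ x : ZMod 10, (tl t D x - tl t G x) • x = 0 := by
  have e1 : ∑ x : ZMod 10, (tl t D x - tl t G x) • x = ∑ x : ZMod 10, (D x - G x) • (x - t) := by
    rw [← Equiv.sum_comp (Equiv.addRight t) fun x => (D x - G x) • (x - t)]
    refine Finset.sum_congr rfl fun x _ => ?_
    show (D (x + t) - G (x + t)) • x = (D (x + t) - G (x + t)) • (x + t - t)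
    rw [add_sub_cancel_right]
  rw [e1]
  have e2 : ∀ x : ZMod 10, (D x - G x) • (x - t) = (D x - G x) • x - (D x - G x) • t := fun x =>
    smul_sub _ _ _
  rw [Finset.sum_congr rfl fun x _ => e2 x, Finset.sum_sub_distrib, h1, ← Finset.sum_smul,
    Finset.sum_sub_distrib, h2, sub_self, zero_smul, sub_zero]

lemma H10.tl (h : H10 D E G d) (t : ZMod 10) : H10 (tl t D) (tl t E) (tl t G) d where
  toTr := h.toTr.tl10 t
  rh := by rw [card_tl, card_tl, card_tl]; exact h.rh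
  s1 := sum_tl t D G h.s1 (h.sd.trans h.sg.symm)
  s2 := sum_tl t E G h.s2 (h.se.trans h.sg.symm)

lemma Con10.of_tl {t : ZMod 10} (h : Con10 (tl t D) (tl t E) (tl t G)) : Con10 D E G := by
  rcases h with ⟨S, p, q, r, n, h0, h1, h2, h3⟩ | ⟨u, hu⟩
  · left
    have key : ∀ (D : ZMod 10 → ℤ) (p : ZMod 10), (∀ x, UP10.tl t D x = n * mz S p x) →
        ∀ x, D x = n * mz (S + t + t) (p + t) x := by
      intro D p h x
      have := h (x - t)
      unfold UP10.tl at this
      rw [sub_add_cancel] at this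
      rw [this]
      congr 1
      unfold mz
      have a1 : x - t = p ↔ x = p + t := sub_eq_iff_eq_add
      have a2 : x - t = S - p ↔ x = S + t + t - (p + t) := by
        rw [sub_eq_iff_eq_add]
        have : S - p + t = S + t + t - (p + t) := by abel
        rw [this]
      rw [if_congr a1 rfl rfl, if_congr a2 rfl rfl]
    exact ⟨S + t + t, p + t, q + t, r + t, n, h0, key D p h1, key E r h2, key G q h3⟩
  · right
    refine ⟨u + t, ?_⟩
    have key : ∀ D : ZMod 10 → ℤ, (fun x => UP10.tl t D (x + u)) = fun x => D (x + (u + t)) := by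
      intro D
      funext x
      unfold UP10.tl
      rw [add_assoc]
    rw [key, key, key] at hu
    exact hu

/-! ### orders -/

lemma sum_symm {D G : ZMod 10 → ℤ} (h : ∑ x : ZMod 10, (D x - G x) • x = 0) :
    ∑ x : ZMod 10, (G x - D x) • x = 0 := by
  have : ∀ x : ZMod 10, (G x - D x) • x = - ((D x - G x) • x) := by
    intro x
    rw [← neg_smul, neg_sub]
  rw [Finset.sum_congr rfl fun x _ => this x, Finset.sum_neg_distrib, h, neg_zero]

lemma sum_trans {D E G : ZMod 10 → ℤ} (h : ∑ x : ZMod 10, (D x - G x) • x = 0)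
    (h' : ∑ x : ZMod 10, (E x - G x) • x = 0) :
    ∑ x : ZMod 10, (D x - E x) • x = 0 := by
  have : ∀ x : ZMod 10, (D x - E x) • x = (D x - G x) • x - (E x - G x) • x := by
    intro x
    rw [← sub_smul]
    congr 1
    ring
  rw [Finset.sum_congr rfl fun x _ => this x, Finset.sum_sub_distrib, h, h', sub_zero]

lemma H10.rot (h : H10 D E G d) : H10 E G D d where
  toTr := h.toTr.rot
  rh := by have := h.rh; omega
  s1 := sum_symm (sum_trans h.s1 h.s2)
  s2 := sum_symm h.s1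

lemma H10.sw (h : H10 D E G d) : H10 D G E d where
  toTr := h.toTr.sw
  rh := by have := h.rh; omega
  s1 := sum_trans h.s1 h.s2
  s2 := sum_symm h.s2

lemma Con10.of_rot (h : Con10 E G D) : Con10 D E G := by
  rcases h with ⟨S, p, q, r, n, h0, h1, h2, h3⟩ | ⟨u, hu⟩
  · exact Or.inl ⟨S, q, r, p, n, h0, h3, h1, h2⟩
  · right
    refine ⟨u, ?_⟩
    unfold Six at hu ⊢
    tauto

lemma Con10.of_sw (h : Con10 D G E) : Con10 D E G := by
  rcases h with ⟨S, p, q, r, n, h0, h1, h2, h3⟩ | ⟨u, hu⟩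
  · exact Or.inl ⟨S, p, r, q, n, h0, h1, h3, h2⟩
  · right
    refine ⟨u, ?_⟩
    unfold Six at hu ⊢
    tauto

lemma lab_sw (h : Tr D E G d) (x : ZMod 10) : lab D G E x = dg 180 (lab D E G x) := by
  have h4 := lab_lt (D := D) (E := E) (G := G) x
  have : lab D E G x = 0 ∨ lab D E G x = 1 ∨ lab D E G x = 2 ∨ lab D E G x = 3 := by omega
  rcases this with e | e | e | e
  · obtain ⟨a1, a2, a3⟩ := lab0 e
    rw [e]
    unfold lab
    rw [a1, a2, a3]
    rfl
  · rw [e, h.sw.m10lab1_iff.mpr (h.m10lab1_iff.mp e)]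
    rfl
  · rw [e, h.sw.m10lab3_iff.mpr (h.m10lab2_iff.mp e)]
    rfl
  · rw [e, h.sw.m10lab2_iff.mpr (h.m10lab3_iff.mp e)]
    rfl

lemma lab_rot (h : Tr D E G d) (x : ZMod 10) : lab E G D x = dg 156 (lab D E G x) := by
  have h4 := lab_lt (D := D) (E := E) (G := G) x
  have : lab D E G x = 0 ∨ lab D E G x = 1 ∨ lab D E G x = 2 ∨ lab D E G x = 3 := by omega
  rcases this with e | e | e | e
  · obtain ⟨a1, a2, a3⟩ := lab0 e
    rw [e]
    unfold lab
    rw [a1, a2, a3]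
    rfl
  · rw [e, h.rot.m10lab3_iff.mpr (h.m10lab1_iff.mp e)]
    rfl
  · rw [e, h.rot.m10lab1_iff.mpr (h.m10lab2_iff.mp e)]
    rfl
  · rw [e, h.rot.m10lab2_iff.mpr (h.m10lab3_iff.mp e)]
    rfl

lemma dg_prm : ∀ v, v < 4 → dg 228 v = v ∧ dg 216 v = dg 180 (dg 156 v) ∧
    dg 120 v = dg 156 (dg 156 v) ∧ dg 108 v = dg 180 (dg 156 (dg 156 v)) := by
  decide +kernel

/-- **the reduction** -/
theorem H10.red (h : H10 D E G d)
    (key : ∀ {D E G : ZMod 10 → ℤ}, H10 D E G d → ∀ c ∈ can,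
      (∀ i : ℕ, i < 10 → lab D E G (i : ZMod 10) = dg c i) → Con10 D E G) : Con10 D E G := by
  obtain ⟨T, hT⟩ := h.toTr.exists_pt
  apply Con10.of_tl (t := T)
  have h' := h.tl T
  have h0 : UP10.tl T D 0 ≠ 0 := by
    unfold UP10.tl
    rwa [zero_add]
  generalize UP10.tl T D = D at *
  generalize UP10.tl T E = E at *
  generalize UP10.tl T G = G at *
  obtain ⟨t, s, c, hs, hc, hh⟩ := resB_of h'.toTr h0
  apply Con10.of_tl (t := (t : ZMod 10))
  have h'' := h'.tl (t : ZMod 10)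
  have hl : ∀ i : ℕ, i < 10 → dg s (lab (UP10.tl (t : ZMod 10) D) (UP10.tl (t : ZMod 10) E)
      (UP10.tl (t : ZMod 10) G) (i : ZMod 10)) = dg c i := fun i hi => (hh i hi).symm
  generalize UP10.tl (t : ZMod 10) D = D at *
  generalize UP10.tl (t : ZMod 10) E = E at *
  generalize UP10.tl (t : ZMod 10) G = G at *
  clear h h' h0 hh
  unfold prm at hs
  simp only [List.mem_cons, List.not_mem_nil, or_false] at hs
  have h4 := fun i : ℕ => lab_lt (D := D) (E := E) (G := G) (i : ZMod 10)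
  rcases hs with rfl | rfl | rfl | rfl | rfl | rfl
  · refine key h'' c hc fun i hi => ?_
    rw [← hl i hi, (dg_prm _ (h4 i)).1]
  · refine (key h''.sw c hc fun i hi => ?_).of_sw
    rw [← hl i hi, lab_sw h''.toTr]
  · refine (key h''.rot.sw c hc fun i hi => ?_).of_sw.of_rot
    rw [← hl i hi, lab_sw h''.rot.toTr, lab_rot h''.toTr, (dg_prm _ (h4 i)).2.1]
  · refine (key h''.rot.rot c hc fun i hi => ?_).of_rot.of_rot
    rw [← hl i hi, lab_rot h''.rot.toTr, lab_rot h''.toTr, (dg_prm _ (h4 i)).2.2.1]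
  · refine (key h''.rot c hc fun i hi => ?_).of_rot
    rw [← hl i hi, lab_rot h''.toTr]
  · refine (key h''.rot.rot.sw c hc fun i hi => ?_).of_sw.of_rot.of_rot
    rw [← hl i hi, lab_sw h''.rot.rot.toTr, lab_rot h''.rot.toTr, lab_rot h''.toTr,
      (dg_prm _ (h4 i)).2.2.2]

end Pool.Agent.UP10
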